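import Pool.Agent.JMP.Sets
import Pool.Agent.Nil.NilSeq

set_option autoImplicit false
set_option linter.unusedSectionVars false

/-!
# JMP: measure preserving maps that generate a nilpotent group
-/

namespace Pool.JMP

open MeasureTheory Finset
open scoped ENNReal

universe u

section action

variable {X : Type u} [MeasurableSpace X] (μ : Measure X)

/-- the group of the measure preserving permutations -/
def MP : Subgroup (Equiv.Perm X) where
  carrier := {σ | MeasurePreserving (⇑σ) μ μ ∧ MeasurePreserving (⇑σ⁻¹) μ μ}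
  mul_mem' := by
    intro a b ha hb
    refine ⟨ha.1.comp hb.1, ?_⟩
    rw [mul_inv_rev]
    exact hb.2.comp ha.2
  one_mem' := ⟨MeasurePreserving.id μ, by rw [inv_one]; exact MeasurePreserving.id μ⟩
  inv_mem' := by
    intro a ha
    refine ⟨ha.2, ?_⟩
    rw [inv_inv]
    exact ha.1

variable {μ} {d : ℕ} {T : Fin d → Equiv.Perm X}

lemma closure_le_MP (hs : ∀ i, Measurable ⇑(T i).symm) (hT : ∀ i, MeasurePreserving (⇑(T i)) μ μ) :
    Subgroup.closure (Set.range T) ≤ MP μ := by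
  rw [Subgroup.closure_le]
  rintro _ ⟨i, rfl⟩
  refine ⟨hT i, ?_⟩
  exact MeasurePreserving.symm (μa := μ) (μb := μ)
    { toEquiv := T i, measurable_toFun := (hT i).measurable, measurable_invFun := hs i } (hT i)

end action

lemma cx_of_nil (k m D : ℕ) : ∃ t : ℕ, ∀ (G : Type u) [Group G], Group.IsNilpotent G → Group.nilpotencyClass G ≤ k →
    ∀ (d : ℕ) (T : Fin d → G) (P : Fin d → Fin m → Polynomial ℤ), (∀ i j, (P i j).natDegree ≤ D) →
      Cx t (List.ofFn fun j : Fin m => Pool.Nil.pseq T (fun i => P i j)) := by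
  obtain ⟨t, h⟩ := cx_of_isSeq.{u} ((D + 1) * 2 ^ k) m
  refine ⟨t, fun G _ hnil hk d T P hP => ?_⟩
  have := hnil
  have hF := Pool.Nil.NilSeq.filt_lcF (G := G) D
  have h0 : Pool.Lib.PolySeq.lcF G D 0 = ⊤ := by
    have h1 := Pool.Nil.NilSeq.lcF_self (G := G) D
    exact top_le_iff.1 (h1 ▸ hF.le (Nat.zero_le D))
  have hs : Pool.Lib.PolySeq.lcF G D ((D + 1) * 2 ^ k) = ⊥ := by
    unfold Pool.Lib.PolySeq.lcF
    rw [Pool.Lib.PolySeq.ee_big]
    exact Subgroup.lowerCentralSeries_eq_bot_iff_nilpotencyClass_le.2 hk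
  refine h G _ hF h0 hs _ (by rw [List.length_ofFn]) fun g hg => ?_
  rw [List.mem_ofFn] at hg
  obtain ⟨j, rfl⟩ := hg
  exact Pool.Nil.NilSeq.isSeq_pseq hF (Pool.Nil.NilSeq.lcF_self D) T _ fun i => hP i j

section versions

variable {X : Type u} [MeasurableSpace X] {μ : Measure X}

/-- a measurable bounded version -/
lemma exists_version {f : X → ℂ} (hf : AEStronglyMeasurable f μ) {K : ℝ} (hK : 0 ≤ K) (hb : ∀ᵐ x ∂μ, ‖f x‖ ≤ K) :
    ∃ f' : X → ℂ, Measurable f' ∧ (∀ x, ‖f' x‖ ≤ K) ∧ f =ᵐ[μ] f' := by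
  set g := hf.mk f with hg
  have hgm : Measurable g := hf.stronglyMeasurable_mk.measurable
  have hge : f =ᵐ[μ] g := hf.ae_eq_mk
  refine ⟨fun x => if ‖g x‖ ≤ K then g x else 0, ?_, fun x => ?_, ?_⟩
  · exact Measurable.ite (measurableSet_le hgm.norm measurable_const) hgm measurable_const
  · show ‖if ‖g x‖ ≤ K then g x else 0‖ ≤ K
    split_ifs with h
    · exact h
    · rw [norm_zero]
      exact hK
  · filter_upwards [hge, hb] with x hx hx'
    show f x = if ‖g x‖ ≤ K then g x else 0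
    rw [if_pos (by rw [← hx]; exact hx')]
    exact hx

lemma ae_bound_of_memLp {f : X → ℂ} (hf : MemLp f ∞ μ) : ∀ᵐ x ∂μ, ‖f x‖ ≤ (eLpNorm f ∞ μ).toReal := by
  have h1 := ae_le_eLpNormEssSup (f := f) (μ := μ)
  have h2 : eLpNorm f ∞ μ ≠ ⊤ := hf.2.ne
  filter_upwards [h1] with x hx
  rw [← ENNReal.ofReal_le_iff_le_toReal h2, ofReal_norm, eLpNorm_exponent_top]
  exact hx

variable {G : Type u} [Group G] [MulAction G X] [MeasurableConstSMul G X] [SMulInvariantMeasure G X μ]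

lemma ae_EC_eq {m : ℕ} (g : Fin m → ℤ → G) {f f' : Fin m → X → ℂ} (h : ∀ j, f j =ᵐ[μ] f' j) :
    ∀ᵐ x ∂μ, ∀ N, EC (fun n x => ∏ j, f j (g j n • x)) N x = EC (fun n x => ∏ j, f' j (g j n • x)) N x := by
  have hae : ∀ᵐ x ∂μ, ∀ (n : ℤ) (j : Fin m), f j (g j n • x) = f' j (g j n • x) := by
    rw [ae_all_iff]
    intro n
    rw [ae_all_iff]
    intro j
    exact (measurePreserving_smul (g j n) μ).quasiMeasurePreserving.ae (h j)
  filter_upwards [hae] with x hx N
  simp only [EC, hx]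

end versions

/-- the averages of the problem -/
noncomputable def A {X : Type u} {d m : ℕ} (T : Fin d → Equiv.Perm X) (P : Fin d → Fin m → Polynomial ℤ)
    (f : Fin m → X → ℂ) (N : ℕ) (x : X) : ℂ :=
  ((2 * N + 1 : ℕ) : ℂ)⁻¹ * ∑ n ∈ Icc (-(N : ℤ)) (N : ℤ),
    ∏ j : Fin m, f j ((List.ofFn fun i : Fin d => T i ^ (P i j).eval n).prod x)

/-- **Theorem J** -/
theorem fluct (k m D : ℕ) : ∃ c C : ℝ, 0 < c ∧ ∀ (X : Type u) [MeasurableSpace X] (μ : Measure X)
    [IsProbabilityMeasure μ] (d : ℕ) (T : Fin d → Equiv.Perm X), (∀ i, Measurable ⇑(T i).symm) →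
    (∀ i, MeasurePreserving (⇑(T i)) μ μ) → Group.IsNilpotent (Subgroup.closure (Set.range T)) →
    Group.nilpotencyClass (Subgroup.closure (Set.range T)) ≤ k →
    ∀ P : Fin d → Fin m → Polynomial ℤ, (∀ i j, (P i j).natDegree ≤ D) → ∀ f : Fin m → X → ℂ,
      ((∀ j, AEStronglyMeasurable (f j) μ) → (∀ j, ∀ᵐ x ∂μ, ‖f j x‖ ≤ 1) → ∀ ε : ℝ, 0 < ε → ε ≤ 1 →
        ∀ F : Finset ℕ, F.Nonempty → (∀ n ∈ F, 1 ≤ n) →
          AEMeasurable (fun x => (jumps (fun N => A T P f N x) ε F : ℝ≥0∞)) μ ∧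
          ∫⁻ x, (jumps (fun N => A T P f N x) ε F : ℝ≥0∞) ∂μ ≤
            ENNReal.ofReal (C / ε ^ 4 * (scales F : ℝ) ^ (1 - c))) ∧
      ((∀ j, MemLp (f j) ∞ μ) → ∀ᵐ x ∂μ, ∀ ε : ℝ, 0 < ε → ∀ᶠ N : ℕ in Filter.atTop,
        (jumps (fun N => A T P f N x) ε (Icc 1 N) : ℝ) ≤ (Real.log N) ^ (1 - c)) := by
  obtain ⟨t, ht⟩ := cx_of_nil.{u} k m D
  set δ : ℝ := (1 / 4 : ℝ) ^ t with hδ
  have hδ0 : 0 < δ := by positivity
  have hδ1 : δ ≤ 1 := pow_le_one₀ (by norm_num) (by norm_num)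
  refine ⟨(1 / 4 : ℝ) ^ (t + 1), 3200 * (16 * 4 ^ m) * (4 / (δ * Real.log 2)) ^ 2, by positivity, ?_⟩
  intro X _ μ _ d T hs hT hnil hk P hP f
  set H := Subgroup.closure (Set.range T) with hH
  have hMP : H ≤ MP μ := closure_le_MP hs hT
  have : MeasurableConstSMul H X := ⟨fun a => (hMP a.2).1.measurable⟩
  have : SMulInvariantMeasure H X μ := ⟨fun a s hs => (hMP a.2).1.measure_preimage hs.nullMeasurableSet⟩
  set T' : Fin d → H := fun i => ⟨T i, Subgroup.subset_closure ⟨i, rfl⟩⟩ with hT'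
  have hcx := ht H hnil hk d T' P hP
  set g : Fin m → ℤ → H := fun j => Pool.Nil.pseq T' (fun i => P i j) with hg
  -- coercion
  have hcoe : ∀ (f : Fin m → X → ℂ) (N : ℕ) (x : X), A T P f N x = EC (fun n x => ∏ j, f j (g j n • x)) N x := by
    intro f N x
    rw [A, EC]
    refine congrArg _ (sum_congr rfl fun n _ => prod_congr rfl fun j _ => ?_)
    have e : ((Pool.Nil.pseq T' (fun i => P i j) n : H) : Equiv.Perm X) =
        (List.ofFn fun i : Fin d => T i ^ (P i j).eval n).prod := by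
      rw [Pool.Nil.pseq, ← Subgroup.coe_subtype, map_list_prod, List.map_ofFn]
      rfl
    rw [← e]
    rfl
  simp only [hcoe]
  constructor
  · intro hf hf1 ε hε hε1 F hF0 hF
    choose f' hf'm hf'1 hff' using fun j => exists_version (hf j) zero_le_one (hf1 j)
    have hae := ae_EC_eq (μ := μ) g hff'
    have hae' : (fun x => (jumps (fun N => EC (fun n x => ∏ j, f j (g j n • x)) N x) ε F : ℝ≥0∞)) =ᵐ[μ]
        fun x => (jumps (fun N => EC (fun n x => ∏ j, f' j (g j n • x)) N x) ε F : ℝ≥0∞) := by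
      filter_upwards [hae] with x hx
      simp only [hx]
    have hU : UB μ (1 - δ) (16 * 4 ^ m) (fun n x => ∏ j, f' j (g j n • x)) := by
      have h1 := UB.prod (μ := μ) hcx g f' (fun _ _ => (1 : ℝ)) (fun j => by
        rw [List.mem_ofFn]
        exact ⟨j, rfl⟩) hf'm hf'1 (IsP.const U1.one _)
      exact h1.congr fun n x => by simp
    have hK : ∀ (n : ℤ) (x : X), ‖∏ j, f' j (g j n • x)‖ ≤ 1 := fun n x => by
      rw [norm_prod]
      exact prod_le_one (fun j _ => norm_nonneg _) fun j _ => hf'1 j _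
    refine ⟨?_, ?_⟩
    · refine AEMeasurable.congr ?_ hae'.symm
      have hm := jumps_meas (a := fun N x => EC (fun n x => ∏ j, f' j (g j n • x)) N x)
        (fun N => EC_meas hU.meas N) ε hF0
      exact (measurable_from_nat.comp hm).aemeasurable
    · rw [lintegral_congr_ae hae']
      refine (mean_jumps hδ0 hδ1 (by positivity) hU hK hε hε1 hF hF0).trans (ENNReal.ofReal_le_ofReal ?_)
      refine mul_le_mul_of_nonneg_left ?_ (by positivity)
      have hs1 : 1 ≤ scales F := by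
        rw [scales, Nat.succ_le_iff, card_pos]
        exact hF0.image _
      refine Real.rpow_le_rpow_of_exponent_le (by exact_mod_cast hs1) ?_
      have e : (1 / 4 : ℝ) ^ (t + 1) = δ / 4 := by
        rw [pow_succ, hδ]
        ring
      rw [e]
      linarith
  · intro hf
    choose f' hf'm hf'1 hff' using fun j => exists_version (hf j).1 ENNReal.toReal_nonneg (ae_bound_of_memLp (hf j))
    have hmain := fluct_action (μ := μ) g hcx f' _ hf'm hf'1
    filter_upwards [hmain, ae_EC_eq (μ := μ) g hff'] with x hx hx' ε hε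
    simp only [hx']
    filter_upwards [hx ε hε, Filter.eventually_ge_atTop 1] with N hN hN1
    obtain ⟨M, h1, h2, h3⟩ := exists_chain (fun N => EC (fun n x => ∏ j, f' j (g j n • x)) N x) ε
      (F := Icc 1 N) ⟨1, mem_Icc.2 ⟨le_rfl, hN1⟩⟩
    exact hN _ M (mem_Icc.1 (h1 0 (Nat.zero_le _))).1 h2 (mem_Icc.1 (h1 _ le_rfl)).2 h3

end Pool.JMP
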