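import Pool.Agent.JMP.Cx

set_option autoImplicit false
set_option linter.unusedSectionVars false

/-!
# JMP: the dual function trick for lacunary differences

`IsP L Φ`: `Φ n x` is the product of functions with values in `[-1,1]` at the points `g n • x`, `g` in the system `L`
(and `x` itself).  `Lac J B ψ`: lacunary family of kernels with mean zero.  `bd_of_cx`: if `Cx c L` then
`sum_(j<J) int (sum_n ψ_j(n) Φ(n,x))^2 dx ≤ 16 J^(1 - 4^(-c))`.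
-/

namespace Pool.JMP

open MeasureTheory Finset

variable {G X : Type*} [Group G] [MulAction G X] [MeasurableSpace X]

/-- measurable with values in `[-1,1]` -/
def U1 (f : X → ℝ) : Prop := Measurable f ∧ ∀ x, |f x| ≤ 1

/-- products along a system -/
def IsP : List (ℤ → G) → (ℤ → X → ℝ) → Prop
  | [], Φ => ∃ u : X → ℝ, U1 u ∧ ∀ n x, Φ n x = u x
  | g :: L, Φ => ∃ (f : X → ℝ) (Φ' : ℤ → X → ℝ), U1 f ∧ IsP L Φ' ∧ ∀ n x, Φ n x = f (g n • x) * Φ' n x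

lemma U1.one : U1 (fun _ : X => (1 : ℝ)) := ⟨measurable_const, fun _ => by simp⟩

lemma U1.mul {f g : X → ℝ} (hf : U1 f) (hg : U1 g) : U1 (fun x => f x * g x) :=
  ⟨hf.1.mul hg.1, fun x => by
    rw [abs_mul]
    exact mul_le_one₀ (hf.2 x) (abs_nonneg _) (hg.2 x)⟩

lemma IsP.congr : ∀ {L : List (ℤ → G)} {Φ Ψ : ℤ → X → ℝ}, IsP L Φ → (∀ n x, Ψ n x = Φ n x) → IsP L Ψ
  | [], _, _, ⟨u, hu, e⟩, h => ⟨u, hu, fun n x => by rw [h n x, e n x]⟩
  | _ :: _, _, _, ⟨f, Φ', hf, hΦ', e⟩, h => ⟨f, Φ', hf, hΦ', fun n x => by rw [h n x, e n x]⟩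

lemma IsP.const {u : X → ℝ} (hu : U1 u) : ∀ L : List (ℤ → G), IsP L (fun _ x => u x)
  | [] => ⟨u, hu, fun _ _ => rfl⟩
  | _ :: L => ⟨fun _ => 1, fun _ x => u x, U1.one, IsP.const hu L, fun _ _ => (one_mul _).symm⟩

lemma IsP.single {f : X → ℝ} (hf : U1 f) : ∀ {L : List (ℤ → G)} {g : ℤ → G}, g ∈ L → IsP L (fun n x => f (g n • x))
  | g' :: L, g, h => by
    rw [List.mem_cons] at h
    rcases h with rfl | h
    · exact ⟨f, fun _ _ => 1, hf, IsP.const U1.one L, fun _ _ => (mul_one _).symm⟩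
    · exact ⟨fun _ => 1, _, U1.one, IsP.single hf h, fun _ _ => (one_mul _).symm⟩

lemma IsP.single1 {f : X → ℝ} (hf : U1 f) {L : List (ℤ → G)} {g : ℤ → G} (h : g ∈ (1 : ℤ → G) :: L) :
    IsP L (fun n x => f (g n • x)) := by
  rw [List.mem_cons] at h
  rcases h with rfl | h
  · exact (IsP.const hf L).congr fun n x => by simp
  · exact IsP.single hf h

lemma IsP.mul : ∀ {L : List (ℤ → G)} {Φ Ψ : ℤ → X → ℝ}, IsP L Φ → IsP L Ψ → IsP L (fun n x => Φ n x * Ψ n x)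
  | [], _, _, ⟨u, hu, e⟩, ⟨v, hv, e'⟩ => ⟨fun x => u x * v x, hu.mul hv, fun n x => by
      simp only [e n x, e' n x]⟩
  | _ :: _, _, _, ⟨f, Φ', hf, hΦ', e⟩, ⟨g, Ψ', hg, hΨ', e'⟩ =>
    ⟨fun x => f x * g x, fun n x => Φ' n x * Ψ' n x, hf.mul hg, IsP.mul hΦ' hΨ', fun n x => by
      simp only [e n x, e' n x]; ring⟩

variable [MeasurableConstSMul G X]

lemma U1.smul {f : X → ℝ} (hf : U1 f) (g : G) : U1 (fun x => f (g • x)) :=
  ⟨hf.1.comp (measurable_const_smul g), fun _ => hf.2 _⟩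

lemma IsP.emb : ∀ {L L' : List (ℤ → G)} {Φ : ℤ → X → ℝ}, Emb L L' → IsP L Φ → IsP L' Φ
  | [], L', _, _, ⟨_, hu, e⟩ => (IsP.const hu L').congr e
  | g :: L, L', Φ, h, ⟨f, Φ', hf, hΦ', e⟩ => by
    obtain ⟨g', hg', a, ha⟩ := h g (by simp)
    have h1 : IsP L' (fun n x => f (a • g' n • x)) := IsP.single1 (hf.smul a) hg'
    have h2 : IsP L' Φ' := IsP.emb (fun g hg => h g (by simp [hg])) hΦ'
    refine (h1.mul h2).congr fun n x => ?_
    rw [e n x, ha n, mul_smul]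

lemma IsP.mono {L L' : List (ℤ → G)} {Φ : ℤ → X → ℝ} (h : IsP L Φ) (hs : ∀ g ∈ L, g ∈ (1 : ℤ → G) :: L') :
    IsP L' Φ := IsP.emb (emb_of_sub hs) h

lemma IsP.cpy (p : ℤ → G) (t : ℤ) : ∀ {M : List (ℤ → G)} {Φ : ℤ → X → ℝ}, IsP M Φ →
    IsP (((1 : ℤ → G) :: M).map (cpy p t)) (fun n x => Φ (n + t) (((p (n + t))⁻¹ * p n) • x))
  | [], Φ, ⟨u, hu, e⟩ => by
    refine (IsP.single hu (g := Pool.JMP.cpy p t 1) (by simp)).congr fun n x => ?_
    rw [e]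
    simp [Pool.JMP.cpy]
  | g :: M, Φ, ⟨f, Φ', hf, hΦ', e⟩ => by
    have h1 : IsP (((1 : ℤ → G) :: g :: M).map (Pool.JMP.cpy p t)) (fun n x => f (Pool.JMP.cpy p t g n • x)) :=
      IsP.single hf (by simp)
    have h2 := IsP.mono (L' := ((1 : ℤ → G) :: g :: M).map (Pool.JMP.cpy p t)) (IsP.cpy p t hΦ') (fun g' hg' => by
      rw [List.mem_map] at hg'
      obtain ⟨q, hq, rfl⟩ := hg'
      rw [List.mem_cons] at hq
      rcases hq with rfl | hq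
      · simp
      · exact List.mem_cons_of_mem _ (List.mem_map.2 ⟨q, by simp [hq], rfl⟩))
    refine (h1.mul h2).congr fun n x => ?_
    rw [e]
    simp only [Pool.JMP.cpy, mul_assoc, mul_smul]

lemma IsP.bd : ∀ {L : List (ℤ → G)} {Φ : ℤ → X → ℝ}, IsP L Φ → ∀ n, U1 (Φ n)
  | [], _, ⟨_, hu, e⟩, n => by
    rw [show _ = _ from funext (e n)]
    exact hu
  | g :: _, _, ⟨_, _, hf, hΦ', e⟩, n => by
    rw [show _ = _ from funext (e n)]
    exact (hf.smul (g n)).mul (IsP.bd hΦ' n)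

/-- the interval `[-B, B]` -/
noncomputable def II (B : ℕ) : Finset ℤ := Icc (-(B : ℤ)) B

/-- the average with weights `ψ` -/
noncomputable def AV (B : ℕ) (ψ : ℤ → ℝ) (Φ : ℤ → X → ℝ) (x : X) : ℝ := ∑ n ∈ II B, ψ n * Φ n x

/-- lacunary family of kernels -/
structure Lac (J B : ℕ) (ψ : ℕ → ℤ → ℝ) : Prop where
  supp : ∀ j n, (B : ℤ) < |n| → ψ j n = 0
  l1 : ∀ j, ∑ n ∈ II B, |ψ j n| ≤ 2
  zero : ∀ j, ∑ n ∈ II B, ψ j n = 0
  sm : ∃ κ : ℕ → ℕ → ℝ, (∀ i j, 0 ≤ κ i j) ∧ (∀ i j, i < j → j < J → ∀ n, ψ i n ≠ 0 →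
    ∑ h ∈ II (2 * B), |ψ j (n + h) - ψ j h| ≤ κ i j) ∧ ∀ j < J, ∑ i ∈ range j, κ i j ≤ 4

lemma Lac.mono {J J' B : ℕ} {ψ : ℕ → ℤ → ℝ} (h : Lac J B ψ) (hJ : J' ≤ J) : Lac J' B ψ := by
  obtain ⟨κ, h0, h1, h2⟩ := h.sm
  exact ⟨h.supp, h.l1, h.zero, κ, h0, fun i j hij hj => h1 i j hij (hj.trans_le hJ),
    fun j hj => h2 j (hj.trans_le hJ)⟩

lemma mem_II {B : ℕ} {n : ℤ} : n ∈ II B ↔ |n| ≤ B := by
  rw [II, mem_Icc, abs_le]

lemma sum_shift {B : ℕ} {φ : ℤ → ℝ} (hφ : ∀ n, (B : ℤ) < |n| → φ n = 0) (R : ℤ → ℝ) {n : ℤ} (hn : |n| ≤ B) :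
    ∑ k ∈ II B, φ k * R k = ∑ h ∈ II (2 * B), φ (n + h) * R (n + h) := by
  have h1 : ∑ h ∈ II (2 * B), φ (n + h) * R (n + h) = ∑ k ∈ (II (2 * B)).map (addLeftEmbedding n), φ k * R k := by
    rw [sum_map]
    rfl
  rw [h1]
  refine sum_subset (fun k hk => ?_) (fun k _ hk => ?_)
  · rw [mem_II] at hk
    rw [mem_map]
    refine ⟨k - n, ?_, by simp⟩
    rw [mem_II]
    have := abs_sub k n
    push_cast
    linarith
  · rw [mem_II, not_le] at hk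
    rw [hφ k hk, zero_mul]

lemma sum_abs_two {B : ℕ} {φ : ℤ → ℝ} (hφ : ∀ n, (B : ℤ) < |n| → φ n = 0) :
    ∑ h ∈ II (2 * B), |φ h| = ∑ h ∈ II B, |φ h| := by
  symm
  refine sum_subset (fun k hk => ?_) (fun k _ hk => ?_)
  · rw [mem_II] at hk ⊢
    push_cast
    have : (0 : ℤ) ≤ B := by positivity
    linarith
  · rw [mem_II, not_le] at hk
    rw [hφ k hk, abs_zero]

variable {μ : Measure X} [IsProbabilityMeasure μ]

lemma intg {f : X → ℝ} (hm : Measurable f) {C : ℝ} (hb : ∀ x, |f x| ≤ C) : Integrable f μ :=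
  Integrable.of_bound hm.aestronglyMeasurable C (Filter.Eventually.of_forall fun x => by
    rw [Real.norm_eq_abs]
    exact hb x)

lemma sq_int_le {f : X → ℝ} (hm : Measurable f) {C : ℝ} (hb : ∀ x, |f x| ≤ C) :
    (∫ x, f x ∂μ) ^ 2 ≤ ∫ x, f x ^ 2 ∂μ := by
  have hf : Integrable f μ := intg hm hb
  have hf2 : Integrable (fun x => f x ^ 2) μ := intg (C := C ^ 2) (hm.pow_const 2) (fun x => by
    rw [abs_pow]
    exact pow_le_pow_left₀ (abs_nonneg _) (hb x) 2)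
  set m := ∫ x, f x ∂μ with hmdef
  have h1 : 0 ≤ ∫ x, (f x - m) ^ 2 ∂μ := integral_nonneg fun x => sq_nonneg _
  have e : ∫ x, (f x - m) ^ 2 ∂μ = (∫ x, f x ^ 2 ∂μ) - m ^ 2 := by
    have e1 : (fun x => (f x - m) ^ 2) = fun x => f x ^ 2 - ((2 * m) * f x - m ^ 2) := by
      funext x
      ring
    have i1 : Integrable (fun x => (2 * m) * f x) μ := hf.const_mul _
    have i2 : Integrable (fun _ : X => m ^ 2) μ := integrable_const _
    have i3 : Integrable (fun x => (2 * m) * f x - m ^ 2) μ := i1.sub i2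
    rw [e1, integral_sub hf2 i3, integral_sub i1 i2, integral_const_mul, integral_const]
    simp only [probReal_univ, smul_eq_mul, one_mul]
    rw [← hmdef]
    ring
  linarith

lemma AV_meas {B : ℕ} {ψ : ℤ → ℝ} {Φ : ℤ → X → ℝ} (h : ∀ n, Measurable (Φ n)) : Measurable (AV B ψ Φ) :=
  Finset.measurable_sum _ fun n _ => (h n).const_mul _

lemma AV_le {B : ℕ} {ψ : ℤ → ℝ} {Φ : ℤ → X → ℝ} (hψ : ∑ n ∈ II B, |ψ n| ≤ 2) (h : ∀ n x, |Φ n x| ≤ 1) (x : X) :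
    |AV B ψ Φ x| ≤ 2 := by
  refine (abs_sum_le_sum_abs _ _).trans (le_trans (sum_le_sum fun n _ => ?_) hψ)
  rw [abs_mul]
  exact mul_le_of_le_one_right (abs_nonneg _) (h n x)

lemma sq_sum_range (a : ℕ → ℝ) (J : ℕ) :
    (∑ j ∈ range J, a j) ^ 2 = ∑ j ∈ range J, (a j ^ 2 + 2 * ∑ i ∈ range j, a i * a j) := by
  induction J with
  | zero => simp
  | succ J ih =>
    rw [sum_range_succ, sum_range_succ, ← ih, ← sum_mul]
    ring

/-- the dual function -/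
noncomputable def dual (B : ℕ) (ψ : ℤ → ℝ) (p : ℤ → G) (D : X → ℝ) (Φ' : ℤ → X → ℝ) (x : X) : ℝ :=
  ∑ n ∈ II B, ψ n * (D ((p n)⁻¹ • x) * Φ' n ((p n)⁻¹ • x))

section dual

variable {B : ℕ} {ψ : ℤ → ℝ} {p : ℤ → G} {D : X → ℝ} {Φ' : ℤ → X → ℝ}

lemma dual_meas (hD : Measurable D) (hΦ : ∀ n, U1 (Φ' n)) : Measurable (dual B ψ p D Φ') :=
  Finset.measurable_sum _ fun n _ => ((hD.comp (measurable_const_smul _)).mul
    ((hΦ n).1.comp (measurable_const_smul _))).const_mul _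

lemma dual_le (hψ : ∑ n ∈ II B, |ψ n| ≤ 2) (hD : ∀ x, |D x| ≤ 2) (hΦ : ∀ n, U1 (Φ' n)) (x : X) :
    |dual B ψ p D Φ' x| ≤ 4 := by
  have h1 : |dual B ψ p D Φ' x| ≤ ∑ n ∈ II B, |ψ n| * 2 := by
    refine (abs_sum_le_sum_abs _ _).trans (sum_le_sum fun n _ => ?_)
    rw [abs_mul, abs_mul]
    refine mul_le_mul_of_nonneg_left ?_ (abs_nonneg _)
    have h2 := hD ((p n)⁻¹ • x)
    have h3 := (hΦ n).2 ((p n)⁻¹ • x)
    have h4 := abs_nonneg (Φ' n ((p n)⁻¹ • x))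
    nlinarith [abs_nonneg (D ((p n)⁻¹ • x))]
  rw [← sum_mul] at h1
  linarith

variable [SMulInvariantMeasure G X μ]

/-- duality -/
lemma int_mul_AV (hD : Measurable D) {C : ℝ} (hDb : ∀ x, |D x| ≤ C) {f : X → ℝ} (hf : U1 f) (hΦ : ∀ n, U1 (Φ' n)) :
    ∫ x, D x * AV B ψ (fun n x => f (p n • x) * Φ' n x) x ∂μ = ∫ x, f x * dual B ψ p D Φ' x ∂μ := by
  have e1 : ∀ x, D x * AV B ψ (fun n x => f (p n • x) * Φ' n x) x =
      ∑ n ∈ II B, ψ n * (D x * (f (p n • x) * Φ' n x)) := by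
    intro x
    rw [AV, mul_sum]
    exact sum_congr rfl fun n _ => by ring
  have e2 : ∀ x, f x * dual B ψ p D Φ' x =
      ∑ n ∈ II B, ψ n * (D ((p n)⁻¹ • x) * (f x * Φ' n ((p n)⁻¹ • x))) := by
    intro x
    rw [dual, mul_sum]
    exact sum_congr rfl fun n _ => by ring
  have hC : 0 ≤ C := by
    obtain ⟨x⟩ : Nonempty X := nonempty_of_isProbabilityMeasure μ
    exact (abs_nonneg _).trans (hDb x)
  have hb : ∀ n x, |ψ n * (D x * (f (p n • x) * Φ' n x))| ≤ |ψ n| * C := by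
    intro n x
    rw [abs_mul, abs_mul, abs_mul]
    refine mul_le_mul_of_nonneg_left ?_ (abs_nonneg _)
    have h1 := mul_le_one₀ (hf.2 (p n • x)) (abs_nonneg _) ((hΦ n).2 x)
    calc |D x| * (|f (p n • x)| * |Φ' n x|) ≤ C * 1 :=
          mul_le_mul (hDb x) h1 (mul_nonneg (abs_nonneg _) (abs_nonneg _)) hC
      _ = C := mul_one C
  have hm : ∀ n, Measurable fun x => ψ n * (D x * (f (p n • x) * Φ' n x)) := fun n =>
    (hD.mul (((hf.smul (p n)).1).mul (hΦ n).1)).const_mul _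
  have hm' : ∀ n, Measurable fun x => ψ n * (D ((p n)⁻¹ • x) * (f x * Φ' n ((p n)⁻¹ • x))) := fun n =>
    ((hD.comp (measurable_const_smul _)).mul (hf.1.mul ((hΦ n).1.comp (measurable_const_smul _)))).const_mul _
  have e3 : ∀ n x, ψ n * (D ((p n)⁻¹ • x) * (f x * Φ' n ((p n)⁻¹ • x))) =
      (fun y => ψ n * (D y * (f (p n • y) * Φ' n y))) ((p n)⁻¹ • x) := by
    intro n x
    simp only [smul_inv_smul]
  simp only [e1, e2]
  rw [integral_finsetSum _ fun n _ => intg (hm n) (hb n), integral_finsetSum _ fun n _ =>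
    intg (hm' n) (C := |ψ n| * C) (fun x => by rw [e3 n x]; exact hb n _)]
  refine sum_congr rfl fun n _ => ?_
  simp only [e3]
  exact (integral_smul_eq_self (μ := μ) (fun y => ψ n * (D y * (f (p n • y) * Φ' n y)))).symm

end dual

end Pool.JMP
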