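import Pool.Agent.JMP.An

set_option autoImplicit false
set_option linter.unusedSectionVars false

/-!
# JMP: the step of the induction on the complexity
-/

namespace Pool.JMP

open MeasureTheory Finset

variable {G X : Type*} [Group G] [MulAction G X] [MeasurableSpace X]

/-- the reduced product -/
def Psi (p : ℤ → G) (h : ℤ) (E : X → ℝ) (Φ' : ℤ → X → ℝ) : ℤ → X → ℝ := fun n y =>
  Φ' n y * (E (((p (n + h))⁻¹ * p n) • y) * Φ' (n + h) (((p (n + h))⁻¹ * p n) • y))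

variable [MeasurableConstSMul G X]

lemma Psi_isP {p : ℤ → G} {h : ℤ} {E : X → ℝ} (hE : U1 E) {M : List (ℤ → G)} {Φ' : ℤ → X → ℝ} (hΦ : IsP M Φ') :
    IsP (star p h M) (Psi p h E Φ') := by
  have h1 : IsP (star p h M) Φ' := hΦ.mono fun g hg => by simp [star, hg]
  have h2 : IsP (star p h M) (fun n y => E (cpy p h 1 n • y)) := IsP.single hE (by simp [star])
  have h3 : IsP (star p h M) (fun n y => Φ' (n + h) (((p (n + h))⁻¹ * p n) • y)) :=
    (IsP.cpy p h hΦ).mono fun g hg => List.mem_cons_of_mem _ (List.mem_append_right _ hg)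
  refine (h1.mul (h2.mul h3)).congr fun n y => ?_
  simp [Psi, cpy]

variable {μ : Measure X} [IsProbabilityMeasure μ]

lemma pt {B : ℕ} {ψi ψj : ℤ → ℝ} {p : ℤ → G} {Di Dj : X → ℝ} {Φ' : ℤ → X → ℝ} {κ : ℝ}
    (hi : ∑ n ∈ II B, |ψi n| ≤ 2) (hsj : ∀ n, (B : ℤ) < |n| → ψj n = 0)
    (hκ : ∀ n, ψi n ≠ 0 → ∑ h ∈ II (2 * B), |ψj (n + h) - ψj h| ≤ κ) (hκ0 : 0 ≤ κ)
    (hDi : ∀ x, |Di x| ≤ 2) (hDj : ∀ x, |Dj x| ≤ 2) (hΦ : ∀ n, U1 (Φ' n)) (x : X) :
    Di x * ∑ n ∈ II B, ψi n * (dual B ψj p Dj Φ' (p n • x) * Φ' n x) ≤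
      8 * κ + ∑ h ∈ II (2 * B), |ψj h| * (4 * |AV B ψi (Psi p h (fun x => Dj x / 2) Φ') x|) := by
  set R : ℤ → ℤ → ℝ := fun n k => Dj (((p k)⁻¹ * p n) • x) * Φ' k (((p k)⁻¹ * p n) • x) with hR
  have hRb : ∀ n k, |R n k| ≤ 2 := by
    intro n k
    rw [hR]
    simp only
    rw [abs_mul]
    have h1 := hDj (((p k)⁻¹ * p n) • x)
    have h2 := (hΦ k).2 (((p k)⁻¹ * p n) • x)
    have h3 := abs_nonneg (Φ' k (((p k)⁻¹ * p n) • x))
    nlinarith [abs_nonneg (Dj (((p k)⁻¹ * p n) • x))]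
  have hd : ∀ n ∈ II B, dual B ψj p Dj Φ' (p n • x) = ∑ h ∈ II (2 * B), ψj (n + h) * R n (n + h) := by
    intro n hn
    rw [← sum_shift hsj (R n) (mem_II.1 hn), dual]
    refine sum_congr rfl fun k _ => ?_
    simp only [hR, mul_smul]
  have herr : ∀ n ∈ II B, |ψi n * ((dual B ψj p Dj Φ' (p n • x) - ∑ h ∈ II (2 * B), ψj h * R n (n + h)) * Φ' n x)|
      ≤ |ψi n| * (2 * κ) := by
    intro n hn
    by_cases h0 : ψi n = 0
    · rw [h0]
      simp
    · rw [abs_mul, abs_mul]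
      refine mul_le_mul_of_nonneg_left ?_ (abs_nonneg _)
      have h1 : |dual B ψj p Dj Φ' (p n • x) - ∑ h ∈ II (2 * B), ψj h * R n (n + h)| ≤ 2 * κ := by
        rw [hd n hn, ← sum_sub_distrib]
        refine (abs_sum_le_sum_abs _ _).trans ?_
        calc ∑ h ∈ II (2 * B), |ψj (n + h) * R n (n + h) - ψj h * R n (n + h)|
            ≤ ∑ h ∈ II (2 * B), |ψj (n + h) - ψj h| * 2 := by
              refine sum_le_sum fun h _ => ?_
              rw [← sub_mul, abs_mul]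
              exact mul_le_mul_of_nonneg_left (hRb _ _) (abs_nonneg _)
          _ ≤ 2 * κ := by
              rw [← sum_mul]
              have := hκ n h0
              linarith
      calc _ ≤ 2 * κ * 1 := mul_le_mul h1 ((hΦ n).2 x) (abs_nonneg _) (by positivity)
        _ = 2 * κ := mul_one _
  have hmain : ∑ n ∈ II B, ψi n * ((∑ h ∈ II (2 * B), ψj h * R n (n + h)) * Φ' n x) =
      ∑ h ∈ II (2 * B), ψj h * (2 * AV B ψi (Psi p h (fun x => Dj x / 2) Φ') x) := by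
    have e1 : ∀ n, ψi n * ((∑ h ∈ II (2 * B), ψj h * R n (n + h)) * Φ' n x) =
        ∑ h ∈ II (2 * B), ψj h * (2 * (ψi n * Psi p h (fun x => Dj x / 2) Φ' n x)) := by
      intro n
      rw [sum_mul, mul_sum]
      refine sum_congr rfl fun h _ => ?_
      simp only [hR, Psi]
      ring
    rw [sum_congr rfl fun n _ => e1 n, sum_comm]
    refine sum_congr rfl fun h _ => ?_
    rw [AV, ← mul_sum, ← mul_sum]
  have h2 : |Di x * ∑ n ∈ II B, ψi n * (dual B ψj p Dj Φ' (p n • x) * Φ' n x) -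
      Di x * ∑ h ∈ II (2 * B), ψj h * (2 * AV B ψi (Psi p h (fun x => Dj x / 2) Φ') x)| ≤ 8 * κ := by
    rw [← hmain, ← mul_sub, ← sum_sub_distrib, abs_mul]
    have e2 : ∑ n ∈ II B, (ψi n * (dual B ψj p Dj Φ' (p n • x) * Φ' n x) -
        ψi n * ((∑ h ∈ II (2 * B), ψj h * R n (n + h)) * Φ' n x)) =
        ∑ n ∈ II B, ψi n * ((dual B ψj p Dj Φ' (p n • x) - ∑ h ∈ II (2 * B), ψj h * R n (n + h)) * Φ' n x) :=
      sum_congr rfl fun n _ => by ring
    rw [e2]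
    have h3 : |∑ n ∈ II B, ψi n * ((dual B ψj p Dj Φ' (p n • x) - ∑ h ∈ II (2 * B), ψj h * R n (n + h)) * Φ' n x)|
        ≤ 2 * (2 * κ) := by
      refine (abs_sum_le_sum_abs _ _).trans ((sum_le_sum herr).trans ?_)
      rw [← sum_mul]
      exact mul_le_mul_of_nonneg_right hi (by positivity)
    calc _ ≤ 2 * (2 * (2 * κ)) := mul_le_mul (hDi x) h3 (abs_nonneg _) (by norm_num)
      _ = 8 * κ := by ring
  have h4 : Di x * ∑ h ∈ II (2 * B), ψj h * (2 * AV B ψi (Psi p h (fun x => Dj x / 2) Φ') x) ≤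
      ∑ h ∈ II (2 * B), |ψj h| * (4 * |AV B ψi (Psi p h (fun x => Dj x / 2) Φ') x|) := by
    rw [mul_sum]
    refine sum_le_sum fun h _ => (le_abs_self _).trans ?_
    rw [abs_mul, abs_mul, abs_mul]
    have h5 := hDi x
    have h6 : 0 ≤ |ψj h| * (|(2 : ℝ)| * |AV B ψi (Psi p h (fun x => Dj x / 2) Φ') x|) := by positivity
    calc |Di x| * (|ψj h| * (|(2 : ℝ)| * |AV B ψi (Psi p h (fun x => Dj x / 2) Φ') x|))
        ≤ 2 * (|ψj h| * (|(2 : ℝ)| * |AV B ψi (Psi p h (fun x => Dj x / 2) Φ') x|)) :=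
          mul_le_mul_of_nonneg_right h5 h6
      _ = |ψj h| * (4 * |AV B ψi (Psi p h (fun x => Dj x / 2) Φ') x|) := by
          rw [abs_of_pos (by norm_num : (0 : ℝ) < 2)]
          ring
  have h7 := (abs_le.1 h2).2
  linarith

lemma abs_int_le_sqrt {f : X → ℝ} (hm : Measurable f) {C : ℝ} (hb : ∀ x, |f x| ≤ C) :
    ∫ x, |f x| ∂μ ≤ √(∫ x, f x ^ 2 ∂μ) := by
  refine Real.le_sqrt_of_sq_le ?_
  have h := sq_int_le (μ := μ) (f := fun x => |f x|) hm.abs (C := C) (fun x => by rw [abs_abs]; exact hb x)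
  simpa only [sq_abs] using h

lemma sum_sqrt_le (a : ℕ → ℝ) (ha : ∀ i, 0 ≤ a i) (j : ℕ) :
    ∑ i ∈ range j, √(a i) ≤ √(j * ∑ i ∈ range j, a i) := by
  refine Real.le_sqrt_of_sq_le ?_
  have h := sum_mul_sq_le_sq_mul_sq (range j) (fun _ => (1 : ℝ)) (fun i => √(a i))
  simp only [one_mul, one_pow, sum_const, card_range, nsmul_eq_mul, mul_one] at h
  refine h.trans (le_of_eq ?_)
  congr 1
  exact sum_congr rfl fun i _ => Real.sq_sqrt (ha i)

variable [SMulInvariantMeasure G X μ]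

lemma offdiag {B : ℕ} {ψi ψj : ℤ → ℝ} {p : ℤ → G} {Di Dj : X → ℝ} {M : List (ℤ → G)} {Φ' : ℤ → X → ℝ} {κ : ℝ}
    (hi : ∑ n ∈ II B, |ψi n| ≤ 2) (hj : ∑ n ∈ II B, |ψj n| ≤ 2) (hsj : ∀ n, (B : ℤ) < |n| → ψj n = 0)
    (hκ : ∀ n, ψi n ≠ 0 → ∑ h ∈ II (2 * B), |ψj (n + h) - ψj h| ≤ κ) (hκ0 : 0 ≤ κ)
    (hDi : ∀ x, |Di x| ≤ 2) (hDim : Measurable Di) (hDj : ∀ x, |Dj x| ≤ 2) (hDjm : Measurable Dj) (hΦ : IsP M Φ') :
    ∫ x, dual B ψi p Di Φ' x * dual B ψj p Dj Φ' x ∂μ ≤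
      8 * κ + ∑ h ∈ II (2 * B), |ψj h| * (4 * ∫ x, |AV B ψi (Psi p h (fun x => Dj x / 2) Φ') x| ∂μ) := by
  have hb := hΦ.bd
  have hmj : Measurable (dual B ψj p Dj Φ') := dual_meas hDjm hb
  have hbj : ∀ x, |dual B ψj p Dj Φ' x| ≤ 4 := dual_le hj hDj hb
  have hU : U1 (fun x => dual B ψj p Dj Φ' x / 4) := ⟨hmj.div_const 4, fun x => by
    rw [abs_div, abs_of_pos (by norm_num : (0 : ℝ) < 4)]
    have := hbj x
    linarith⟩
  have hE : U1 (fun x => Dj x / 2) := ⟨hDjm.div_const 2, fun x => by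
    rw [abs_div, abs_of_pos (by norm_num : (0 : ℝ) < 2)]
    have := hDj x
    linarith⟩
  have h1 := int_mul_AV (μ := μ) (B := B) (ψ := ψi) (p := p) hDim hDi hU hb
  have e1 : ∫ x, dual B ψi p Di Φ' x * dual B ψj p Dj Φ' x ∂μ =
      4 * ∫ x, (dual B ψj p Dj Φ' x / 4) * dual B ψi p Di Φ' x ∂μ := by
    rw [← integral_const_mul]
    exact integral_congr_ae (Filter.Eventually.of_forall fun x => by simp only; ring)
  have e2 : ∫ x, dual B ψi p Di Φ' x * dual B ψj p Dj Φ' x ∂μ =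
      ∫ x, Di x * ∑ n ∈ II B, ψi n * (dual B ψj p Dj Φ' (p n • x) * Φ' n x) ∂μ := by
    rw [e1, ← h1, ← integral_const_mul]
    refine integral_congr_ae (Filter.Eventually.of_forall fun x => ?_)
    simp only [AV]
    rw [← mul_assoc, mul_comm (4 : ℝ), mul_assoc, mul_sum]
    congr 1
    exact sum_congr rfl fun n _ => by ring
  rw [e2]
  have hA : ∀ h, Integrable (fun x => |AV B ψi (Psi p h (fun x => Dj x / 2) Φ') x|) μ := fun h =>
    intg (AV_meas fun n => ((Psi_isP hE hΦ).bd n).1).abs (C := 2) (fun x => by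
      rw [abs_abs]
      exact AV_le hi (fun n x => ((Psi_isP hE hΦ).bd n).2 x) x)
  have hR : Integrable (fun x => 8 * κ + ∑ h ∈ II (2 * B),
      |ψj h| * (4 * |AV B ψi (Psi p h (fun x => Dj x / 2) Φ') x|)) μ :=
    (integrable_const _).add (integrable_finsetSum _ fun h _ => ((hA h).const_mul 4).const_mul _)
  have hL : Integrable (fun x => Di x * ∑ n ∈ II B, ψi n * (dual B ψj p Dj Φ' (p n • x) * Φ' n x)) μ := by
    refine intg (C := 16) (hDim.mul (Finset.measurable_sum _ fun n _ =>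
      ((hmj.comp (measurable_const_smul _)).mul (hb n).1).const_mul _)) (fun x => ?_)
    rw [abs_mul]
    have h3 : |∑ n ∈ II B, ψi n * (dual B ψj p Dj Φ' (p n • x) * Φ' n x)| ≤ 8 := by
      refine (abs_sum_le_sum_abs _ _).trans ?_
      calc ∑ n ∈ II B, |ψi n * (dual B ψj p Dj Φ' (p n • x) * Φ' n x)| ≤ ∑ n ∈ II B, |ψi n| * 4 := by
            refine sum_le_sum fun n _ => ?_
            rw [abs_mul, abs_mul]
            refine mul_le_mul_of_nonneg_left ?_ (abs_nonneg _)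
            have h4 := hbj (p n • x)
            have h5 := (hb n).2 x
            nlinarith [abs_nonneg (Φ' n x), abs_nonneg (dual B ψj p Dj Φ' (p n • x))]
        _ ≤ 8 := by
            rw [← sum_mul]
            linarith
    have := hDi x
    nlinarith [abs_nonneg (Di x), abs_nonneg (∑ n ∈ II B, ψi n * (dual B ψj p Dj Φ' (p n • x) * Φ' n x))]
  refine (integral_mono hL hR fun x => pt hi hsj hκ hκ0 hDi hDj hb x).trans (le_of_eq ?_)
  rw [integral_add (integrable_const _) (integrable_finsetSum _ fun h _ => ((hA h).const_mul 4).const_mul _),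
    integral_const, integral_finsetSum _ fun h _ => ((hA h).const_mul 4).const_mul _]
  simp only [probReal_univ, smul_eq_mul, one_mul, integral_const_mul]

/-- the step: the bound for all reduced systems gives the bound for the system -/
lemma step_bd {p : ℤ → G} {M : List (ℤ → G)} {e : ℝ} (he1 : e ≤ 1)
    (IH : ∀ (h : ℤ) (J B : ℕ) (ψ : ℕ → ℤ → ℝ), Lac J B ψ → ∀ Φ : ℤ → X → ℝ, IsP (star p h M) Φ →
      ∑ j ∈ range J, ∫ x, AV B (ψ j) Φ x ^ 2 ∂μ ≤ 16 * (J : ℝ) ^ (1 - e))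
    {J B : ℕ} {ψ : ℕ → ℤ → ℝ} (hψ : Lac J B ψ) {Φ : ℤ → X → ℝ} (hΦ : IsP (p :: M) Φ) :
    ∑ j ∈ range J, ∫ x, AV B (ψ j) Φ x ^ 2 ∂μ ≤ 16 * (J : ℝ) ^ (1 - e / 4) := by
  obtain ⟨f, Φ', hf, hΦ', hΦe⟩ := hΦ
  rcases Nat.eq_zero_or_pos J with rfl | hJ
  · rw [range_zero, sum_empty]
    positivity
  have hJ1 : (1 : ℝ) ≤ J := by exact_mod_cast hJ
  have hb := hΦ'.bd
  have hΦb : ∀ n, U1 (fun x => f (p n • x) * Φ' n x) := fun n => (hf.smul (p n)).mul (hb n)
  set D : ℕ → X → ℝ := fun j => AV B (ψ j) (fun n x => f (p n • x) * Φ' n x) with hD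
  have hDe : ∀ j x, AV B (ψ j) Φ x = D j x := by
    intro j x
    simp only [hD, AV, hΦe]
  have hDm : ∀ j, Measurable (D j) := fun j => AV_meas fun n => (hΦb n).1
  have hDb : ∀ j x, |D j x| ≤ 2 := fun j x => AV_le (hψ.l1 j) (fun n x => (hΦb n).2 x) x
  set Q : ℕ → X → ℝ := fun j => dual B (ψ j) p (D j) Φ' with hQ
  have hQm : ∀ j, Measurable (Q j) := fun j => dual_meas (hDm j) hb
  have hQb : ∀ j x, |Q j x| ≤ 4 := fun j x => dual_le (hψ.l1 j) (hDb j) hb x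
  simp only [hDe]
  obtain ⟨κ, hκ0, hκ1, hκ2⟩ := hψ.sm
  -- the sum as a scalar product
  have h1 : ∑ j ∈ range J, ∫ x, D j x ^ 2 ∂μ = ∫ x, f x * ∑ j ∈ range J, Q j x ∂μ := by
    have e1 : ∀ j, ∫ x, D j x ^ 2 ∂μ = ∫ x, f x * Q j x ∂μ := by
      intro j
      rw [← int_mul_AV (μ := μ) (B := B) (ψ := ψ j) (p := p) (hDm j) (hDb j) hf hb]
      exact integral_congr_ae (Filter.Eventually.of_forall fun x => by
        show D j x ^ 2 = D j x * D j x
        ring)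
    rw [sum_congr rfl fun j _ => e1 j, ← integral_finsetSum]
    · exact integral_congr_ae (Filter.Eventually.of_forall fun x => by
        show ∑ j ∈ range J, f x * Q j x = f x * ∑ j ∈ range J, Q j x
        rw [mul_sum])
    · intro j _
      refine intg (C := 4) (hf.1.mul (hQm j)) (fun x => ?_)
      rw [abs_mul]
      calc |f x| * |Q j x| ≤ 1 * 4 := mul_le_mul (hf.2 x) (hQb j x) (abs_nonneg _) (by norm_num)
        _ = 4 := by norm_num
  set S := ∑ j ∈ range J, ∫ x, D j x ^ 2 ∂μ with hS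
  have hS0 : 0 ≤ S := sum_nonneg fun j _ => integral_nonneg fun x => sq_nonneg _
  have hQQ : ∀ i j, Integrable (fun x => Q i x * Q j x) μ := fun i j =>
    intg (C := 16) ((hQm i).mul (hQm j)) (fun x => by
      rw [abs_mul]
      calc |Q i x| * |Q j x| ≤ 4 * 4 := mul_le_mul (hQb i x) (hQb j x) (abs_nonneg _) (by norm_num)
        _ = 16 := by norm_num)
  have hQ2 : ∀ j, Integrable (fun x => Q j x ^ 2) μ := fun j => by
    have := hQQ j j
    simpa only [← sq] using this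
  -- Cauchy-Schwarz
  have h2 : S ^ 2 ≤ ∑ j ∈ range J, (∫ x, Q j x ^ 2 ∂μ + 2 * ∑ i ∈ range j, ∫ x, Q i x * Q j x ∂μ) := by
    have hsb : ∀ x, |∑ j ∈ range J, Q j x| ≤ J * 4 := fun x => by
      refine (abs_sum_le_sum_abs _ _).trans ((sum_le_sum fun j _ => hQb j x).trans (le_of_eq ?_))
      rw [sum_const, card_range, nsmul_eq_mul]
    have hsm : Measurable fun x => ∑ j ∈ range J, Q j x := Finset.measurable_sum _ fun j _ => hQm j
    have h3 : S ^ 2 ≤ ∫ x, (f x * ∑ j ∈ range J, Q j x) ^ 2 ∂μ := by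
      rw [h1]
      refine sq_int_le (C := J * 4) (hf.1.mul hsm) (fun x => ?_)
      rw [abs_mul]
      calc _ ≤ 1 * (J * 4 : ℝ) := mul_le_mul (hf.2 x) (hsb x) (abs_nonneg _) (by norm_num)
        _ = J * 4 := one_mul _
    have h4 : ∫ x, (f x * ∑ j ∈ range J, Q j x) ^ 2 ∂μ ≤ ∫ x, (∑ j ∈ range J, Q j x) ^ 2 ∂μ := by
      have hi2 : Integrable (fun x => (∑ j ∈ range J, Q j x) ^ 2) μ :=
        intg (C := (J * 4 : ℝ) ^ 2) (hsm.pow_const 2) (fun x => by
          rw [abs_pow]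
          exact pow_le_pow_left₀ (abs_nonneg _) (hsb x) 2)
      refine integral_mono_of_nonneg (Filter.Eventually.of_forall fun x => sq_nonneg _) hi2
        (Filter.Eventually.of_forall fun x => ?_)
      show (f x * ∑ j ∈ range J, Q j x) ^ 2 ≤ (∑ j ∈ range J, Q j x) ^ 2
      rw [mul_pow]
      refine mul_le_of_le_one_left (sq_nonneg _) ?_
      rw [← sq_abs]
      exact pow_le_one₀ (abs_nonneg _) (hf.2 x)
    refine h3.trans (h4.trans (le_of_eq ?_))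
    have e2 : ∀ x, (∑ j ∈ range J, Q j x) ^ 2 = ∑ j ∈ range J, (Q j x ^ 2 + 2 * ∑ i ∈ range j, Q i x * Q j x) :=
      fun x => sq_sum_range _ _
    simp only [e2]
    have i1 : ∀ j, Integrable (fun x => 2 * ∑ i ∈ range j, Q i x * Q j x) μ := fun j =>
      (integrable_finsetSum _ fun i _ => hQQ i j).const_mul 2
    have i2 : ∀ j ∈ range J, Integrable (fun x => Q j x ^ 2 + 2 * ∑ i ∈ range j, Q i x * Q j x) μ := fun j _ =>
      (hQ2 j).add (i1 j)
    rw [integral_finsetSum _ i2]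
    refine sum_congr rfl fun j _ => ?_
    rw [integral_add (hQ2 j) (i1 j), integral_const_mul, integral_finsetSum _ fun i _ => hQQ i j]
  -- diagonal
  have h5 : ∀ j, ∫ x, Q j x ^ 2 ∂μ ≤ 16 := fun j => by
    calc ∫ x, Q j x ^ 2 ∂μ ≤ ∫ _, (16 : ℝ) ∂μ := integral_mono (hQ2 j) (integrable_const _) fun x => by
          show Q j x ^ 2 ≤ 16
          rw [← sq_abs]
          calc |Q j x| ^ 2 ≤ 4 ^ 2 := pow_le_pow_left₀ (abs_nonneg _) (hQb j x) 2
            _ = 16 := by norm_num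
      _ = 16 := by simp
  -- off diagonal
  set A := (J : ℝ) ^ (1 - e / 2) with hA
  have hA0 : 0 ≤ A := by positivity
  have hA2 : √((J : ℝ) * (16 * (J : ℝ) ^ (1 - e))) = 4 * A := by
    rw [Real.sqrt_eq_iff_mul_self_eq (by positivity) (by positivity), hA]
    have h6 : (J : ℝ) ^ (1 - e / 2) * (J : ℝ) ^ (1 - e / 2) = (J : ℝ) * (J : ℝ) ^ (1 - e) := by
      have hJ0 : (0 : ℝ) < J := by linarith
      rw [← Real.rpow_add hJ0]
      nth_rewrite 2 [← Real.rpow_one (J : ℝ)]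
      rw [← Real.rpow_add hJ0]
      congr 1
      ring
    symm
    calc (4 * (J : ℝ) ^ (1 - e / 2)) * (4 * (J : ℝ) ^ (1 - e / 2))
        = 16 * ((J : ℝ) ^ (1 - e / 2) * (J : ℝ) ^ (1 - e / 2)) := by ring
      _ = (J : ℝ) * (16 * (J : ℝ) ^ (1 - e)) := by rw [h6]; ring
  have h7 : ∀ j ∈ range J, ∑ i ∈ range j, ∫ x, Q i x * Q j x ∂μ ≤ 32 + 32 * A := by
    intro j hj
    rw [mem_range] at hj
    have hE : U1 (fun x => D j x / 2) := ⟨(hDm j).div_const 2, fun x => by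
      rw [abs_div, abs_of_pos (by norm_num : (0 : ℝ) < 2)]
      have := hDb j x
      linarith⟩
    have hterm : ∀ i ∈ range j, ∫ x, Q i x * Q j x ∂μ ≤ 8 * κ i j + ∑ h ∈ II (2 * B), |ψ j h| *
        (4 * ∫ x, |AV B (ψ i) (Psi p h (fun x => D j x / 2) Φ') x| ∂μ) := by
      intro i hi
      rw [mem_range] at hi
      exact offdiag (hψ.l1 i) (hψ.l1 j) (hψ.supp j) (hκ1 i j hi hj) (hκ0 i j) (hDb i) (hDm i) (hDb j) (hDm j) hΦ'
    have hin : ∀ h : ℤ, ∑ i ∈ range j, ∫ x, |AV B (ψ i) (Psi p h (fun x => D j x / 2) Φ') x| ∂μ ≤ 4 * A := by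
      intro h
      have hP : IsP (star p h M) (Psi p h (fun x => D j x / 2) Φ') := Psi_isP hE hΦ'
      have h8 : ∀ i ∈ range j, ∫ x, |AV B (ψ i) (Psi p h (fun x => D j x / 2) Φ') x| ∂μ ≤
          √(∫ x, AV B (ψ i) (Psi p h (fun x => D j x / 2) Φ') x ^ 2 ∂μ) := fun i _ =>
        abs_int_le_sqrt (C := 2) (AV_meas fun n => (hP.bd n).1) fun x => AV_le (hψ.l1 i) (fun n x => (hP.bd n).2 x) x
      refine (sum_le_sum h8).trans ((sum_sqrt_le _ (fun i => integral_nonneg fun x => sq_nonneg _) j).trans ?_)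
      rw [← hA2]
      refine Real.sqrt_le_sqrt ?_
      have h9 := IH h j B ψ (hψ.mono hj.le) _ hP
      have h10 : (j : ℝ) ≤ J := by exact_mod_cast hj.le
      have h11 : (j : ℝ) ^ (1 - e) ≤ (J : ℝ) ^ (1 - e) := Real.rpow_le_rpow (Nat.cast_nonneg _) h10 (by linarith)
      refine mul_le_mul h10 (h9.trans ?_) (sum_nonneg fun i _ => integral_nonneg fun x => sq_nonneg _)
        (Nat.cast_nonneg _)
      linarith
    refine (sum_le_sum hterm).trans ?_
    rw [sum_add_distrib, ← mul_sum, sum_comm]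
    have h12 : ∑ h ∈ II (2 * B), ∑ i ∈ range j, |ψ j h| *
        (4 * ∫ x, |AV B (ψ i) (Psi p h (fun x => D j x / 2) Φ') x| ∂μ) ≤ ∑ h ∈ II (2 * B), |ψ j h| * (16 * A) := by
      refine sum_le_sum fun h _ => ?_
      rw [← mul_sum, ← mul_sum]
      refine mul_le_mul_of_nonneg_left ?_ (abs_nonneg _)
      have := hin h
      linarith
    rw [← sum_mul, sum_abs_two (hψ.supp j)] at h12
    have h13 := hκ2 j hj
    have h14 : (∑ n ∈ II B, |ψ j n|) * (16 * A) ≤ 2 * (16 * A) :=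
      mul_le_mul_of_nonneg_right (hψ.l1 j) (by positivity)
    linarith
  have h15 : S ^ 2 ≤ J * (80 + 64 * A) := by
    refine h2.trans ?_
    calc ∑ j ∈ range J, (∫ x, Q j x ^ 2 ∂μ + 2 * ∑ i ∈ range j, ∫ x, Q i x * Q j x ∂μ)
        ≤ ∑ j ∈ range J, (80 + 64 * A) := by
          refine sum_le_sum fun j hj => ?_
          have := h5 j
          have := h7 j hj
          linarith
      _ = J * (80 + 64 * A) := by
          rw [sum_const, card_range, nsmul_eq_mul]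
  have hA1 : 1 ≤ A := Real.one_le_rpow hJ1 (by linarith)
  have hJA : (J : ℝ) * A = ((J : ℝ) ^ (1 - e / 4)) ^ 2 := by
    have hJ0 : (0 : ℝ) < J := by linarith
    rw [hA, sq, ← Real.rpow_add hJ0]
    nth_rewrite 1 [← Real.rpow_one (J : ℝ)]
    rw [← Real.rpow_add hJ0]
    congr 1
    ring
  refine abs_le_of_sq_le_sq' ?_ (by positivity) |>.2
  rw [mul_pow, ← hJA]
  nlinarith

/-- **the bound for lacunary families** -/
theorem bd_of_cx {c : ℕ} {L : List (ℤ → G)} (h : Cx c L) : ∀ (J B : ℕ) (ψ : ℕ → ℤ → ℝ), Lac J B ψ →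
    ∀ Φ : ℤ → X → ℝ, IsP L Φ →
      ∑ j ∈ range J, ∫ x, AV B (ψ j) Φ x ^ 2 ∂μ ≤ 16 * (J : ℝ) ^ (1 - (1 / 4 : ℝ) ^ c) := by
  induction h with
  | base =>
    intro J B ψ hψ Φ hΦ
    obtain ⟨u, _, e⟩ := hΦ
    have h0 : ∀ j x, AV B (ψ j) Φ x = 0 := fun j x => by
      simp only [AV, e]
      rw [← sum_mul, hψ.zero, zero_mul]
    simp only [h0]
    simp only [ne_eq, OfNat.ofNat_ne_zero, not_false_eq_true, zero_pow, integral_zero, sum_const_zero]
    positivity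
  | emb he _ ih =>
    intro J B ψ hψ Φ hΦ
    exact ih J B ψ hψ Φ (hΦ.emb he)
  | @step c p M _ ih =>
    intro J B ψ hψ Φ hΦ
    have h1 : ((1 / 4 : ℝ)) ^ c ≤ 1 := pow_le_one₀ (by norm_num) (by norm_num)
    have h2 := step_bd (μ := μ) (p := p) (M := M) (e := (1 / 4 : ℝ) ^ c) h1
      (fun h J B ψ hψ Φ hΦ => ih h J B ψ hψ Φ hΦ) hψ hΦ
    have e : (1 / 4 : ℝ) ^ (c + 1) = (1 / 4 : ℝ) ^ c / 4 := by
      rw [pow_succ]
      ring
    rw [e]
    exact h2

end Pool.JMP
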