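import Pool.Agent.JMP.Fluc

set_option autoImplicit false
set_option linter.unusedSectionVars false

/-!
# JMP: complex functions
-/

namespace Pool.JMP

open MeasureTheory Finset

variable {G X : Type*} [Group G] [MulAction G X] [MeasurableSpace X]

/-- the real products of a system, as complex functions -/
def gen (X : Type*) [MulAction G X] [MeasurableSpace X] (L : List (ℤ → G)) : Set (ℤ → X → ℂ) :=
  {Ψ | ∃ Φ : ℤ → X → ℝ, IsP L Φ ∧ Ψ = fun n x => (Φ n x : ℂ)}

/-- complex combinations of products -/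
def IsC (L : List (ℤ → G)) (Φ : ℤ → X → ℂ) : Prop := Φ ∈ Submodule.span ℂ (gen X L)

lemma IsC.real {L : List (ℤ → G)} {Φ : ℤ → X → ℝ} (h : IsP L Φ) : IsC L (fun n x => (Φ n x : ℂ)) :=
  Submodule.subset_span ⟨Φ, h, rfl⟩

lemma IsC.one (L : List (ℤ → G)) : IsC L (fun _ (_ : X) => (1 : ℂ)) := by
  have h := IsC.real (IsP.const (X := X) U1.one L)
  simpa using h

lemma IsC.cons {g : ℤ → G} {L : List (ℤ → G)} {f : X → ℂ} (hf : Measurable f) {K : ℝ} (hK : ∀ x, ‖f x‖ ≤ K)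
    {Φ : ℤ → X → ℂ} (hΦ : IsC L Φ) : IsC (g :: L) (fun n x => f (g n • x) * Φ n x) := by
  have hK1 : 0 < max K 1 := lt_max_of_lt_right one_pos
  set K' := max K 1 with hK'
  have hu : U1 (fun x => (f x).re / K') := ⟨(Complex.measurable_re.comp hf).div_const _, fun x => by
    rw [abs_div, abs_of_pos hK1, div_le_one hK1]
    exact (Complex.abs_re_le_norm _).trans ((hK x).trans (le_max_left _ _))⟩
  have hv : U1 (fun x => (f x).im / K') := ⟨(Complex.measurable_im.comp hf).div_const _, fun x => by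
    rw [abs_div, abs_of_pos hK1, div_le_one hK1]
    exact (Complex.abs_im_le_norm _).trans ((hK x).trans (le_max_left _ _))⟩
  unfold IsC at hΦ
  induction hΦ using Submodule.span_induction with
  | mem Ψ hΨ =>
    obtain ⟨Φ, hΦ, rfl⟩ := hΨ
    have h1 : IsC (g :: L) (fun n x => (((f (g n • x)).re / K' * Φ n x : ℝ) : ℂ)) :=
      IsC.real ⟨_, Φ, hu, hΦ, fun _ _ => rfl⟩
    have h2 : IsC (g :: L) (fun n x => (((f (g n • x)).im / K' * Φ n x : ℝ) : ℂ)) :=
      IsC.real ⟨_, Φ, hv, hΦ, fun _ _ => rfl⟩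
    have h3 := Submodule.add_mem _ (Submodule.smul_mem _ (K' : ℂ) h1)
      (Submodule.smul_mem _ ((K' : ℂ) * Complex.I) h2)
    refine (congrArg (IsC (g :: L)) ?_).mpr h3
    funext n x
    simp only [Pi.add_apply, Pi.smul_apply, smul_eq_mul]
    have e := Complex.re_add_im (f (g n • x))
    have hK0 : (K' : ℂ) ≠ 0 := by exact_mod_cast hK1.ne'
    push_cast
    field_simp
    nth_rewrite 1 [← e]
    ring
  | zero =>
    refine (congrArg (IsC (g :: L)) ?_).mpr (Submodule.zero_mem _)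
    funext n x
    simp
  | add Φ Ψ _ _ h1 h2 =>
    refine (congrArg (IsC (g :: L)) ?_).mpr (Submodule.add_mem _ h1 h2)
    funext n x
    simp only [Pi.add_apply, mul_add]
  | smul a Φ _ h1 =>
    refine (congrArg (IsC (g :: L)) ?_).mpr (Submodule.smul_mem _ a h1)
    funext n x
    simp only [Pi.smul_apply, smul_eq_mul]
    ring

lemma IsC.prod {m : ℕ} : ∀ (g : Fin m → ℤ → G) (f : Fin m → X → ℂ) (K : Fin m → ℝ), (∀ j, Measurable (f j)) →
    (∀ j x, ‖f j x‖ ≤ K j) → IsC (List.ofFn g) (fun n x => ∏ j, f j (g j n • x)) := by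
  induction m with
  | zero =>
    intro g f K _ _
    simp only [univ_eq_empty, prod_empty]
    exact IsC.one _
  | succ m ih =>
    intro g f K hf hK
    rw [List.ofFn_succ]
    simp only [Fin.prod_univ_succ]
    exact IsC.cons (hf 0) (hK 0) (ih (fun j => g j.succ) (fun j => f j.succ) (fun j => K j.succ) (fun j => hf _)
      (fun j => hK _))

variable [MeasurableConstSMul G X] {μ : Measure X} [IsProbabilityMeasure μ] [SMulInvariantMeasure G X μ]

lemma IsC.good {c : ℕ} {L : List (ℤ → G)} (h : Cx c L) {Φ : ℤ → X → ℂ} (hΦ : IsC L Φ) :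
    Good μ (1 - (1 / 4 : ℝ) ^ c / 2) Φ := by
  unfold IsC at hΦ
  induction hΦ using Submodule.span_induction with
  | mem Ψ hΨ =>
    obtain ⟨Φ, hΦ, rfl⟩ := hΨ
    exact good_of_isP h hΦ
  | zero => exact Good.zero _ _
  | add Φ Ψ _ _ h1 h2 => exact h1.add h2
  | smul a Φ _ h1 => exact h1.smul a

/-- **fluctuations**, measurable bounded functions and an action of a group -/
theorem fluct_action {c : ℕ} {m : ℕ} (g : Fin m → ℤ → G) (h : Cx c (List.ofFn g)) (f : Fin m → X → ℂ) (K : Fin m → ℝ)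
    (hf : ∀ j, Measurable (f j)) (hK : ∀ j x, ‖f j x‖ ≤ K j) :
    ∀ᵐ x ∂μ, ∀ ε > 0, ∀ᶠ N : ℕ in Filter.atTop, ∀ (L : ℕ) (M : ℕ → ℕ), 1 ≤ M 0 → (∀ i < L, M i < M (i + 1)) →
      M L ≤ N → (∀ i < L, ε ≤ ‖EC (fun n x => ∏ j, f j (g j n • x)) (M (i + 1)) x -
        EC (fun n x => ∏ j, f j (g j n • x)) (M i) x‖) → (L : ℝ) ≤ (Real.log N) ^ (1 - (1 / 4 : ℝ) ^ (c + 1)) := by
  have h1 : Good μ (1 - (1 / 4 : ℝ) ^ c / 2) (fun n x => ∏ j, f j (g j n • x)) := (IsC.prod g f K hf hK).good h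
  have h2 : ∀ᵐ x ∂μ, ∀ R : ℕ, 0 < R → ∃ C : ℝ, ∀ Q : ℕ,
      VQ (fun r => EC (fun n x => ∏ j, f j (g j n • x)) (grid R r) x) Q ≤
        C * (2 : ℝ) ^ ((Q : ℝ) * (1 - (1 / 4 : ℝ) ^ c / 2)) := by
    rw [ae_all_iff]
    intro R
    by_cases hR : 0 < R
    · filter_upwards [h1 R hR] with x hx _
      exact hx
    · exact Filter.Eventually.of_forall fun x h => absurd h hR
  filter_upwards [h2] with x hx ε hε
  have h3 := count_good (Φ := fun n x => ∏ j, f j (g j n • x)) (x := x) (K := ∏ j, K j) (fun n => by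
    rw [norm_prod]
    exact prod_le_prod (fun j _ => norm_nonneg _) fun j _ => hK j _) (δ := (1 / 4 : ℝ) ^ c) (by positivity)
    (pow_le_one₀ (by norm_num) (by norm_num)) hx hε
  have e : (1 / 4 : ℝ) ^ (c + 1) = (1 / 4 : ℝ) ^ c / 4 := by
    rw [pow_succ]
    ring
  rw [e]
  exact h3

end Pool.JMP
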