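import Pool.Agent.Nil.Filt

set_option autoImplicit false

/-!
# JMP: finite complexity of polynomial systems in a nilpotent group

A system is a list of sequences `ℤ → G` (the constant sequence `1` is always added).  `cpy p h q` is the copy of `q`
produced by the dual function trick with the pivot `p` and the shift `h`.  `Cx c L`: the system `L` is reduced to
constants by `c` steps.  `cx_of_isSeq`: `Cx t L` with `t` depending only on the length of the filtration and of the list.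
Proof: `Rel F i q q'` (same coset of polynomial sequences of level `i` times constants); a copy with a pivot related at
level `i` is related at level `i + 1` (`Rel.cpy`).
-/

namespace Pool.JMP

open Pool.Nil

variable {G : Type*} [Group G]

/-- left constant multiple -/
def LC (g g' : ℤ → G) : Prop := ∃ a : G, ∀ n, g n = a * g' n

/-- every sequence of `L` is a left constant multiple of `1` or of a sequence of `L'` -/
def Emb (L L' : List (ℤ → G)) : Prop := ∀ g ∈ L, ∃ g' ∈ (1 : ℤ → G) :: L', LC g g'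

/-- the copy of `q` with pivot `p` and shift `h` -/
def cpy (p : ℤ → G) (h : ℤ) (q : ℤ → G) : ℤ → G := fun n => q (n + h) * (p (n + h))⁻¹ * p n

/-- the reduced system -/
def star (p : ℤ → G) (h : ℤ) (M : List (ℤ → G)) : List (ℤ → G) := M ++ ((1 : ℤ → G) :: M).map (cpy p h)

/-- `c` reductions lead to constants -/
inductive Cx : ℕ → List (ℤ → G) → Prop
  | base : Cx 0 []
  | emb {c : ℕ} {L L' : List (ℤ → G)} : Emb L L' → Cx c L' → Cx c L
  | step {c : ℕ} {p : ℤ → G} {M : List (ℤ → G)} : (∀ h, Cx c (star p h M)) → Cx (c + 1) (p :: M)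

lemma LC.refl (g : ℤ → G) : LC g g := ⟨1, fun n => (one_mul _).symm⟩

lemma emb_of_sub {L L' : List (ℤ → G)} (h : ∀ g ∈ L, g ∈ (1 : ℤ → G) :: L') : Emb L L' :=
  fun g hg => ⟨g, h g hg, LC.refl g⟩

lemma Cx.sub {c : ℕ} {L L' : List (ℤ → G)} (h : Cx c L') (hs : ∀ g ∈ L, g ∈ (1 : ℤ → G) :: L') : Cx c L :=
  Cx.emb (emb_of_sub hs) h

variable {F : ℕ → Subgroup G}

/-- same coset of polynomial sequences of level `i` times constants -/
def Rel (F : ℕ → Subgroup G) (i : ℕ) (g g' : ℤ → G) : Prop :=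
  ∃ u : ℤ → G, IsSeq F i u ∧ ∃ a : G, ∀ n, g' n = u n * a * g n

lemma isSeq_one (i : ℕ) : IsSeq F i (1 : ℤ → G) := IsSeq.const (one_mem _)

lemma isSeq_conj_const (hF : Filt F) (h0 : F 0 = ⊤) {i : ℕ} {u : ℤ → G} (hu : IsSeq F i u) (a : G) :
    IsSeq F i (fun n => a * u n * a⁻¹) := by
  have h := IsSeq.conj hF (IsSeq.const (F := F) (i := 0) (c := a) (by rw [h0]; exact Subgroup.mem_top _)) hu
  exact h

lemma Rel.refl (i : ℕ) (g : ℤ → G) : Rel F i g g :=
  ⟨1, isSeq_one i, 1, fun n => by simp⟩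

lemma Rel.symm (hF : Filt F) (h0 : F 0 = ⊤) {i : ℕ} {g g' : ℤ → G} (h : Rel F i g g') : Rel F i g' g := by
  obtain ⟨u, hu, a, e⟩ := h
  refine ⟨fun n => a⁻¹ * (u⁻¹) n * (a⁻¹)⁻¹, isSeq_conj_const hF h0 (hu.inv hF) a⁻¹, a⁻¹, fun n => ?_⟩
  rw [e n]
  simp only [Pi.inv_apply]
  group

lemma Rel.trans (hF : Filt F) (h0 : F 0 = ⊤) {i : ℕ} {g g' g'' : ℤ → G} (h : Rel F i g g')
    (h' : Rel F i g' g'') : Rel F i g g'' := by
  obtain ⟨u, hu, a, e⟩ := h
  obtain ⟨u', hu', a', e'⟩ := h'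
  refine ⟨u' * (fun n => a' * u n * a'⁻¹), hu'.mul hF (isSeq_conj_const hF h0 hu a'), a' * a, fun n => ?_⟩
  rw [e' n, e n]
  simp only [Pi.mul_apply]
  group

lemma Rel.mono (hF : Filt F) {i j : ℕ} (hij : i ≤ j) {g g' : ℤ → G} (h : Rel F j g g') : Rel F i g g' := by
  obtain ⟨u, hu, a, e⟩ := h
  exact ⟨u, hu.le hF hij, a, e⟩

lemma Rel.top {s : ℕ} (hs : F s = ⊥) {g g' : ℤ → G} (h : Rel F s g g') : LC g' g := by
  obtain ⟨u, hu, a, e⟩ := h
  refine ⟨a, fun n => ?_⟩
  have h1 := hu.val n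
  rw [hs, Subgroup.mem_bot] at h1
  rw [e n, h1, one_mul]

lemma isSeq_shift (h : ℤ) {i : ℕ} {u : ℤ → G} (hu : IsSeq F i u) : IsSeq F i (fun n => u (n + h)) := by
  rw [isSeq_iff] at hu ⊢
  exact hu.shift (fun _ => h)

lemma isSeq_dR_nat (hF : Filt F) {i : ℕ} {u : ℤ → G} (hu : IsSeq F i u) (h : ℕ) :
    IsSeq F (i + 1) (fun n => u (n + h) * (u n)⁻¹) := by
  induction h with
  | zero =>
    have e : (fun n : ℤ => u (n + (0 : ℕ)) * (u n)⁻¹) = 1 := by
      funext n
      simp
    rw [e]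
    exact isSeq_one _
  | succ h ih =>
    have h1 : IsSeq F (i + 1) (u * dz u * u⁻¹) := IsSeq.conj hF hu hu.diff
    have h2 := isSeq_shift (F := F) (h : ℤ) h1
    have e : (fun n : ℤ => u (n + ((h + 1 : ℕ) : ℤ)) * (u n)⁻¹) =
        (fun n => (u * dz u * u⁻¹) (n + (h : ℤ))) * (fun n => u (n + h) * (u n)⁻¹) := by
      funext n
      have e1 : n + ((h + 1 : ℕ) : ℤ) = n + (h : ℤ) + 1 := by push_cast; ring
      simp only [Pi.mul_apply, Pi.inv_apply, dz, e1]
      group
    rw [e]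
    exact h2.mul hF ih

lemma isSeq_dR (hF : Filt F) {i : ℕ} {u : ℤ → G} (hu : IsSeq F i u) (h : ℤ) :
    IsSeq F (i + 1) (fun n => u (n + h) * (u n)⁻¹) := by
  obtain ⟨k, rfl | rfl⟩ := Int.eq_nat_or_neg h
  · exact isSeq_dR_nat hF hu k
  · have h1 := isSeq_shift (F := F) (-(k : ℤ)) ((isSeq_dR_nat hF hu k).inv hF)
    have e : (fun n : ℤ => u (n + -(k : ℤ)) * (u n)⁻¹) =
        fun n => ((fun n : ℤ => u (n + (k : ℤ)) * (u n)⁻¹)⁻¹) (n + -(k : ℤ)) := by
      funext n
      simp only [Pi.inv_apply, neg_add_cancel_right, mul_inv_rev, inv_inv]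
    rw [e]
    exact h1

/-- **a copy is closer than the pivot** -/
lemma Rel.cpy (hF : Filt F) {i : ℕ} {p q : ℤ → G} (h : Rel F i p q) (t : ℤ) : Rel F (i + 1) q (cpy p t q) := by
  obtain ⟨u, hu, a, e⟩ := h
  refine ⟨fun n => u (n + t) * (u n)⁻¹, isSeq_dR hF hu t, 1, fun n => ?_⟩
  rw [Pool.JMP.cpy, e (n + t), e n]
  group

/-- `q'` is derived from `q` (by pivots in the class of `q0` of level `j`) -/
def Der (F : ℕ → Subgroup G) (j : ℕ) (q0 q q' : ℤ → G) : Prop := ∀ i ≤ j, Rel F i q q0 → Rel F (i + 1) q q'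

lemma Der.self {j : ℕ} {q0 q : ℤ → G} : Der F j q0 q q := fun _ _ _ => Rel.refl _ _

lemma Der.trans (hF : Filt F) (h0 : F 0 = ⊤) {j : ℕ} {q0 q q' q'' : ℤ → G} (h : Der F j q0 q q')
    (h' : Der F j q0 q' q'') : Der F j q0 q q'' := by
  intro i hi hr
  have h1 := h i hi hr
  have h2 : Rel F i q' q0 := ((h1.mono hF (Nat.le_succ i)).symm hF h0).trans hF h0 hr
  exact h1.trans hF h0 (h' i hi h2)

/-- change of the base point -/
lemma Der.base (hF : Filt F) (h0 : F 0 = ⊤) {j j' : ℕ} (hj : j ≤ j') {q0 q1 q q' : ℤ → G} (h1 : Rel F j q1 q0)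
    (h : Der F j' q1 q q') : Der F j q0 q q' := by
  intro i hi hr
  exact h i (hi.trans hj) (hr.trans hF h0 ((h1.mono hF hi).symm hF h0))

lemma Der.of_cpy (hF : Filt F) (h0 : F 0 = ⊤) {j : ℕ} {q1 q : ℤ → G} (t : ℤ) : Der F j q1 q (cpy q1 t q) := by
  intro i _ hr
  exact (hr.symm hF h0).cpy hF t

/-- the class of `q0` of level `j` is reduced to `q0` -/
def BS (F : ℕ → Subgroup G) (j n t b : ℕ) : Prop :=
  ∀ (q0 : ℤ → G) (Q : List (ℤ → G)), Q.length ≤ n → (∀ q ∈ Q, Rel F j q q0) → ∀ (R : List (ℤ → G)) (c : ℕ),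
    (∀ φ : (ℤ → G) → List (ℤ → G), (∀ q, (φ q).length ≤ b ∧ ∀ q' ∈ φ q, Der F j q0 q q') →
      Cx c (q0 :: ((1 : ℤ → G) :: R).flatMap φ)) → Cx (c + t) (q0 :: (Q ++ R))

/-- the same, `Q` is in the classes of level `j + 1` of `q0` and of the `r` representatives `S` -/
def BR (F : ℕ → Subgroup G) (j n r t b : ℕ) : Prop :=
  ∀ (q0 : ℤ → G) (S : List (ℤ → G)), S.length = r → (∀ s ∈ S, Rel F j s q0) →
    ∀ Q : List (ℤ → G), Q.length ≤ n → (∀ q ∈ Q, ∃ s ∈ q0 :: S, Rel F (j + 1) q s) → ∀ (R : List (ℤ → G)) (c : ℕ),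
    (∀ φ : (ℤ → G) → List (ℤ → G), (∀ q, (φ q).length ≤ b ∧ ∀ q' ∈ φ q, Der F j q0 q q') →
      Cx c (q0 :: ((1 : ℤ → G) :: R).flatMap φ)) → Cx (c + t) (q0 :: (Q ++ R))

lemma BS_top {s : ℕ} (hs : F s = ⊥) (n : ℕ) : BS F s n 0 1 := by
  intro q0 Q _ hQ R c hc
  have h1 := hc (fun q => [q]) (fun q => ⟨by simp, fun q' hq' => by
    rw [List.mem_singleton] at hq'
    rw [hq']
    exact Der.self⟩)
  refine Cx.emb ?_ h1
  intro g hg
  rw [List.mem_cons, List.mem_append] at hg
  rcases hg with rfl | hg | hg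
  · exact ⟨g, by simp, LC.refl g⟩
  · obtain ⟨a, e⟩ := (hQ g hg).top hs
    refine ⟨q0, by simp, a⁻¹, fun n => ?_⟩
    rw [e n]
    group
  · exact ⟨g, by simp [hg], LC.refl g⟩

lemma length_flatMap_le {α β : Type*} (L : List α) (φ : α → List β) {b : ℕ} (h : ∀ q, (φ q).length ≤ b) :
    (L.flatMap φ).length ≤ L.length * b := by
  induction L with
  | nil => simp
  | cons a L ih =>
    rw [List.flatMap_cons, List.length_append, List.length_cons, add_mul, one_mul, add_comm]
    exact Nat.add_le_add ih (h a)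

lemma BR_zero (hF : Filt F) {j n t b : ℕ} (h : BS F (j + 1) n t b) : BR F j n 0 t b := by
  intro q0 S hS _ Q hQ hQS R c hc
  have hS0 : S = [] := List.eq_nil_of_length_eq_zero hS
  subst hS0
  refine h q0 Q hQ (fun q hq => ?_) R c (fun φ hφ => hc φ fun q => ⟨(hφ q).1, fun q' hq' => ?_⟩)
  · obtain ⟨s, hs, hr⟩ := hQS q hq
    rw [List.mem_singleton] at hs
    rwa [hs] at hr
  · intro i hi
    exact (hφ q).2 q' hq' i (hi.trans (Nat.le_succ j))

lemma BR_succ (hF : Filt F) (h0 : F 0 = ⊤) {j n r t1 b1 t2 b2 : ℕ} (h1 : BS F (j + 1) n t1 b1)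
    (h2 : BR F j ((n + 1) * (2 * b1 + 1)) r t2 b2) :
    BR F j n (r + 1) (t1 + 1 + t2) (b2 + (2 * b1 + 1) * b2) := by
  classical
  intro q0 S hS hSr Q hQ hQS R c hc
  obtain ⟨q1, S', rfl⟩ : ∃ q1 S', S = q1 :: S' := by
    cases S with
    | nil => simp at hS
    | cons q1 S' => exact ⟨q1, S', rfl⟩
  have hq1 : Rel F j q1 q0 := hSr q1 (by simp)
  set Q1 := Q.filter (fun q => decide (Rel F (j + 1) q q1)) with hQ1
  set Qr := Q.filter (fun q => !decide (Rel F (j + 1) q q1)) with hQr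
  have hQrS : ∀ q ∈ Qr, ∃ s ∈ q0 :: S', Rel F (j + 1) q s := by
    intro q hq
    rw [hQr, List.mem_filter] at hq
    obtain ⟨hq, hn⟩ := hq
    simp only [Bool.not_eq_eq_eq_not, Bool.not_true, decide_eq_false_iff_not] at hn
    obtain ⟨s, hs, hr⟩ := hQS q hq
    rw [List.mem_cons, List.mem_cons] at hs
    rcases hs with rfl | rfl | hs
    · exact ⟨s, by simp, hr⟩
    · exact absurd hr hn
    · exact ⟨s, by simp [hs], hr⟩
  have hQr0 : ∀ q ∈ q0 :: Qr, Rel F j q q0 := by
    intro q hq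
    rw [List.mem_cons] at hq
    rcases hq with rfl | hq
    · exact Rel.refl _ _
    · obtain ⟨s, hs, hr⟩ := hQrS q hq
      have hs0 : Rel F j s q0 := by
        rw [List.mem_cons] at hs
        rcases hs with rfl | hs
        · exact Rel.refl _ _
        · exact hSr s (by simp [hs])
      exact (hr.mono hF (Nat.le_succ j)).trans hF h0 hs0
  -- first phase
  have key : Cx ((c + t2 + 1) + t1) (q1 :: (Q1 ++ (q0 :: (Qr ++ R)))) := by
    refine h1 q1 Q1 ((List.length_filter_le _ _).trans hQ) (fun q hq => ?_) _ _ (fun φ hφ => ?_)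
    · rw [hQ1, List.mem_filter] at hq
      simpa using hq.2
    refine Cx.step fun h => ?_
    set ψ : (ℤ → G) → List (ℤ → G) := fun q => φ q ++ (q :: φ q).map (cpy q1 h) with hψ
    have hψl : ∀ q, (ψ q).length ≤ 2 * b1 + 1 := by
      intro q
      have := (hφ q).1
      simp only [hψ, List.length_append, List.length_map, List.length_cons]
      omega
    have hψd : ∀ q, ∀ q' ∈ ψ q, Der F (j + 1) q1 q q' := by
      intro q q' hq'
      simp only [hψ, List.mem_append, List.mem_map, List.mem_cons] at hq'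
      rcases hq' with hq' | ⟨q'', rfl | hq'', rfl⟩
      · exact (hφ q).2 q' hq'
      · exact Der.of_cpy hF h0 h
      · exact ((hφ q).2 q'' hq'').trans hF h0 (Der.of_cpy hF h0 h)
    have hψd0 : ∀ q, ∀ q' ∈ ψ q, Der F j q0 q q' := fun q q' hq' =>
      (hψd q q' hq').base hF h0 (Nat.le_succ j) hq1
    set Q' := (q0 :: Qr).flatMap ψ with hQ'
    set R' := ((1 : ℤ → G) :: R).flatMap ψ with hR'
    have hnew : Cx (c + t2) (q0 :: (Q' ++ R')) := by
      refine h2 q0 S' (by simpa using hS) (fun s hs => hSr s (by simp [hs])) Q' ?_ ?_ R' c ?_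
      · refine (length_flatMap_le _ _ hψl).trans (Nat.mul_le_mul_right _ ?_)
        rw [List.length_cons]
        exact Nat.succ_le_succ ((List.length_filter_le _ _).trans hQ)
      · intro q' hq'
        rw [hQ', List.mem_flatMap] at hq'
        obtain ⟨q, hq, hq'⟩ := hq'
        have hd : Rel F (j + 1) q q' := hψd q q' hq' j (Nat.le_succ j)
          ((hQr0 q hq).trans hF h0 (hq1.symm hF h0))
        rw [List.mem_cons] at hq
        rcases hq with rfl | hq
        · exact ⟨q, by simp, hd.symm hF h0⟩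
        · obtain ⟨s, hs, hr⟩ := hQrS q hq
          exact ⟨s, hs, (hd.symm hF h0).trans hF h0 hr⟩
      · intro φ2 hφ2
        have h3 := hc (fun q => φ2 q ++ (ψ q).flatMap φ2) (fun q => ⟨?_, ?_⟩)
        · refine h3.sub ?_
          intro g hg
          rw [List.mem_cons] at hg ⊢
          rcases hg with rfl | hg
          · exact Or.inr (by simp)
          · right
            rw [List.mem_cons]
            right
            rw [List.mem_flatMap] at hg ⊢
            obtain ⟨q', hq', hg⟩ := hg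
            rw [List.mem_cons] at hq'
            rcases hq' with rfl | hq'
            · exact ⟨1, by simp, List.mem_append_left _ hg⟩
            · rw [hR', List.mem_flatMap] at hq'
              obtain ⟨q, hq, hq'⟩ := hq'
              exact ⟨q, hq, List.mem_append_right _ (List.mem_flatMap.2 ⟨q', hq', hg⟩)⟩
        · rw [List.length_append]
          refine Nat.add_le_add (hφ2 q).1 ((length_flatMap_le _ _ fun q => (hφ2 q).1).trans
            (Nat.mul_le_mul_right _ (hψl q)))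
        · intro q' hq'
          rw [List.mem_append, List.mem_flatMap] at hq'
          rcases hq' with hq' | ⟨q'', hq'', hq'⟩
          · exact (hφ2 q).2 q' hq'
          · exact (hψd0 q q'' hq'').trans hF h0 ((hφ2 q'').2 q' hq')
    refine hnew.sub ?_
    intro g hg
    have hg' : ∃ q ∈ (1 : ℤ → G) :: (q0 :: (Qr ++ R)), g ∈ ψ q := by
      rw [star, List.mem_append, List.mem_map] at hg
      rcases hg with hg | ⟨g', hg', rfl⟩
      · rw [List.mem_flatMap] at hg
        obtain ⟨q, hq, hg⟩ := hg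
        exact ⟨q, hq, List.mem_append_left _ hg⟩
      · rw [List.mem_cons] at hg'
        rcases hg' with rfl | hg'
        · exact ⟨1, by simp, List.mem_append_right _ (List.mem_map.2 ⟨1, by simp, rfl⟩)⟩
        · rw [List.mem_flatMap] at hg'
          obtain ⟨q, hq, hg'⟩ := hg'
          exact ⟨q, hq, List.mem_append_right _ (List.mem_map.2 ⟨g', by simp [hg'], rfl⟩)⟩
    obtain ⟨q, hq, hg'⟩ := hg'
    have : g ∈ Q' ∨ g ∈ R' := by
      rw [List.mem_cons, List.mem_cons, List.mem_append] at hq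
      rcases hq with rfl | rfl | hq | hq
      · exact Or.inr (List.mem_flatMap.2 ⟨1, by simp, hg'⟩)
      · exact Or.inl (List.mem_flatMap.2 ⟨q, by simp, hg'⟩)
      · exact Or.inl (List.mem_flatMap.2 ⟨q, by simp [hq], hg'⟩)
      · exact Or.inr (List.mem_flatMap.2 ⟨q, by simp [hq], hg'⟩)
    rw [List.mem_cons, List.mem_cons, List.mem_append]
    exact Or.inr (Or.inr this)
  have e : c + (t1 + 1 + t2) = (c + t2 + 1) + t1 := by ring
  rw [e]
  refine key.sub ?_
  intro g hg
  rw [List.mem_cons, List.mem_append] at hg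
  rcases hg with rfl | hg | hg
  · simp
  · by_cases hr : Rel F (j + 1) g q1
    · have : g ∈ Q1 := by
        rw [hQ1, List.mem_filter]
        exact ⟨hg, by simpa using hr⟩
      simp [this]
    · have : g ∈ Qr := by
        rw [hQr, List.mem_filter]
        exact ⟨hg, by simpa using hr⟩
      simp [this]
  · simp [hg]

lemma BS_of_BR (hF : Filt F) {j n t b : ℕ} (h : BR F j n n t b) : BS F j n t b := by
  intro q0 Q hQ hQr R c hc
  refine h q0 (Q ++ List.replicate (n - Q.length) q0) ?_ ?_ Q hQ ?_ R c hc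
  · rw [List.length_append, List.length_replicate]
    omega
  · intro s hs
    rw [List.mem_append, List.mem_replicate] at hs
    rcases hs with hs | ⟨_, rfl⟩
    · exact hQr s hs
    · exact Rel.refl _ _
  · intro q hq
    exact ⟨q, by simp [hq], Rel.refl _ _⟩

universe u

theorem exists_BS (s : ℕ) : ∀ k ≤ s, ∀ n : ℕ, ∃ t b : ℕ, ∀ (G : Type u) [Group G] (F : ℕ → Subgroup G),
    Filt F → F 0 = ⊤ → F s = ⊥ → BS F (s - k) n t b := by
  intro k
  induction k with
  | zero =>
    intro _ n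
    exact ⟨0, 1, fun G _ F _ _ hs => BS_top hs n⟩
  | succ k ih =>
    intro hk n
    have hk' : k ≤ s := by omega
    have e : s - (k + 1) + 1 = s - k := by omega
    have hr : ∀ r n : ℕ, ∃ t b : ℕ, ∀ (G : Type u) [Group G] (F : ℕ → Subgroup G),
        Filt F → F 0 = ⊤ → F s = ⊥ → BR F (s - (k + 1)) n r t b := by
      intro r
      induction r with
      | zero =>
        intro n
        obtain ⟨t, b, h⟩ := ih hk' n
        refine ⟨t, b, fun G _ F hF h0 hs => BR_zero hF ?_⟩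
        rw [e]
        exact h G F hF h0 hs
      | succ r ihr =>
        intro n
        obtain ⟨t1, b1, h1⟩ := ih hk' n
        obtain ⟨t2, b2, h2⟩ := ihr ((n + 1) * (2 * b1 + 1))
        refine ⟨t1 + 1 + t2, b2 + (2 * b1 + 1) * b2, fun G _ F hF h0 hs => ?_⟩
        refine BR_succ hF h0 ?_ (h2 G F hF h0 hs)
        rw [e]
        exact h1 G F hF h0 hs
    obtain ⟨t, b, h⟩ := hr n n
    exact ⟨t, b, fun G _ F hF h0 hs => BS_of_BR hF (h G F hF h0 hs)⟩

theorem exists_Cx (s : ℕ) : ∀ k ≤ s, ∀ n : ℕ, ∃ t : ℕ, ∀ (G : Type u) [Group G] (F : ℕ → Subgroup G),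
    Filt F → F 0 = ⊤ → F s = ⊥ → ∀ L : List (ℤ → G), L.length ≤ n → (∀ g ∈ L, Rel F (s - k) g 1) → Cx t L := by
  intro k
  induction k with
  | zero =>
    intro _ n
    refine ⟨0, fun G _ F hF h0 hs L _ hL => Cx.emb (fun g hg => ⟨1, by simp, ?_⟩) Cx.base⟩
    exact Rel.top hs ((hL g hg).symm hF h0)
  | succ k ih =>
    intro hk n
    obtain ⟨t1, b1, h1⟩ := exists_BS.{u} s (k + 1) hk n
    obtain ⟨t2, h2⟩ := ih (by omega) (b1 + 1)
    refine ⟨t2 + t1, fun G _ F hF h0 hs L hl hL => ?_⟩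
    have h3 := h1 G F hF h0 hs 1 L hl hL [] t2 (fun φ hφ => ?_)
    · exact h3.sub fun g hg => by simp [hg]
    · have e : s - (k + 1) + 1 = s - k := by omega
      have e1 : ((1 : ℤ → G) :: ([] : List (ℤ → G))).flatMap φ = φ 1 := by simp
      rw [e1]
      refine h2 G F hF h0 hs _ ?_ ?_
      · rw [List.length_cons]
        exact Nat.succ_le_succ (hφ 1).1
      · intro g hg
        rw [List.mem_cons] at hg
        rcases hg with rfl | hg
        · exact Rel.refl _ _
        · have := (hφ 1).2 g hg (s - (k + 1)) le_rfl (Rel.refl _ _)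
          rw [e] at this
          exact this.symm hF h0

/-- **finite complexity**: `t` depends only on the length `s` of the filtration and on the number `n` of sequences -/
theorem cx_of_isSeq (s n : ℕ) : ∃ t : ℕ, ∀ (G : Type u) [Group G] (F : ℕ → Subgroup G),
    Filt F → F 0 = ⊤ → F s = ⊥ → ∀ L : List (ℤ → G), L.length ≤ n → (∀ g ∈ L, IsSeq F 0 g) → Cx t L := by
  obtain ⟨t, h⟩ := exists_Cx.{u} s s le_rfl n
  refine ⟨t, fun G _ F hF h0 hs L hl hL => h G F hF h0 hs L hl fun g hg => ?_⟩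
  rw [Nat.sub_self]
  exact Rel.symm hF h0 ⟨g, hL g hg, 1, fun n => by simp⟩

end Pool.JMP
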