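import Mathlib

set_option autoImplicit false

/-!
# JMP: deterministic part: chains and dyadic differences, the grid
-/

namespace Pool.JMP

open Finset

variable {E : Type*} [SeminormedAddCommGroup E]

/-- sum of the squares of the dyadic differences -/
noncomputable def VQ (b : ℕ → E) (Q : ℕ) : ℝ :=
  ∑ q ∈ range Q, ∑ w ∈ range (2 ^ (Q - q)), ‖b ((w + 1) * 2 ^ q) - b (w * 2 ^ q)‖ ^ 2

/-- rounding differences -/
def rd (b : ℕ → E) (q w : ℕ) : E := b (w * 2 ^ q) - b ((w / 2) * 2 ^ (q + 1))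

lemma sum_rd (b : ℕ → E) (Q x : ℕ) (hx : x < 2 ^ Q) : ∑ q ∈ range Q, rd b q (x / 2 ^ q) = b x - b 0 := by
  have e : ∀ q, rd b q (x / 2 ^ q) = b ((x / 2 ^ q) * 2 ^ q) - b ((x / 2 ^ (q + 1)) * 2 ^ (q + 1)) := by
    intro q
    rw [rd, Nat.div_div_eq_div_mul, ← pow_succ]
  simp only [e]
  rw [sum_range_sub' (fun q => b ((x / 2 ^ q) * 2 ^ q))]
  simp [Nat.div_eq_of_lt hx]

lemma sq_rd_le (b : ℕ → E) (q w : ℕ) : ‖rd b q w‖ ^ 2 ≤
    if w = 0 then 0 else ‖b ((w - 1 + 1) * 2 ^ q) - b ((w - 1) * 2 ^ q)‖ ^ 2 := by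
  obtain ⟨u, rfl | rfl⟩ := Nat.even_or_odd' w
  · have e : rd b q (2 * u) = 0 := by
      have e1 : 2 * u / 2 * 2 ^ (q + 1) = 2 * u * 2 ^ q := by
        rw [Nat.mul_div_cancel_left _ (by norm_num), pow_succ]
        ring
      rw [rd, e1, sub_self]
    rw [e, norm_zero]
    split_ifs
    · norm_num
    · rw [zero_pow two_ne_zero]
      exact sq_nonneg _
  · have h0 : 2 * u + 1 ≠ 0 := by omega
    have e : rd b q (2 * u + 1) = b ((2 * u + 1 - 1 + 1) * 2 ^ q) - b ((2 * u + 1 - 1) * 2 ^ q) := by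
      have e1 : (2 * u + 1) / 2 * 2 ^ (q + 1) = (2 * u + 1 - 1) * 2 ^ q := by
        have : (2 * u + 1) / 2 = u := by omega
        rw [this, pow_succ, Nat.add_sub_cancel]
        ring
      have e2 : (2 * u + 1) = (2 * u + 1 - 1 + 1) := by omega
      rw [rd, e1, ← e2]
    rw [e, if_neg h0]

lemma sum_sq_rd_le (b : ℕ → E) (q W : ℕ) : ∑ w ∈ range W, ‖rd b q w‖ ^ 2 ≤
    ∑ w ∈ range W, ‖b ((w + 1) * 2 ^ q) - b (w * 2 ^ q)‖ ^ 2 := by
  refine (sum_le_sum fun w _ => sq_rd_le b q w).trans ?_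
  rcases W with _ | W
  · simp
  · rw [sum_range_succ']
    simp only [Nat.add_sub_cancel, Nat.succ_ne_zero, if_false, if_true, add_zero]
    exact sum_le_sum_of_subset_of_nonneg (range_mono (Nat.le_succ W)) fun _ _ _ => by positivity

lemma jump_right {e : ℕ → ℝ} (he : ∀ w, 0 ≤ e w) {v : ℕ → ℕ} (L : ℕ) : (∀ i < L, v i ≤ v (i + 1)) →
    ∑ i ∈ range L, (if v i = v (i + 1) then 0 else e (v (i + 1))) ≤ ∑ w ∈ range (v L + 1), e w := by
  induction L with
  | zero =>
    intro _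
    rw [range_zero, sum_empty]
    exact sum_nonneg fun w _ => he w
  | succ L ih =>
    intro hv
    rw [sum_range_succ]
    have h1 := ih fun i hi => hv i (by omega)
    have h2 := hv L (by omega)
    split_ifs with h3
    · rw [add_zero, ← h3]
      exact h1
    · have h4 : v L + 1 ≤ v (L + 1) := by omega
      have h5 : ∑ w ∈ range (v L + 1), e w ≤ ∑ w ∈ range (v (L + 1)), e w :=
        sum_le_sum_of_subset_of_nonneg (range_mono h4) fun w _ _ => he w
      rw [sum_range_succ _ (v (L + 1))]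
      linarith

lemma jump_left {e : ℕ → ℝ} (he : ∀ w, 0 ≤ e w) {v : ℕ → ℕ} (L : ℕ) : (∀ i < L, v i ≤ v (i + 1)) →
    ∑ i ∈ range L, (if v i = v (i + 1) then 0 else e (v i)) ≤ ∑ w ∈ range (v L + 1), e w := by
  have key : (∀ i < L, v i ≤ v (i + 1)) →
    ∑ i ∈ range L, (if v i = v (i + 1) then 0 else e (v i)) ≤ ∑ w ∈ range (v L), e w := by
    induction L with
    | zero =>
      intro _
      rw [range_zero, sum_empty]
      exact sum_nonneg fun w _ => he w
    | succ L ih =>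
      intro hv
      rw [sum_range_succ]
      have h1 := ih fun i hi => hv i (by omega)
      have h2 := hv L (by omega)
      split_ifs with h3
      · rw [add_zero, ← h3]
        exact h1
      · have h4 : v L + 1 ≤ v (L + 1) := by omega
        have h5 : ∑ w ∈ range (v L + 1), e w ≤ ∑ w ∈ range (v (L + 1)), e w :=
          sum_le_sum_of_subset_of_nonneg (range_mono h4) fun w _ _ => he w
        rw [sum_range_succ] at h5
        linarith
  intro hv
  refine (key hv).trans ?_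
  rw [sum_range_succ]
  have := he (v L)
  linarith

/-- **chains**: Rademacher–Menshov -/
lemma chain_le (b : ℕ → E) {Q L : ℕ} {x : ℕ → ℕ} (hx : ∀ i < L, x i ≤ x (i + 1)) (hQ : x L < 2 ^ Q) :
    ∑ i ∈ range L, ‖b (x (i + 1)) - b (x i)‖ ^ 2 ≤ 4 * Q * VQ b Q := by
  have hmono : ∀ k, ∀ i, i + k ≤ L → x i ≤ x (i + k) := by
    intro k
    induction k with
    | zero => intro i _; exact le_rfl
    | succ k ih =>
      intro i hi
      exact (ih i (by omega)).trans (hx (i + k) (by omega))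
  have hxQ : ∀ i ≤ L, x i < 2 ^ Q := fun i hi => by
    have := hmono (L - i) i (by omega)
    rw [Nat.add_sub_cancel' hi] at this
    omega
  have h1 : ∀ i ∈ range L, ‖b (x (i + 1)) - b (x i)‖ ^ 2 ≤ Q * ∑ q ∈ range Q,
      (2 * (if x i / 2 ^ q = x (i + 1) / 2 ^ q then 0 else ‖rd b q (x i / 2 ^ q)‖ ^ 2) +
       2 * (if x i / 2 ^ q = x (i + 1) / 2 ^ q then 0 else ‖rd b q (x (i + 1) / 2 ^ q)‖ ^ 2)) := by
    intro i hi
    rw [mem_range] at hi
    have e : b (x (i + 1)) - b (x i) = ∑ q ∈ range Q, (rd b q (x (i + 1) / 2 ^ q) - rd b q (x i / 2 ^ q)) := by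
      rw [sum_sub_distrib, sum_rd b Q _ (hxQ (i + 1) hi), sum_rd b Q _ (hxQ i hi.le)]
      abel
    rw [e]
    have h2 : ‖∑ q ∈ range Q, (rd b q (x (i + 1) / 2 ^ q) - rd b q (x i / 2 ^ q))‖ ^ 2 ≤
        (∑ q ∈ range Q, ‖rd b q (x (i + 1) / 2 ^ q) - rd b q (x i / 2 ^ q)‖) ^ 2 :=
      pow_le_pow_left₀ (norm_nonneg _) (norm_sum_le _ _) 2
    have h3 := sq_sum_le_card_mul_sum_sq (s := range Q)
      (f := fun q => ‖rd b q (x (i + 1) / 2 ^ q) - rd b q (x i / 2 ^ q)‖)
    rw [card_range] at h3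
    refine h2.trans (h3.trans (mul_le_mul_of_nonneg_left (sum_le_sum fun q _ => ?_) (Nat.cast_nonneg _)))
    split_ifs with h4
    · rw [h4, sub_self, norm_zero]
      norm_num
    · have h5 := norm_sub_le (rd b q (x (i + 1) / 2 ^ q)) (rd b q (x i / 2 ^ q))
      have h6 := norm_nonneg (rd b q (x (i + 1) / 2 ^ q) - rd b q (x i / 2 ^ q))
      nlinarith [sq_nonneg (‖rd b q (x (i + 1) / 2 ^ q)‖ - ‖rd b q (x i / 2 ^ q)‖)]
  refine (sum_le_sum h1).trans ?_
  rw [← mul_sum, sum_comm]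
  have h7 : ∀ q ∈ range Q, ∑ i ∈ range L,
      (2 * (if x i / 2 ^ q = x (i + 1) / 2 ^ q then 0 else ‖rd b q (x i / 2 ^ q)‖ ^ 2) +
       2 * (if x i / 2 ^ q = x (i + 1) / 2 ^ q then 0 else ‖rd b q (x (i + 1) / 2 ^ q)‖ ^ 2)) ≤
      4 * ∑ w ∈ range (2 ^ (Q - q)), ‖b ((w + 1) * 2 ^ q) - b (w * 2 ^ q)‖ ^ 2 := by
    intro q hq
    rw [mem_range] at hq
    rw [sum_add_distrib, ← mul_sum, ← mul_sum]
    have hv : ∀ i < L, x i / 2 ^ q ≤ x (i + 1) / 2 ^ q := fun i hi => Nat.div_le_div_right (hx i hi)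
    have h8 := jump_left (e := fun w => ‖rd b q w‖ ^ 2) (fun w => by positivity) (v := fun i => x i / 2 ^ q) L hv
    have h9 := jump_right (e := fun w => ‖rd b q w‖ ^ 2) (fun w => by positivity) (v := fun i => x i / 2 ^ q) L hv
    have h10 : x L / 2 ^ q + 1 ≤ 2 ^ (Q - q) := by
      rw [Nat.succ_le_iff, Nat.div_lt_iff_lt_mul (by positivity), ← pow_add]
      rw [Nat.sub_add_cancel hq.le]
      exact hQ
    have h11 : ∑ w ∈ range (x L / 2 ^ q + 1), ‖rd b q w‖ ^ 2 ≤
        ∑ w ∈ range (2 ^ (Q - q)), ‖b ((w + 1) * 2 ^ q) - b (w * 2 ^ q)‖ ^ 2 :=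
      (sum_le_sum_of_subset_of_nonneg (range_mono h10) fun w _ _ => by positivity).trans (sum_sq_rd_le b q _)
    linarith
  have h12 := sum_le_sum h7
  rw [← mul_sum] at h12
  calc (Q : ℝ) * _ ≤ Q * (4 * VQ b Q) := mul_le_mul_of_nonneg_left h12 (Nat.cast_nonneg _)
    _ = 4 * Q * VQ b Q := by ring

/-- the grid -/
def grid (R : ℕ) : ℕ → ℕ
  | 0 => 1
  | r + 1 => grid R r + grid R r / R + 1

lemma grid_lt (R r : ℕ) : grid R r < grid R (r + 1) := by
  rw [grid]
  generalize grid R r / R = t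
  omega

lemma grid_mono (R : ℕ) : StrictMono (grid R) := strictMono_nat_of_lt_succ (grid_lt R)

lemma lt_grid (R r : ℕ) : r < grid R r := by
  induction r with
  | zero => rw [grid]; omega
  | succ r ih =>
    have := grid_lt R r
    omega

lemma grid_add {R : ℕ} (hR : 0 < R) (r k : ℕ) : (R + k) * grid R r ≤ R * grid R (r + k) := by
  induction k with
  | zero => rw [add_zero, add_zero]
  | succ k ih =>
    have h1 : grid R r ≤ grid R (r + k) := (grid_mono R).monotone (by omega)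
    have h2 : grid R (r + k) ≤ R * (grid R (r + k) / R + 1) := by
      have := Nat.lt_mul_div_succ (grid R (r + k)) hR
      exact this.le
    have e : grid R (r + (k + 1)) = grid R (r + k) + (grid R (r + k) / R + 1) := by
      rw [← add_assoc, grid, add_assoc]
    rw [e, mul_add]
    nlinarith

lemma two_grid {R : ℕ} (hR : 0 < R) {r s : ℕ} (h : r + R ≤ s) : 2 * grid R r ≤ grid R s := by
  have h1 := grid_add hR r R
  have h2 : grid R (r + R) ≤ grid R s := (grid_mono R).monotone h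
  have h3 : R * (2 * grid R r) ≤ R * grid R (r + R) := by
    calc R * (2 * grid R r) = (R + R) * grid R r := by ring
      _ ≤ _ := h1
  exact (Nat.le_of_mul_le_mul_left h3 hR).trans h2

lemma pow_le_grid {R : ℕ} (hR : 0 < R) (k : ℕ) : 2 ^ k ≤ grid R (R * k) := by
  induction k with
  | zero => rw [mul_zero, grid, pow_zero]
  | succ k ih =>
    have h1 := two_grid hR (r := R * k) (s := R * (k + 1)) (by rw [mul_add, mul_one])
    rw [pow_succ]
    omega

/-- the index in the grid -/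
def idx (R n : ℕ) : ℕ := Nat.findGreatest (fun r => grid R r ≤ n) n

lemma grid_idx_le (R : ℕ) {n : ℕ} (hn : 1 ≤ n) : grid R (idx R n) ≤ n := by
  have h : grid R 0 ≤ n := by
    rw [grid]
    exact hn
  exact Nat.findGreatest_spec (P := fun r => grid R r ≤ n) (Nat.zero_le n) h

lemma lt_grid_idx (R n : ℕ) : n < grid R (idx R n + 1) := by
  by_contra h
  rw [not_lt] at h
  have h1 : idx R n + 1 ≤ n := by
    have := lt_grid R (idx R n + 1)
    omega
  have h2 := Nat.le_findGreatest (P := fun r => grid R r ≤ n) h1 h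
  change idx R n + 1 ≤ idx R n at h2
  omega

lemma idx_mono (R : ℕ) {m n : ℕ} (hm : 1 ≤ m) (h : m ≤ n) : idx R m ≤ idx R n := by
  have h1 := grid_idx_le R hm
  have h2 := lt_grid R (idx R m)
  exact Nat.le_findGreatest (P := fun r => grid R r ≤ n) (by omega) (h1.trans h)

lemma idx_le {R : ℕ} (hR : 0 < R) {n : ℕ} (hn : 1 ≤ n) : 2 ^ (idx R n / R) ≤ n := by
  have h1 := pow_le_grid hR (idx R n / R)
  have h2 : grid R (R * (idx R n / R)) ≤ grid R (idx R n) := (grid_mono R).monotone (Nat.mul_div_le _ _)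
  exact h1.trans (h2.trans (grid_idx_le R hn))

end Pool.JMP
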