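import Pool.Agent.JMP.Good

set_option autoImplicit false
set_option linter.unusedSectionVars false

/-!
# JMP: from the dyadic differences along the grid to the number of fluctuations
-/

namespace Pool.JMP

open MeasureTheory Finset

variable {X : Type*}

lemma sum_II_sub {m n : ℕ} (h : m ≤ n) (F : ℤ → ℂ) {K : ℝ} (hK : ∀ k, ‖F k‖ ≤ K) :
    ‖∑ k ∈ II n, F k - ∑ k ∈ II m, F k‖ ≤ 2 * ((n : ℝ) - m) * K := by
  rw [← sum_sdiff (II_mono h), add_sub_cancel_right]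
  refine (norm_sum_le _ _).trans ((sum_le_sum fun k _ => hK k).trans (le_of_eq ?_))
  rw [sum_const, nsmul_eq_mul, card_sdiff_of_subset (II_mono h), Nat.cast_sub (card_le_card (II_mono h)),
    card_II, card_II]
  ring

/-- averages at neighbouring times -/
lemma EC_close {Φ : ℤ → X → ℂ} {x : X} {K : ℝ} (hK : ∀ k, ‖Φ k x‖ ≤ K) {m n : ℕ} (h : m ≤ n) :
    ‖EC Φ n x - EC Φ m x‖ ≤ 4 * K * ((n : ℝ) - m) / (2 * (n : ℝ) + 1) := by
  have hK0 : 0 ≤ K := (norm_nonneg _).trans (hK 0)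
  have hmn : (m : ℝ) ≤ n := by exact_mod_cast h
  have hn0 : (0 : ℝ) < 2 * (n : ℝ) + 1 := by positivity
  have hm0 : (0 : ℝ) < 2 * (m : ℝ) + 1 := by positivity
  set A := ∑ k ∈ II n, Φ k x with hA
  set B := ∑ k ∈ II m, Φ k x with hB
  have h1 : ‖A - B‖ ≤ 2 * ((n : ℝ) - m) * K := sum_II_sub h _ hK
  have h2 : ‖B‖ ≤ (2 * (m : ℝ) + 1) * K := by
    refine (norm_sum_le _ _).trans ((sum_le_sum fun k _ => hK k).trans (le_of_eq ?_))
    rw [sum_const, nsmul_eq_mul, card_II]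
  have hn : ((2 * n + 1 : ℕ) : ℂ) = ((2 * (n : ℝ) + 1 : ℝ) : ℂ) := by push_cast; ring
  have hm : ((2 * m + 1 : ℕ) : ℂ) = ((2 * (m : ℝ) + 1 : ℝ) : ℂ) := by push_cast; ring
  have e : EC Φ n x - EC Φ m x = ((2 * (n : ℝ) + 1 : ℝ) : ℂ)⁻¹ * (A - B) -
      ((((2 * (m : ℝ) + 1)⁻¹ - (2 * (n : ℝ) + 1)⁻¹ : ℝ)) : ℂ) * B := by
    rw [EC, EC, hn, hm]
    push_cast
    ring
  rw [e]
  have h3 : (0 : ℝ) ≤ (2 * (m : ℝ) + 1)⁻¹ - (2 * (n : ℝ) + 1)⁻¹ := by
    rw [sub_nonneg]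
    exact inv_anti₀ hm0 (by linarith)
  have h4 : ‖((2 * (n : ℝ) + 1 : ℝ) : ℂ)⁻¹ * (A - B)‖ ≤ (2 * (n : ℝ) + 1)⁻¹ * (2 * ((n : ℝ) - m) * K) := by
    rw [norm_mul, norm_inv, Complex.norm_real, Real.norm_of_nonneg hn0.le]
    exact mul_le_mul_of_nonneg_left h1 (by positivity)
  have h5 : ‖((((2 * (m : ℝ) + 1)⁻¹ - (2 * (n : ℝ) + 1)⁻¹ : ℝ)) : ℂ) * B‖ ≤
      ((2 * (m : ℝ) + 1)⁻¹ - (2 * (n : ℝ) + 1)⁻¹) * ((2 * (m : ℝ) + 1) * K) := by
    rw [norm_mul, Complex.norm_real, Real.norm_of_nonneg h3]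
    exact mul_le_mul_of_nonneg_left h2 h3
  refine (norm_sub_le _ _).trans ((add_le_add h4 h5).trans (le_of_eq ?_))
  field_simp
  ring

lemma EC_grid {Φ : ℤ → X → ℂ} {x : X} {K : ℝ} (hK : ∀ k, ‖Φ k x‖ ≤ K) {R : ℕ} (hR : 0 < R) {n : ℕ} (hn : 1 ≤ n) :
    ‖EC Φ n x - EC Φ (grid R (idx R n)) x‖ ≤ 2 * K / R := by
  have hK0 : 0 ≤ K := (norm_nonneg _).trans (hK 0)
  set m := grid R (idx R n) with hm
  have h1 : m ≤ n := grid_idx_le R hn
  have h2 : n < grid R (idx R n + 1) := lt_grid_idx R n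
  rw [grid, ← hm] at h2
  have hR' : (0 : ℝ) < R := by exact_mod_cast hR
  have h3 : ((n - m : ℕ) : ℝ) * R ≤ m := by
    have h4 : (n - m) * R ≤ m := by
      have h5 : n - m ≤ m / R := by
        generalize m / R = t at h2 ⊢
        omega
      exact (Nat.mul_le_mul_right R h5).trans (Nat.div_mul_le_self m R)
    exact_mod_cast h4
  rw [Nat.cast_sub h1] at h3
  have hmn : (m : ℝ) ≤ n := by exact_mod_cast h1
  refine (EC_close hK h1).trans ?_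
  rw [div_le_div_iff₀ (by positivity) hR']
  have h6 : 4 * K * ((n : ℝ) - m) * R ≤ 4 * K * m := by
    rw [mul_assoc]
    exact mul_le_mul_of_nonneg_left h3 (by positivity)
  have h7 : K * m ≤ K * n := mul_le_mul_of_nonneg_left hmn hK0
  nlinarith

/-- the count of the fluctuations before `N` -/
lemma count_le {Φ : ℤ → X → ℂ} {x : X} {K : ℝ} (hK : ∀ k, ‖Φ k x‖ ≤ K) {R : ℕ} (hR : 0 < R) {ε : ℝ}
    (hRε : 8 * K ≤ ε * R) (hε : 0 < ε) {Q N L : ℕ} {M : ℕ → ℕ} (hM0 : 1 ≤ M 0) (hM : ∀ i < L, M i < M (i + 1))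
    (hMN : M L ≤ N) (hQ : idx R N < 2 ^ Q) (hj : ∀ i < L, ε ≤ ‖EC Φ (M (i + 1)) x - EC Φ (M i) x‖) :
    (L : ℝ) * (ε / 2) ^ 2 ≤ 4 * Q * VQ (fun r => EC Φ (grid R r) x) Q := by
  have hR' : (0 : ℝ) < R := by exact_mod_cast hR
  have hpos : ∀ i ≤ L, 1 ≤ M i := by
    intro i
    induction i with
    | zero => intro _; exact hM0
    | succ i ih =>
      intro hi
      have := hM i (by omega)
      have := ih (by omega)
      omega
  have h1 : ∀ i < L, ε / 2 ≤ ‖EC Φ (grid R (idx R (M (i + 1)))) x - EC Φ (grid R (idx R (M i))) x‖ := by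
    intro i hi
    have h2 := hj i hi
    have h3 := EC_grid hK hR (hpos (i + 1) hi)
    have h4 := EC_grid hK hR (hpos i hi.le)
    have h5 : 2 * K / R ≤ ε / 4 := by
      rw [div_le_div_iff₀ hR' (by norm_num)]
      linarith
    have e : EC Φ (M (i + 1)) x - EC Φ (M i) x =
        (EC Φ (M (i + 1)) x - EC Φ (grid R (idx R (M (i + 1)))) x) +
        (EC Φ (grid R (idx R (M (i + 1)))) x - EC Φ (grid R (idx R (M i))) x) -
        (EC Φ (M i) x - EC Φ (grid R (idx R (M i))) x) := by ring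
    rw [e] at h2
    have h6 := norm_sub_le ((EC Φ (M (i + 1)) x - EC Φ (grid R (idx R (M (i + 1)))) x) +
        (EC Φ (grid R (idx R (M (i + 1)))) x - EC Φ (grid R (idx R (M i))) x))
        (EC Φ (M i) x - EC Φ (grid R (idx R (M i))) x)
    have h7 := norm_add_le (EC Φ (M (i + 1)) x - EC Φ (grid R (idx R (M (i + 1)))) x)
        (EC Φ (grid R (idx R (M (i + 1)))) x - EC Φ (grid R (idx R (M i))) x)
    linarith
  have h8 := chain_le (fun r => EC Φ (grid R r) x) (Q := Q) (L := L) (x := fun i => idx R (M i))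
    (fun i hi => idx_mono R (hpos i hi.le) (hM i hi).le)
    ((idx_mono R (hpos L le_rfl) hMN).trans_lt hQ)
  refine le_trans ?_ h8
  calc (L : ℝ) * (ε / 2) ^ 2 = ∑ i ∈ range L, (ε / 2) ^ 2 := by
        rw [sum_const, card_range, nsmul_eq_mul]
    _ ≤ _ := sum_le_sum fun i hi => pow_le_pow_left₀ (by positivity) (h1 i (mem_range.1 hi)) 2

lemma two_pow_log_le {R N : ℕ} (hR : 0 < R) (hN : 3 ≤ N) :
    (2 : ℝ) ^ (Nat.log 2 (idx R N) + 1) ≤ 8 * R * Real.log N := by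
  have hN' : (3 : ℝ) ≤ N := by exact_mod_cast hN
  have hl1 : 1 ≤ Real.log N := by
    rw [Real.le_log_iff_exp_le (by linarith)]
    have := Real.exp_one_lt_d9
    linarith
  have h1 : 2 ^ Nat.log 2 (idx R N) ≤ idx R N + 1 := by
    rcases Nat.eq_zero_or_pos (idx R N) with h | h
    · rw [h]
      simp
    · exact (Nat.pow_log_le_self 2 h.ne').trans (Nat.le_succ _)
  have h2 : idx R N + 1 ≤ R * (idx R N / R + 1) := Nat.lt_mul_div_succ (idx R N) hR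
  have h3 : ((idx R N / R : ℕ) : ℝ) * Real.log 2 ≤ Real.log N := by
    have h4 := idx_le hR (n := N) (by omega)
    have h5 : ((2 : ℝ)) ^ (idx R N / R) ≤ N := by exact_mod_cast h4
    have h6 := Real.log_le_log (by positivity) h5
    rwa [Real.log_pow] at h6
  have h7 : (0.6931471803 : ℝ) < Real.log 2 := Real.log_two_gt_d9
  have h8 : ((idx R N / R : ℕ) : ℝ) ≤ 2 * Real.log N := by
    have : (0 : ℝ) ≤ ((idx R N / R : ℕ) : ℝ) := Nat.cast_nonneg _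
    nlinarith
  have h9 : ((2 ^ Nat.log 2 (idx R N) : ℕ) : ℝ) ≤ ((R * (idx R N / R + 1) : ℕ) : ℝ) := by
    exact_mod_cast h1.trans h2
  push_cast at h9
  rw [pow_succ]
  have hR' : (1 : ℝ) ≤ R := by exact_mod_cast hR
  have h10 : (R : ℝ) * (((idx R N / R : ℕ) : ℝ) + 1) ≤ R * (4 * Real.log N) := by
    refine mul_le_mul_of_nonneg_left ?_ (by linarith)
    linarith
  nlinarith

/-- **the number of fluctuations**: from `Good` -/
theorem count_good {Φ : ℤ → X → ℂ} {x : X} {K : ℝ} (hK : ∀ k, ‖Φ k x‖ ≤ K) {δ : ℝ} (hδ : 0 < δ) (hδ1 : δ ≤ 1)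
    (hg : ∀ R : ℕ, 0 < R → ∃ C : ℝ, ∀ Q : ℕ,
      VQ (fun r => EC Φ (grid R r) x) Q ≤ C * (2 : ℝ) ^ ((Q : ℝ) * (1 - δ / 2))) {ε : ℝ} (hε : 0 < ε) :
    ∀ᶠ N : ℕ in Filter.atTop, ∀ (L : ℕ) (M : ℕ → ℕ), 1 ≤ M 0 → (∀ i < L, M i < M (i + 1)) → M L ≤ N →
      (∀ i < L, ε ≤ ‖EC Φ (M (i + 1)) x - EC Φ (M i) x‖) → (L : ℝ) ≤ (Real.log N) ^ (1 - δ / 4) := by
  have hK0 : 0 ≤ K := (norm_nonneg _).trans (hK 0)
  obtain ⟨R, hR1⟩ := exists_nat_gt (8 * K / ε)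
  have hR'' : (0 : ℝ) < R := lt_of_le_of_lt (by positivity) hR1
  have hR : 0 < R := by exact_mod_cast hR''
  have hRε : 8 * K ≤ ε * R := by
    rw [div_lt_iff₀ hε] at hR1
    linarith
  obtain ⟨C, hC⟩ := hg R hR
  have hC0 : 0 ≤ C := by
    have h1 := (VQ_nonneg (fun r => EC Φ (grid R r) x) 0).trans (hC 0)
    simpa using h1
  -- constants
  set K1 : ℝ := 16 / ε ^ 2 * C * (8 / (δ * Real.log 2)) * (8 * R : ℝ) ^ (1 - δ / 2 + δ / 8) with hK1
  have hlog2 : 0 < Real.log 2 := Real.log_pos (by norm_num)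
  have hev : ∀ᶠ N : ℕ in Filter.atTop, K1 ≤ (Real.log N) ^ (δ / 8) :=
    ((tendsto_rpow_atTop (by positivity : 0 < δ / 8)).comp
      (Real.tendsto_log_atTop.comp tendsto_natCast_atTop_atTop)).eventually_ge_atTop K1
  filter_upwards [hev, Filter.eventually_ge_atTop 3] with N hN hN3 L M hM0 hM hMN hj
  set Q := Nat.log 2 (idx R N) + 1 with hQ
  have hQlt : idx R N < 2 ^ Q := Nat.lt_pow_succ_log_self (by norm_num) _
  have h1 := count_le hK hR hRε hε hM0 hM hMN hQlt hj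
  have h2 := hC Q
  have hN' : (3 : ℝ) ≤ N := by exact_mod_cast hN3
  have hl1 : 1 ≤ Real.log N := by
    rw [Real.le_log_iff_exp_le (by linarith)]
    have := Real.exp_one_lt_d9
    linarith
  have hl0 : 0 < Real.log N := by linarith
  -- `Q ≤ K 2^(Q δ / 8)`
  have h3 : (Q : ℝ) ≤ 8 / (δ * Real.log 2) * (2 : ℝ) ^ ((Q : ℝ) * (δ / 8)) := by
    have h4 : (Q : ℝ) * (δ / 8) * Real.log 2 ≤ (2 : ℝ) ^ ((Q : ℝ) * (δ / 8)) := by
      rw [Real.rpow_def_of_pos (by norm_num)]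
      have := Real.add_one_le_exp (Real.log 2 * ((Q : ℝ) * (δ / 8)))
      linarith
    rw [div_mul_eq_mul_div, le_div_iff₀ (by positivity)]
    linarith
  have h5 : (2 : ℝ) ^ ((Q : ℝ) * (δ / 8)) * (2 : ℝ) ^ ((Q : ℝ) * (1 - δ / 2)) ≤
      (8 * R * Real.log N) ^ (1 - δ / 2 + δ / 8) := by
    rw [← Real.rpow_add (by norm_num), ← mul_add, add_comm (δ / 8), Real.rpow_mul (by norm_num), Real.rpow_natCast]
    refine Real.rpow_le_rpow (by positivity) (two_pow_log_le hR hN3) (by linarith)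
  have h6 : (L : ℝ) ≤ K1 * (Real.log N) ^ (1 - δ / 2 + δ / 8) := by
    have h7 : (L : ℝ) * (ε / 2) ^ 2 ≤ 4 * (8 / (δ * Real.log 2)) * C * (8 * R * Real.log N) ^ (1 - δ / 2 + δ / 8) := by
      calc (L : ℝ) * (ε / 2) ^ 2 ≤ 4 * Q * VQ (fun r => EC Φ (grid R r) x) Q := h1
        _ ≤ 4 * Q * (C * (2 : ℝ) ^ ((Q : ℝ) * (1 - δ / 2))) := mul_le_mul_of_nonneg_left h2 (by positivity)
        _ ≤ 4 * (8 / (δ * Real.log 2) * (2 : ℝ) ^ ((Q : ℝ) * (δ / 8))) * (C * (2 : ℝ) ^ ((Q : ℝ) * (1 - δ / 2))) := by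
            refine mul_le_mul_of_nonneg_right ?_ (by positivity)
            exact mul_le_mul_of_nonneg_left h3 (by norm_num)
        _ = 4 * (8 / (δ * Real.log 2)) * C * ((2 : ℝ) ^ ((Q : ℝ) * (δ / 8)) * (2 : ℝ) ^ ((Q : ℝ) * (1 - δ / 2))) := by
            ring
        _ ≤ _ := mul_le_mul_of_nonneg_left h5 (by positivity)
    rw [Real.mul_rpow (by positivity) hl0.le] at h7
    have h8 : (L : ℝ) = (L : ℝ) * (ε / 2) ^ 2 * (4 / ε ^ 2) := by
      field_simp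
      ring
    rw [h8, hK1]
    calc (L : ℝ) * (ε / 2) ^ 2 * (4 / ε ^ 2) ≤ (4 * (8 / (δ * Real.log 2)) * C *
          ((8 * R : ℝ) ^ (1 - δ / 2 + δ / 8) * (Real.log N) ^ (1 - δ / 2 + δ / 8))) * (4 / ε ^ 2) :=
          mul_le_mul_of_nonneg_right h7 (by positivity)
      _ = _ := by ring
  calc (L : ℝ) ≤ K1 * (Real.log N) ^ (1 - δ / 2 + δ / 8) := h6
    _ ≤ (Real.log N) ^ (δ / 8) * (Real.log N) ^ (1 - δ / 2 + δ / 8) := mul_le_mul_of_nonneg_right hN (by positivity)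
    _ = (Real.log N) ^ (1 - δ / 4) := by
        rw [← Real.rpow_add hl0]
        congr 1
        ring

end Pool.JMP
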