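import Pool.Agent.JMP.Ker
import Pool.Agent.JMP.Det

set_option autoImplicit false
set_option linter.unusedSectionVars false

/-!
# JMP: almost everywhere bounds for the dyadic differences along the grid
-/

namespace Pool.JMP

open MeasureTheory Finset
open scoped ENNReal

lemma sum_le_res {u : ℕ → ℝ} (hu : ∀ w, 0 ≤ u w) {R : ℕ} (W : ℕ) :
    ∑ w ∈ range W, u w ≤ ∑ a ∈ range (R + 1), ∑ i ∈ range W, u (a + (R + 1) * i) := by
  have hinj : Set.InjOn (fun w : ℕ => (w % (R + 1), w / (R + 1))) (range W : Set ℕ) := by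
    intro w _ w' _ h
    simp only [Prod.mk.injEq] at h
    rw [← Nat.mod_add_div w (R + 1), ← Nat.mod_add_div w' (R + 1), h.1, h.2]
  rw [← sum_product']
  calc ∑ w ∈ range W, u w = ∑ p ∈ (range W).image (fun w : ℕ => (w % (R + 1), w / (R + 1))),
        u (p.1 + (R + 1) * p.2) := by
        rw [sum_image hinj]
        exact sum_congr rfl fun w _ => by rw [Nat.mod_add_div]
    _ ≤ _ := by
        refine sum_le_sum_of_subset_of_nonneg (fun p hp => ?_) fun _ _ _ => hu _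
        rw [mem_image] at hp
        obtain ⟨w, hw, rfl⟩ := hp
        rw [mem_range] at hw
        rw [mem_product, mem_range, mem_range]
        exact ⟨Nat.mod_lt _ (Nat.succ_pos R), (Nat.div_le_self _ _).trans_lt hw⟩

/-- the complex average -/
noncomputable def EC {X : Type*} (Φ : ℤ → X → ℂ) (N : ℕ) (x : X) : ℂ :=
  ((2 * N + 1 : ℕ) : ℂ)⁻¹ * ∑ n ∈ II N, Φ n x

lemma EC_ofReal {X : Type*} (Φ : ℤ → X → ℝ) (N : ℕ) (x : X) :
    EC (fun n x => (Φ n x : ℂ)) N x = (EA Φ N x : ℂ) := by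
  rw [EC, EA]
  push_cast
  rfl

lemma EC_add {X : Type*} (Φ Ψ : ℤ → X → ℂ) (N : ℕ) (x : X) :
    EC (fun n x => Φ n x + Ψ n x) N x = EC Φ N x + EC Ψ N x := by
  rw [EC, EC, EC, sum_add_distrib, mul_add]

lemma EC_smul {X : Type*} (a : ℂ) (Φ : ℤ → X → ℂ) (N : ℕ) (x : X) :
    EC (fun n x => a * Φ n x) N x = a * EC Φ N x := by
  rw [EC, EC, ← mul_sum]
  ring

variable {X : Type*} [MeasurableSpace X]

/-- the dyadic differences along all the grids are controlled almost everywhere -/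
def Good (μ : Measure X) (e : ℝ) (Φ : ℤ → X → ℂ) : Prop := ∀ R : ℕ, 0 < R → ∀ᵐ x ∂μ, ∃ C : ℝ, ∀ Q : ℕ,
  VQ (fun r => EC Φ (grid R r) x) Q ≤ C * (2 : ℝ) ^ ((Q : ℝ) * e)

lemma VQ_nonneg {E : Type*} [SeminormedAddCommGroup E] (b : ℕ → E) (Q : ℕ) : 0 ≤ VQ b Q :=
  sum_nonneg fun _ _ => sum_nonneg fun _ _ => by positivity

lemma VQ_add_le {E : Type*} [SeminormedAddCommGroup E] (b b' : ℕ → E) (Q : ℕ) :
    VQ (fun r => b r + b' r) Q ≤ 2 * VQ b Q + 2 * VQ b' Q := by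
  simp only [VQ, mul_sum, ← sum_add_distrib]
  refine sum_le_sum fun q _ => sum_le_sum fun w _ => ?_
  have e : b ((w + 1) * 2 ^ q) + b' ((w + 1) * 2 ^ q) - (b (w * 2 ^ q) + b' (w * 2 ^ q)) =
      (b ((w + 1) * 2 ^ q) - b (w * 2 ^ q)) + (b' ((w + 1) * 2 ^ q) - b' (w * 2 ^ q)) := by abel
  rw [e]
  have h1 := norm_add_le (b ((w + 1) * 2 ^ q) - b (w * 2 ^ q)) (b' ((w + 1) * 2 ^ q) - b' (w * 2 ^ q))
  have h2 := norm_nonneg ((b ((w + 1) * 2 ^ q) - b (w * 2 ^ q)) + (b' ((w + 1) * 2 ^ q) - b' (w * 2 ^ q)))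
  nlinarith [sq_nonneg (‖b ((w + 1) * 2 ^ q) - b (w * 2 ^ q)‖ - ‖b' ((w + 1) * 2 ^ q) - b' (w * 2 ^ q)‖)]

lemma VQ_mul (a : ℂ) (b : ℕ → ℂ) (Q : ℕ) : VQ (fun r => a * b r) Q = ‖a‖ ^ 2 * VQ b Q := by
  simp only [VQ, mul_sum]
  refine sum_congr rfl fun q _ => sum_congr rfl fun w _ => ?_
  rw [← mul_sub, norm_mul, mul_pow]

lemma Good.add {μ : Measure X} {e : ℝ} {Φ Ψ : ℤ → X → ℂ} (h : Good μ e Φ) (h' : Good μ e Ψ) :
    Good μ e (fun n x => Φ n x + Ψ n x) := by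
  intro R hR
  filter_upwards [h R hR, h' R hR] with x hx hx'
  obtain ⟨C, hC⟩ := hx
  obtain ⟨C', hC'⟩ := hx'
  refine ⟨2 * C + 2 * C', fun Q => ?_⟩
  simp only [EC_add]
  refine (VQ_add_le _ _ Q).trans ?_
  have h1 := hC Q
  have h2 := hC' Q
  nlinarith

lemma Good.smul {μ : Measure X} {e : ℝ} {Φ : ℤ → X → ℂ} (h : Good μ e Φ) (a : ℂ) :
    Good μ e (fun n x => a * Φ n x) := by
  intro R hR
  filter_upwards [h R hR] with x hx
  obtain ⟨C, hC⟩ := hx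
  refine ⟨‖a‖ ^ 2 * C, fun Q => ?_⟩
  simp only [EC_smul, VQ_mul]
  rw [mul_assoc]
  exact mul_le_mul_of_nonneg_left (hC Q) (by positivity)

lemma Good.zero (μ : Measure X) (e : ℝ) : Good μ e (fun _ _ => 0) := by
  intro R _
  refine Filter.Eventually.of_forall fun x => ⟨0, fun Q => ?_⟩
  simp [EC, VQ]

/-- Borel–Cantelli -/
lemma ae_bd {μ : Measure X} {V : ℕ → X → ℝ} (hm : ∀ Q, Measurable (V Q)) (h0 : ∀ Q x, 0 ≤ V Q x)
    (hi : ∀ Q, Integrable (V Q) μ) {B : ℕ → ℝ} (hB : Summable B) (h : ∀ Q, ∫ x, V Q x ∂μ ≤ B Q) :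
    ∀ᵐ x ∂μ, ∃ C : ℝ, ∀ Q, V Q x ≤ C := by
  have h1 : ∫⁻ x, ∑' Q, ENNReal.ofReal (V Q x) ∂μ ≠ ⊤ := by
    rw [lintegral_tsum fun Q => (hm Q).ennreal_ofReal.aemeasurable]
    refine ne_top_of_le_ne_top (Summable.tsum_ofReal_ne_top hB) (ENNReal.tsum_le_tsum fun Q => ?_)
    rw [← ofReal_integral_eq_lintegral_ofReal (hi Q) (Filter.Eventually.of_forall fun x => h0 Q x)]
    exact ENNReal.ofReal_le_ofReal (h Q)
  filter_upwards [ae_lt_top (Measurable.tsum fun Q => (hm Q).ennreal_ofReal) h1] with x hx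
  refine ⟨(∑' Q, ENNReal.ofReal (V Q x)).toReal, fun Q => ?_⟩
  rw [← ENNReal.ofReal_le_iff_le_toReal hx.ne]
  exact ENNReal.le_tsum Q

variable {G : Type*} [Group G] [MulAction G X] [MeasurableConstSMul G X] {μ : Measure X}
  [IsProbabilityMeasure μ] [SMulInvariantMeasure G X μ]

lemma EA_meas {L : List (ℤ → G)} {Φ : ℤ → X → ℝ} (hΦ : IsP L Φ) (N : ℕ) : Measurable (EA Φ N) :=
  (Finset.measurable_sum _ fun n _ => (hΦ.bd n).1).const_mul _

lemma EA_le {L : List (ℤ → G)} {Φ : ℤ → X → ℝ} (hΦ : IsP L Φ) (N : ℕ) (x : X) : |EA Φ N x| ≤ 1 := by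
  rw [EA, abs_mul, abs_of_nonneg (by positivity : (0 : ℝ) ≤ (2 * (N : ℝ) + 1)⁻¹)]
  have h1 : |∑ n ∈ II N, Φ n x| ≤ 2 * (N : ℝ) + 1 := by
    refine (abs_sum_le_sum_abs _ _).trans ((sum_le_sum fun n _ => (hΦ.bd n).2 x).trans (le_of_eq ?_))
    rw [sum_const, nsmul_eq_mul, card_II, mul_one]
  calc (2 * (N : ℝ) + 1)⁻¹ * |∑ n ∈ II N, Φ n x| ≤ (2 * (N : ℝ) + 1)⁻¹ * (2 * (N : ℝ) + 1) :=
        mul_le_mul_of_nonneg_left h1 (by positivity)
    _ = 1 := inv_mul_cancel₀ (by positivity)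

lemma level_bd {c : ℕ} {L : List (ℤ → G)} (h : Cx c L) {Φ : ℤ → X → ℝ} (hΦ : IsP L Φ) {R : ℕ} (hR : 0 < R)
    (q W : ℕ) : ∑ w ∈ range W, ∫ x, (EA Φ (grid R ((w + 1) * 2 ^ q)) x - EA Φ (grid R (w * 2 ^ q)) x) ^ 2 ∂μ ≤
      (R + 1) * (16 * (W : ℝ) ^ (1 - (1 / 4 : ℝ) ^ c)) := by
  refine (sum_le_res (R := R) (u := fun w => ∫ x, (EA Φ (grid R ((w + 1) * 2 ^ q)) x -
    EA Φ (grid R (w * 2 ^ q)) x) ^ 2 ∂μ) (fun w => integral_nonneg fun x => sq_nonneg _) W).trans ?_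
  calc _ ≤ ∑ a ∈ range (R + 1), 16 * (W : ℝ) ^ (1 - (1 / 4 : ℝ) ^ c) := by
        refine sum_le_sum fun a _ => ?_
        refine pairs_bd (μ := μ) h hΦ (J := W) (M := fun i => grid R ((a + (R + 1) * i) * 2 ^ q))
          (N := fun i => grid R ((a + (R + 1) * i + 1) * 2 ^ q)) (fun i _ => ?_) (fun i _ => ?_)
        · exact (grid_mono R).monotone (Nat.mul_le_mul_right _ (Nat.le_succ _))
        · refine two_grid hR ?_
          have h2 : R ≤ R * 2 ^ q := Nat.le_mul_of_pos_right _ (by positivity)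
          calc (a + (R + 1) * i + 1) * 2 ^ q + R ≤ (a + (R + 1) * i + 1) * 2 ^ q + R * 2 ^ q := by omega
            _ = (a + (R + 1) * (i + 1)) * 2 ^ q := by ring
    _ = _ := by
        rw [sum_const, card_range, nsmul_eq_mul]
        push_cast
        ring

/-- real products are good -/
theorem good_of_isP {c : ℕ} {L : List (ℤ → G)} (h : Cx c L) {Φ : ℤ → X → ℝ} (hΦ : IsP L Φ) :
    Good μ (1 - (1 / 4 : ℝ) ^ c / 2) (fun n x => (Φ n x : ℂ)) := by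
  intro R hR
  set δ : ℝ := (1 / 4 : ℝ) ^ c with hδ
  have hδ0 : 0 < δ := by positivity
  have hδ1 : δ ≤ 1 := pow_le_one₀ (by norm_num) (by norm_num)
  -- the real version
  have hreal : ∀ Q x, VQ (fun r => EC (fun n x => (Φ n x : ℂ)) (grid R r) x) Q =
      ∑ q ∈ range Q, ∑ w ∈ range (2 ^ (Q - q)),
        (EA Φ (grid R ((w + 1) * 2 ^ q)) x - EA Φ (grid R (w * 2 ^ q)) x) ^ 2 := by
    intro Q x
    rw [VQ]
    refine sum_congr rfl fun q _ => sum_congr rfl fun w _ => ?_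
    rw [EC_ofReal, EC_ofReal, ← Complex.ofReal_sub, Complex.norm_real, Real.norm_eq_abs, sq_abs]
  have hterm : ∀ a b : ℕ, Integrable (fun x => (EA Φ a x - EA Φ b x) ^ 2) μ := fun a b =>
    intg (C := 4) (((EA_meas hΦ a).sub (EA_meas hΦ b)).pow_const 2) fun x => by
      have h1 := abs_le.1 (EA_le hΦ a x)
      have h2 := abs_le.1 (EA_le hΦ b x)
      rw [abs_of_nonneg (sq_nonneg _)]
      nlinarith
  set S : ℕ → X → ℝ := fun Q x => ∑ q ∈ range Q, ∑ w ∈ range (2 ^ (Q - q)),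
        (EA Φ (grid R ((w + 1) * 2 ^ q)) x - EA Φ (grid R (w * 2 ^ q)) x) ^ 2 with hS
  have hS0 : ∀ Q x, 0 ≤ S Q x := fun Q x => sum_nonneg fun _ _ => sum_nonneg fun _ _ => sq_nonneg _
  have hSm : ∀ Q, Measurable (S Q) := fun Q => Finset.measurable_sum _ fun q _ => Finset.measurable_sum _ fun w _ =>
    ((EA_meas hΦ _).sub (EA_meas hΦ _)).pow_const 2
  have hSi : ∀ Q, Integrable (S Q) μ := fun Q => integrable_finsetSum _ fun q _ =>
    integrable_finsetSum _ fun w _ => hterm _ _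
  have hint : ∀ Q : ℕ, ∫ x, S Q x ∂μ ≤ Q * ((R + 1) * (16 * (2 : ℝ) ^ ((Q : ℝ) * (1 - δ)))) := by
    intro Q
    have e1 : ∫ x, S Q x ∂μ = ∑ q ∈ range Q, ∑ w ∈ range (2 ^ (Q - q)),
        ∫ x, (EA Φ (grid R ((w + 1) * 2 ^ q)) x - EA Φ (grid R (w * 2 ^ q)) x) ^ 2 ∂μ := by
      rw [hS, integral_finsetSum _ fun q _ => integrable_finsetSum _ fun w _ => hterm _ _]
      exact sum_congr rfl fun q _ => integral_finsetSum _ fun w _ => hterm _ _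
    rw [e1]
    calc _ ≤ ∑ q ∈ range Q, ((R : ℝ) + 1) * (16 * (2 : ℝ) ^ ((Q : ℝ) * (1 - δ))) := by
          refine sum_le_sum fun q _ => (level_bd (μ := μ) h hΦ hR q _).trans ?_
          refine mul_le_mul_of_nonneg_left (mul_le_mul_of_nonneg_left ?_ (by norm_num)) (by positivity)
          rw [Real.rpow_mul (by norm_num), Real.rpow_natCast]
          refine Real.rpow_le_rpow (by positivity) ?_ (by linarith)
          push_cast
          exact pow_le_pow_right₀ (by norm_num) (Nat.sub_le _ _)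
      _ = _ := by
          rw [sum_const, card_range, nsmul_eq_mul]
  -- normalisation
  set r : ℝ := (2 : ℝ) ^ (-(δ / 2)) with hr
  have hr0 : 0 < r := by positivity
  have hr1 : r < 1 := Real.rpow_lt_one_of_one_lt_of_neg (by norm_num) (by linarith)
  have hrQ : ∀ Q : ℕ, (2 : ℝ) ^ (-((Q : ℝ) * (1 - δ / 2))) * (2 : ℝ) ^ ((Q : ℝ) * (1 - δ)) = r ^ Q := by
    intro Q
    rw [← Real.rpow_add (by norm_num), hr, ← Real.rpow_natCast, ← Real.rpow_mul (by norm_num)]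
    congr 1
    ring
  have hsum : Summable fun Q : ℕ => (R + 1 : ℝ) * 16 * ((Q : ℝ) * r ^ Q) := by
    refine Summable.mul_left _ ?_
    have := summable_pow_mul_geometric_of_norm_lt_one (R := ℝ) 1 (r := r) (by
      rw [Real.norm_of_nonneg hr0.le]
      exact hr1)
    simpa only [pow_one] using this
  have key := ae_bd (μ := μ) (V := fun Q x => (2 : ℝ) ^ (-((Q : ℝ) * (1 - δ / 2))) * S Q x)
    (fun Q => (hSm Q).const_mul _) (fun Q x => mul_nonneg (by positivity) (hS0 Q x))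
    (fun Q => (hSi Q).const_mul _) hsum (fun Q => by
      rw [integral_const_mul]
      calc (2 : ℝ) ^ (-((Q : ℝ) * (1 - δ / 2))) * ∫ x, S Q x ∂μ
          ≤ (2 : ℝ) ^ (-((Q : ℝ) * (1 - δ / 2))) * (Q * ((R + 1) * (16 * (2 : ℝ) ^ ((Q : ℝ) * (1 - δ))))) :=
            mul_le_mul_of_nonneg_left (hint Q) (by positivity)
        _ = (R + 1 : ℝ) * 16 * ((Q : ℝ) * ((2 : ℝ) ^ (-((Q : ℝ) * (1 - δ / 2))) * (2 : ℝ) ^ ((Q : ℝ) * (1 - δ)))) := by
            ring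
        _ = _ := by rw [hrQ])
  filter_upwards [key] with x hx
  obtain ⟨C, hC⟩ := hx
  refine ⟨C, fun Q => ?_⟩
  rw [hreal]
  have h1 := hC Q
  have h2 : (2 : ℝ) ^ (-((Q : ℝ) * (1 - δ / 2))) * (2 : ℝ) ^ ((Q : ℝ) * (1 - δ / 2)) = 1 := by
    rw [← Real.rpow_add (by norm_num), neg_add_cancel, Real.rpow_zero]
  have h3 : (0 : ℝ) < (2 : ℝ) ^ ((Q : ℝ) * (1 - δ / 2)) := by positivity
  calc ∑ q ∈ range Q, ∑ w ∈ range (2 ^ (Q - q)),
        (EA Φ (grid R ((w + 1) * 2 ^ q)) x - EA Φ (grid R (w * 2 ^ q)) x) ^ 2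
      = ((2 : ℝ) ^ (-((Q : ℝ) * (1 - δ / 2))) * (2 : ℝ) ^ ((Q : ℝ) * (1 - δ / 2))) * S Q x := by rw [h2, one_mul]
    _ = ((2 : ℝ) ^ (-((Q : ℝ) * (1 - δ / 2))) * S Q x) * (2 : ℝ) ^ ((Q : ℝ) * (1 - δ / 2)) := by ring
    _ ≤ C * (2 : ℝ) ^ ((Q : ℝ) * (1 - δ / 2)) := mul_le_mul_of_nonneg_right h1 h3.le

end Pool.JMP
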