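import Pool.Agent.JMP.Cplx

set_option autoImplicit false
set_option linter.unusedSectionVars false

/-!
# JMP: the mean number of fluctuations, uniform constants, arbitrary finite sets of times
-/

namespace Pool.JMP

open MeasureTheory Finset
open scoped ENNReal

/-- the maximal number `L` of `ε`-fluctuations of `a` along a chain of times in `F` -/
noncomputable def jumps (a : ℕ → ℂ) (ε : ℝ) (F : Finset ℕ) : ℕ :=
  sSup {L : ℕ | ∃ M : ℕ → ℕ, (∀ i ≤ L, M i ∈ F) ∧ (∀ i < L, M i < M (i + 1)) ∧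
    ∀ i < L, ε ≤ ‖a (M (i + 1)) - a (M i)‖}

/-- the number of dyadic blocks `[2^j, 2^(j+1))` that contain times of `F` -/
def scales (F : Finset ℕ) : ℕ := (F.image (Nat.log 2)).card

lemma jumps_bdd (a : ℕ → ℂ) (ε : ℝ) (F : Finset ℕ) : BddAbove {L : ℕ | ∃ M : ℕ → ℕ, (∀ i ≤ L, M i ∈ F) ∧
    (∀ i < L, M i < M (i + 1)) ∧ ∀ i < L, ε ≤ ‖a (M (i + 1)) - a (M i)‖} := by
  refine ⟨F.card, fun L hL => ?_⟩
  obtain ⟨M, h1, h2, _⟩ := hL
  have hmono : ∀ k i, i + k ≤ L → M i + k ≤ M (i + k) := by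
    intro k
    induction k with
    | zero => intro i _; exact le_rfl
    | succ k ih =>
      intro i hi
      have h3 := ih i (by omega)
      have h4 := h2 (i + k) (by omega)
      rw [← add_assoc, ← add_assoc]
      omega
  have hinj : Set.InjOn M (range (L + 1) : Set ℕ) := by
    intro i hi j hj h
    rw [coe_range, Set.mem_Iio] at hi hj
    rcases lt_trichotomy i j with hij | hij | hij
    · have := hmono (j - i) i (by omega)
      rw [Nat.add_sub_cancel' hij.le] at this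
      omega
    · exact hij
    · have := hmono (i - j) j (by omega)
      rw [Nat.add_sub_cancel' hij.le] at this
      omega
  have h5 : (range (L + 1)).card ≤ F.card := card_le_card_of_injOn M (fun i hi => by
    rw [coe_range, Set.mem_Iio] at hi
    exact h1 i (by omega)) hinj
  rw [card_range] at h5
  omega

lemma le_jumps {a : ℕ → ℂ} {ε : ℝ} {F : Finset ℕ} {L : ℕ} {M : ℕ → ℕ} (h1 : ∀ i ≤ L, M i ∈ F)
    (h2 : ∀ i < L, M i < M (i + 1)) (h3 : ∀ i < L, ε ≤ ‖a (M (i + 1)) - a (M i)‖) : L ≤ jumps a ε F :=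
  le_csSup (jumps_bdd a ε F) ⟨M, h1, h2, h3⟩

lemma exists_chain (a : ℕ → ℂ) (ε : ℝ) {F : Finset ℕ} (hF : F.Nonempty) : ∃ M : ℕ → ℕ,
    (∀ i ≤ jumps a ε F, M i ∈ F) ∧ (∀ i < jumps a ε F, M i < M (i + 1)) ∧
    ∀ i < jumps a ε F, ε ≤ ‖a (M (i + 1)) - a (M i)‖ := by
  obtain ⟨n, hn⟩ := hF
  have h0 : (0 : ℕ) ∈ {L : ℕ | ∃ M : ℕ → ℕ, (∀ i ≤ L, M i ∈ F) ∧
    (∀ i < L, M i < M (i + 1)) ∧ ∀ i < L, ε ≤ ‖a (M (i + 1)) - a (M i)‖} :=
    ⟨fun _ => n, fun _ _ => hn, fun i hi => absurd hi (Nat.not_lt_zero i), fun i hi => absurd hi (Nat.not_lt_zero i)⟩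
  exact Nat.sSup_mem ⟨0, h0⟩ (jumps_bdd a ε F)

lemma le_jumps_iff {a : ℕ → ℂ} {ε : ℝ} {F : Finset ℕ} (hF : F.Nonempty) {L : ℕ} : L ≤ jumps a ε F ↔
    ∃ M : ℕ → ℕ, (∀ i ≤ L, M i ∈ F) ∧ (∀ i < L, M i < M (i + 1)) ∧ ∀ i < L, ε ≤ ‖a (M (i + 1)) - a (M i)‖ := by
  constructor
  · intro h
    obtain ⟨M, h1, h2, h3⟩ := exists_chain a ε hF
    exact ⟨M, fun i hi => h1 i (hi.trans h), fun i hi => h2 i (hi.trans_le h), fun i hi => h3 i (hi.trans_le h)⟩
  · rintro ⟨M, h1, h2, h3⟩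
    exact le_jumps h1 h2 h3

lemma jumps_meas {X : Type*} [MeasurableSpace X] {a : ℕ → X → ℂ} (ha : ∀ n, Measurable (a n)) (ε : ℝ) {F : Finset ℕ}
    (hF : F.Nonempty) : Measurable fun x => jumps (fun n => a n x) ε F := by
  refine measurable_of_Ici fun L => ?_
  have e : (fun x => jumps (fun n => a n x) ε F) ⁻¹' Set.Ici L = ⋃ M : Fin (L + 1) → ℕ,
      {x | (∀ i : Fin (L + 1), M i ∈ F) ∧ (∀ i : Fin L, M i.castSucc < M i.succ) ∧
        ∀ i : Fin L, ε ≤ ‖a (M i.succ) x - a (M i.castSucc) x‖} := by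
    ext x
    rw [Set.mem_preimage, Set.mem_Ici, le_jumps_iff hF, Set.mem_iUnion]
    constructor
    · rintro ⟨M, h1, h2, h3⟩
      exact ⟨fun i => M i, fun i => h1 i (Nat.lt_succ_iff.1 i.2), fun i => h2 i i.2, fun i => h3 i i.2⟩
    · rintro ⟨M, h1, h2, h3⟩
      have hM : ∀ (i : ℕ) (hi : i < L + 1), (if h : i < L + 1 then M ⟨i, h⟩ else 0) = M ⟨i, hi⟩ := fun i hi => dif_pos hi
      refine ⟨fun i => if h : i < L + 1 then M ⟨i, h⟩ else 0, fun i hi => ?_, fun i hi => ?_, fun i hi => ?_⟩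
      · simp only [hM i (Nat.lt_succ_iff.2 hi)]
        exact h1 _
      · simp only [hM i (by omega), hM (i + 1) (by omega)]
        exact h2 ⟨i, hi⟩
      · simp only [hM i (by omega), hM (i + 1) (by omega)]
        exact h3 ⟨i, hi⟩
  rw [e]
  refine MeasurableSet.iUnion fun M => ?_
  refine MeasurableSet.inter (MeasurableSet.const _) (MeasurableSet.inter (MeasurableSet.const _) ?_)
  have e2 : {x | ∀ i : Fin L, ε ≤ ‖a (M i.succ) x - a (M i.castSucc) x‖} =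
      ⋂ i : Fin L, {x | ε ≤ ‖a (M i.succ) x - a (M i.castSucc) x‖} := by
    ext x
    simp
  show MeasurableSet {x | ∀ i : Fin L, ε ≤ ‖a (M i.succ) x - a (M i.castSucc) x‖}
  rw [e2]
  exact MeasurableSet.iInter fun i => measurableSet_le measurable_const ((ha _).sub (ha _)).norm

/-- a grid: strictly monotone, doubles in `R` steps -/
structure Gr (R : ℕ) (g : ℕ → ℕ) : Prop where
  mono : StrictMono g
  two : ∀ r s, r + R ≤ s → 2 * g r ≤ g s

variable {X : Type*} [MeasurableSpace X]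

/-- square function bound on all the levels of all the grids, with constants -/
structure UB (μ : Measure X) (e B : ℝ) (Φ : ℤ → X → ℂ) : Prop where
  meas : ∀ n, Measurable (Φ n)
  bd : ∃ K : ℝ, ∀ n x, ‖Φ n x‖ ≤ K
  lev : ∀ (R : ℕ) (g : ℕ → ℕ), Gr R g → ∀ q W : ℕ,
    ∑ w ∈ range W, ∫ x, ‖EC Φ (g ((w + 1) * 2 ^ q)) x - EC Φ (g (w * 2 ^ q)) x‖ ^ 2 ∂μ ≤
      (R + 1) * (B * (W : ℝ) ^ e)

lemma EC_meas {Φ : ℤ → X → ℂ} (h : ∀ n, Measurable (Φ n)) (N : ℕ) : Measurable (EC Φ N) :=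
  (Finset.measurable_sum _ fun n _ => h n).const_mul _

lemma EC_le {Φ : ℤ → X → ℂ} {K : ℝ} (h : ∀ n x, ‖Φ n x‖ ≤ K) (N : ℕ) (x : X) : ‖EC Φ N x‖ ≤ K := by
  rw [EC, norm_mul, norm_inv]
  have e : ‖((2 * N + 1 : ℕ) : ℂ)‖ = 2 * (N : ℝ) + 1 := by
    rw [Complex.norm_natCast]
    push_cast
    rfl
  have h1 : ‖∑ n ∈ II N, Φ n x‖ ≤ (2 * (N : ℝ) + 1) * K := by
    refine (norm_sum_le _ _).trans ((sum_le_sum fun n _ => h n x).trans (le_of_eq ?_))
    rw [sum_const, nsmul_eq_mul, card_II]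
  rw [e]
  calc (2 * (N : ℝ) + 1)⁻¹ * ‖∑ n ∈ II N, Φ n x‖ ≤ (2 * (N : ℝ) + 1)⁻¹ * ((2 * (N : ℝ) + 1) * K) :=
        mul_le_mul_of_nonneg_left h1 (by positivity)
    _ = K := inv_mul_cancel_left₀ (by positivity) K

variable {μ : Measure X} [IsProbabilityMeasure μ]

lemma sq_int {Φ : ℤ → X → ℂ} (h : ∀ n, Measurable (Φ n)) (hb : ∃ K : ℝ, ∀ n x, ‖Φ n x‖ ≤ K) (a b : ℕ) :
    Integrable (fun x => ‖EC Φ a x - EC Φ b x‖ ^ 2) μ := by
  obtain ⟨K, hK⟩ := hb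
  refine intg (C := (K + K) ^ 2) (((EC_meas h a).sub (EC_meas h b)).norm.pow_const 2) fun x => ?_
  rw [abs_of_nonneg (by positivity)]
  exact pow_le_pow_left₀ (norm_nonneg _) ((norm_sub_le _ _).trans (add_le_add (EC_le hK a x) (EC_le hK b x))) 2

lemma UB.add {e B B' : ℝ} {Φ Ψ : ℤ → X → ℂ} (h : UB μ e B Φ) (h' : UB μ e B' Ψ) :
    UB μ e (2 * B + 2 * B') (fun n x => Φ n x + Ψ n x) := by
  refine ⟨fun n => (h.meas n).add (h'.meas n), ?_, fun R g hg q W => ?_⟩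
  · obtain ⟨K, hK⟩ := h.bd
    obtain ⟨K', hK'⟩ := h'.bd
    exact ⟨K + K', fun n x => (norm_add_le _ _).trans (add_le_add (hK n x) (hK' n x))⟩
  · have h1 : ∀ w ∈ range W, ∫ x, ‖EC (fun n x => Φ n x + Ψ n x) (g ((w + 1) * 2 ^ q)) x -
        EC (fun n x => Φ n x + Ψ n x) (g (w * 2 ^ q)) x‖ ^ 2 ∂μ ≤
        2 * ∫ x, ‖EC Φ (g ((w + 1) * 2 ^ q)) x - EC Φ (g (w * 2 ^ q)) x‖ ^ 2 ∂μ +
        2 * ∫ x, ‖EC Ψ (g ((w + 1) * 2 ^ q)) x - EC Ψ (g (w * 2 ^ q)) x‖ ^ 2 ∂μ := by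
      intro w _
      rw [← integral_const_mul, ← integral_const_mul,
        ← integral_add ((sq_int h.meas h.bd _ _).const_mul 2) ((sq_int h'.meas h'.bd _ _).const_mul 2)]
      refine integral_mono_of_nonneg (Filter.Eventually.of_forall fun x => by positivity)
        (((sq_int h.meas h.bd _ _).const_mul 2).add ((sq_int h'.meas h'.bd _ _).const_mul 2))
        (Filter.Eventually.of_forall fun x => ?_)
      simp only [EC_add]
      set a := EC Φ (g ((w + 1) * 2 ^ q)) x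
      set b := EC Ψ (g ((w + 1) * 2 ^ q)) x
      set a' := EC Φ (g (w * 2 ^ q)) x
      set b' := EC Ψ (g (w * 2 ^ q)) x
      have e1 : a + b - (a' + b') = (a - a') + (b - b') := by ring
      rw [e1]
      have h2 := norm_add_le (a - a') (b - b')
      have h3 := norm_nonneg ((a - a') + (b - b'))
      nlinarith [sq_nonneg (‖a - a'‖ - ‖b - b'‖)]
    refine (sum_le_sum h1).trans ?_
    rw [sum_add_distrib, ← mul_sum, ← mul_sum]
    have h2 := h.lev R g hg q W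
    have h3 := h'.lev R g hg q W
    calc _ ≤ 2 * ((R + 1) * (B * (W : ℝ) ^ e)) + 2 * ((R + 1) * (B' * (W : ℝ) ^ e)) := by linarith
      _ = _ := by ring

lemma UB.unit {e B : ℝ} {Φ : ℤ → X → ℂ} (h : UB μ e B Φ) {a : ℂ} (ha : ‖a‖ = 1) :
    UB μ e B (fun n x => a * Φ n x) := by
  refine ⟨fun n => (h.meas n).const_mul _, ?_, fun R g hg q W => ?_⟩
  · obtain ⟨K, hK⟩ := h.bd
    exact ⟨K, fun n x => by rw [norm_mul, ha, one_mul]; exact hK n x⟩
  · simp only [EC_smul, ← mul_sub, norm_mul, ha, one_mul]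
    exact h.lev R g hg q W

lemma UB.congr {e B : ℝ} {Φ Ψ : ℤ → X → ℂ} (h : UB μ e B Φ) (he : ∀ n x, Ψ n x = Φ n x) : UB μ e B Ψ := by
  have : Ψ = Φ := by
    funext n x
    exact he n x
  rwa [this]

variable {G : Type*} [Group G] [MulAction G X] [MeasurableConstSMul G X] [SMulInvariantMeasure G X μ]

lemma level_bd' {c : ℕ} {L : List (ℤ → G)} (h : Cx c L) {Φ : ℤ → X → ℝ} (hΦ : IsP L Φ) {R : ℕ} {g : ℕ → ℕ}
    (hg : Gr R g) (q W : ℕ) :
    ∑ w ∈ range W, ∫ x, (EA Φ (g ((w + 1) * 2 ^ q)) x - EA Φ (g (w * 2 ^ q)) x) ^ 2 ∂μ ≤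
      (R + 1) * (16 * (W : ℝ) ^ (1 - (1 / 4 : ℝ) ^ c)) := by
  refine (sum_le_res (R := R) (u := fun w => ∫ x, (EA Φ (g ((w + 1) * 2 ^ q)) x -
    EA Φ (g (w * 2 ^ q)) x) ^ 2 ∂μ) (fun w => integral_nonneg fun x => sq_nonneg _) W).trans ?_
  calc _ ≤ ∑ a ∈ range (R + 1), 16 * (W : ℝ) ^ (1 - (1 / 4 : ℝ) ^ c) := by
        refine sum_le_sum fun a _ => ?_
        refine pairs_bd (μ := μ) h hΦ (J := W) (M := fun i => g ((a + (R + 1) * i) * 2 ^ q))
          (N := fun i => g ((a + (R + 1) * i + 1) * 2 ^ q)) (fun i _ => ?_) (fun i _ => ?_)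
        · exact hg.mono.monotone (Nat.mul_le_mul_right _ (Nat.le_succ _))
        · refine hg.two _ _ ?_
          have h2 : R ≤ R * 2 ^ q := Nat.le_mul_of_pos_right _ (by positivity)
          calc (a + (R + 1) * i + 1) * 2 ^ q + R ≤ (a + (R + 1) * i + 1) * 2 ^ q + R * 2 ^ q := by omega
            _ = (a + (R + 1) * (i + 1)) * 2 ^ q := by ring
    _ = _ := by
        rw [sum_const, card_range, nsmul_eq_mul]
        push_cast
        ring

lemma UB.real {c : ℕ} {L : List (ℤ → G)} (h : Cx c L) {Φ : ℤ → X → ℝ} (hΦ : IsP L Φ) :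
    UB μ (1 - (1 / 4 : ℝ) ^ c) 16 (fun n x => (Φ n x : ℂ)) := by
  refine ⟨fun n => Complex.measurable_ofReal.comp (hΦ.bd n).1, ⟨1, fun n x => ?_⟩, fun R g hg q W => ?_⟩
  · rw [Complex.norm_real]
    exact (hΦ.bd n).2 x
  · refine le_trans (le_of_eq ?_) (level_bd' (μ := μ) h hΦ hg q W)
    refine sum_congr rfl fun w _ => integral_congr_ae (Filter.Eventually.of_forall fun x => ?_)
    show ‖EC (fun n x => (Φ n x : ℂ)) _ x - EC (fun n x => (Φ n x : ℂ)) _ x‖ ^ 2 = _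
    rw [EC_ofReal, EC_ofReal, ← Complex.ofReal_sub, Complex.norm_real, Real.norm_eq_abs, sq_abs]

lemma UB.prod {c : ℕ} {L : List (ℤ → G)} (h : Cx c L) {m : ℕ} : ∀ (g : Fin m → ℤ → G) (f : Fin m → X → ℂ)
    (Φ : ℤ → X → ℝ), (∀ j, g j ∈ L) → (∀ j, Measurable (f j)) → (∀ j x, ‖f j x‖ ≤ 1) → IsP L Φ →
    UB μ (1 - (1 / 4 : ℝ) ^ c) (16 * 4 ^ m) (fun n x => (∏ j, f j (g j n • x)) * (Φ n x : ℂ)) := by
  induction m with
  | zero =>
    intro g f Φ _ _ _ hΦ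
    have h1 := UB.real (μ := μ) h hΦ
    simpa using h1
  | succ m ih =>
    intro g f Φ hg hf hf1 hΦ
    have hu : U1 (fun x => (f 0 x).re) := ⟨Complex.measurable_re.comp (hf 0), fun x =>
      (Complex.abs_re_le_norm _).trans (hf1 0 x)⟩
    have hv : U1 (fun x => (f 0 x).im) := ⟨Complex.measurable_im.comp (hf 0), fun x =>
      (Complex.abs_im_le_norm _).trans (hf1 0 x)⟩
    have h1 := ih (fun j => g j.succ) (fun j => f j.succ) _ (fun j => hg _) (fun j => hf _) (fun j => hf1 _)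
      ((IsP.single hu (hg 0)).mul hΦ)
    have h2 := ih (fun j => g j.succ) (fun j => f j.succ) _ (fun j => hg _) (fun j => hf _) (fun j => hf1 _)
      ((IsP.single hv (hg 0)).mul hΦ)
    have h3 := (h1.add (h2.unit (a := Complex.I) Complex.norm_I)).congr
      (Ψ := fun n x => (∏ j, f j (g j n • x)) * (Φ n x : ℂ)) (fun n x => by
        rw [Fin.prod_univ_succ]
        nth_rewrite 1 [← Complex.re_add_im (f 0 (g 0 n • x))]
        push_cast
        ring)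
    have e : (2 * (16 * 4 ^ m) + 2 * (16 * 4 ^ m) : ℝ) = 16 * 4 ^ (m + 1) := by
      rw [pow_succ]
      ring
    rwa [e] at h3

end Pool.JMP
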