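import Pool.Agent.JMP.An2

set_option autoImplicit false
set_option linter.unusedSectionVars false

/-!
# JMP: the kernels of the averages over `[-N, N]`
-/

namespace Pool.JMP

open MeasureTheory Finset

/-- the kernel of the average over `[-N, N]` -/
noncomputable def ker (N : ℕ) (n : ℤ) : ℝ := if |n| ≤ (N : ℤ) then (2 * (N : ℝ) + 1)⁻¹ else 0

lemma ker_nonneg (N : ℕ) (n : ℤ) : 0 ≤ ker N n := by
  rw [ker]
  split_ifs
  · positivity
  · exact le_rfl

lemma ker_eq_zero {N : ℕ} {n : ℤ} (h : (N : ℤ) < |n|) : ker N n = 0 := if_neg (not_le.2 h)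

lemma card_II (N : ℕ) : ((II N).card : ℝ) = 2 * (N : ℝ) + 1 := by
  rw [II, Int.card_Icc]
  have : ((N : ℤ) + 1 - -(N : ℤ)).toNat = 2 * N + 1 := by omega
  rw [this]
  push_cast
  ring

lemma II_mono {N B : ℕ} (h : N ≤ B) : II N ⊆ II B := fun n hn => by
  rw [mem_II] at hn ⊢
  exact hn.trans (by exact_mod_cast h)

lemma sum_ker_mul {N B : ℕ} (h : N ≤ B) (R : ℤ → ℝ) :
    ∑ n ∈ II B, ker N n * R n = (2 * (N : ℝ) + 1)⁻¹ * ∑ n ∈ II N, R n := by
  rw [mul_sum]
  symm
  calc ∑ n ∈ II N, (2 * (N : ℝ) + 1)⁻¹ * R n = ∑ n ∈ II N, ker N n * R n :=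
        sum_congr rfl fun n hn => by rw [ker, if_pos (mem_II.1 hn)]
    _ = ∑ n ∈ II B, ker N n * R n := sum_subset (II_mono h) fun n _ hn => by
        rw [mem_II, not_le] at hn
        rw [ker_eq_zero hn, zero_mul]

lemma sum_ker {N B : ℕ} (h : N ≤ B) : ∑ n ∈ II B, ker N n = 1 := by
  have h1 := sum_ker_mul h (fun _ => (1 : ℝ))
  simp only [mul_one, sum_const, nsmul_eq_mul, card_II] at h1
  rw [h1]
  exact inv_mul_cancel₀ (by positivity)

lemma ker_step (N : ℕ) (S : Finset ℤ) : ∑ h ∈ S, |ker N (h + 1) - ker N h| ≤ 2 * (2 * (N : ℝ) + 1)⁻¹ := by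
  have hc : (0 : ℝ) ≤ (2 * (N : ℝ) + 1)⁻¹ := by positivity
  have h1 : ∀ h : ℤ, |ker N (h + 1) - ker N h| ≤
      (if h = -(N : ℤ) - 1 then (2 * (N : ℝ) + 1)⁻¹ else 0) + (if h = (N : ℤ) then (2 * (N : ℝ) + 1)⁻¹ else 0) := by
    intro h
    have hN : (0 : ℤ) ≤ N := by positivity
    by_cases ha : h = -(N : ℤ) - 1
    · rw [if_pos ha]
      have h2 : ¬ |h| ≤ (N : ℤ) := by
        rw [abs_le]
        omega
      have h3 : |h + 1| ≤ (N : ℤ) := by
        rw [abs_le]
        omega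
      rw [ker, if_pos h3, ker, if_neg h2, sub_zero, abs_of_nonneg hc]
      split_ifs <;> linarith
    · by_cases hb : h = (N : ℤ)
      · rw [if_pos hb, if_neg ha]
        have h2 : |h| ≤ (N : ℤ) := by
          rw [abs_le]
          omega
        have h3 : ¬ |h + 1| ≤ (N : ℤ) := by
          rw [abs_le]
          omega
        rw [ker, if_neg h3, ker, if_pos h2, zero_sub, abs_neg, abs_of_nonneg hc, zero_add]
      · rw [if_neg ha, if_neg hb]
        have h2 : |h| ≤ (N : ℤ) ↔ |h + 1| ≤ (N : ℤ) := by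
          rw [abs_le, abs_le]
          omega
        rw [ker, ker]
        by_cases h3 : |h| ≤ (N : ℤ)
        · rw [if_pos h3, if_pos (h2.1 h3), sub_self, abs_zero, add_zero]
        · rw [if_neg h3, if_neg (fun h4 => h3 (h2.2 h4)), sub_self, abs_zero, add_zero]
  refine (sum_le_sum fun h _ => h1 h).trans ?_
  rw [sum_add_distrib, sum_ite_eq', sum_ite_eq']
  split_ifs <;> linarith

lemma ker_shift_nat (N n : ℕ) : ∀ S : Finset ℤ, ∑ h ∈ S, |ker N ((n : ℤ) + h) - ker N h| ≤
    n * (2 * (2 * (N : ℝ) + 1)⁻¹) := by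
  induction n with
  | zero =>
    intro S
    simp
  | succ n ih =>
    intro S
    have h1 : ∀ h ∈ S, |ker N (((n + 1 : ℕ) : ℤ) + h) - ker N h| ≤
        |ker N (((n : ℤ) + h) + 1) - ker N ((n : ℤ) + h)| + |ker N ((n : ℤ) + h) - ker N h| := by
      intro h _
      have e : ((n + 1 : ℕ) : ℤ) + h = ((n : ℤ) + h) + 1 := by
        push_cast
        ring
      rw [e]
      exact abs_sub_le _ _ _
    refine (sum_le_sum h1).trans ?_
    rw [sum_add_distrib]
    have h2 : ∑ h ∈ S, |ker N (((n : ℤ) + h) + 1) - ker N ((n : ℤ) + h)| ≤ 2 * (2 * (N : ℝ) + 1)⁻¹ := by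
      have h3 := ker_step N (S.map (addLeftEmbedding (n : ℤ)))
      rw [sum_map] at h3
      exact h3
    have h4 := ih S
    push_cast
    linarith

lemma ker_shift (N : ℕ) (n : ℤ) (S : Finset ℤ) : ∑ h ∈ S, |ker N (n + h) - ker N h| ≤
    |(n : ℝ)| * (2 * (2 * (N : ℝ) + 1)⁻¹) := by
  obtain ⟨k, rfl | rfl⟩ := Int.eq_nat_or_neg n
  · simpa using ker_shift_nat N k S
  · have h1 := ker_shift_nat N k (S.map (addLeftEmbedding (-(k : ℤ))))
    rw [sum_map] at h1
    have h2 : ∑ h ∈ S, |ker N (-(k : ℤ) + h) - ker N h| =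
        ∑ x ∈ S, |ker N ((k : ℤ) + (addLeftEmbedding (-(k : ℤ))) x) - ker N ((addLeftEmbedding (-(k : ℤ))) x)| := by
      refine sum_congr rfl fun h _ => ?_
      rw [addLeftEmbedding_apply, add_neg_cancel_left, abs_sub_comm]
    rw [h2]
    simpa using h1

/-- the average over `[-N, N]` -/
noncomputable def EA {X : Type*} (Φ : ℤ → X → ℝ) (N : ℕ) (x : X) : ℝ := (2 * (N : ℝ) + 1)⁻¹ * ∑ n ∈ II N, Φ n x

lemma pow_mul_le {J : ℕ} {M N : ℕ → ℕ} (h1 : ∀ j < J, M j ≤ N j) (h2 : ∀ j, j + 1 < J → 2 * N j ≤ M (j + 1))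
    {i : ℕ} : ∀ {j : ℕ}, i < j → j < J → 2 ^ (j - i) * N i ≤ M j := by
  intro j
  induction j with
  | zero => intro h; omega
  | succ j ih =>
    intro hij hj
    rcases Nat.lt_or_ge i j with h | h
    · have h3 := ih h (by omega)
      have h4 := h2 j hj
      have h5 := h1 j (by omega)
      have e : j + 1 - i = (j - i) + 1 := by omega
      rw [e, pow_succ]
      nlinarith
    · have e : i = j := by omega
      subst e
      have e : i + 1 - i = 1 := by omega
      rw [e, pow_one]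
      exact h2 i hj

lemma lac_pairs {J : ℕ} {M N : ℕ → ℕ} (h1 : ∀ j < J, M j ≤ N j) (h2 : ∀ j, j + 1 < J → 2 * N j ≤ M (j + 1)) :
    Lac J (∑ j ∈ range J, N j) (fun j n => if j < J then ker (N j) n - ker (M j) n else 0) := by
  set B := ∑ j ∈ range J, N j with hB
  have hNB : ∀ j < J, N j ≤ B := fun j hj => single_le_sum (f := N) (fun _ _ => Nat.zero_le _) (mem_range.2 hj)
  have hMB : ∀ j < J, M j ≤ B := fun j hj => (h1 j hj).trans (hNB j hj)
  refine ⟨fun j n hn => ?_, fun j => ?_, fun j => ?_, fun i j => 2 * (1 / 2 : ℝ) ^ (j - i), fun i j => by positivity,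
    fun i j hij hj n hn => ?_, fun j hj => ?_⟩
  · by_cases hj : j < J
    · rw [if_pos hj, ker_eq_zero, ker_eq_zero, sub_zero]
      · exact lt_of_le_of_lt (by exact_mod_cast hMB j hj) hn
      · exact lt_of_le_of_lt (by exact_mod_cast hNB j hj) hn
    · rw [if_neg hj]
  · by_cases hj : j < J
    · simp only [if_pos hj]
      calc ∑ n ∈ II B, |ker (N j) n - ker (M j) n| ≤ ∑ n ∈ II B, (ker (N j) n + ker (M j) n) := by
            refine sum_le_sum fun n _ => ?_
            rw [abs_le]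
            have := ker_nonneg (N j) n
            have := ker_nonneg (M j) n
            constructor <;> linarith
        _ = 2 := by
            rw [sum_add_distrib, sum_ker (hNB j hj), sum_ker (hMB j hj)]
            norm_num
    · simp only [if_neg hj, abs_zero, sum_const_zero]
      norm_num
  · by_cases hj : j < J
    · simp only [if_pos hj]
      rw [sum_sub_distrib, sum_ker (hNB j hj), sum_ker (hMB j hj), sub_self]
    · simp only [if_neg hj, sum_const_zero]
  · have hiJ : i < J := hij.trans hj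
    simp only [if_pos hj]
    simp only [if_pos hiJ] at hn
    have hnN : |n| ≤ (N i : ℤ) := by
      by_contra h3
      rw [not_le] at h3
      rw [ker_eq_zero h3, ker_eq_zero (lt_of_le_of_lt (by exact_mod_cast h1 i hiJ) h3), sub_zero] at hn
      exact hn rfl
    have hnN' : |(n : ℝ)| ≤ N i := by exact_mod_cast hnN
    have h4 : (2 : ℝ) ^ (j - i) * N i ≤ M j := by exact_mod_cast pow_mul_le h1 h2 hij hj
    have h5 : (M j : ℝ) ≤ N j := by exact_mod_cast h1 j hj
    have h6 : |(n : ℝ)| * (2 : ℝ) ^ (j - i) ≤ M j := by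
      have : (0 : ℝ) ≤ 2 ^ (j - i) := by positivity
      nlinarith
    have key : ∀ K : ℕ, (M j : ℝ) ≤ K → |(n : ℝ)| * (2 * (2 * (K : ℝ) + 1)⁻¹) ≤ (1 / 2 : ℝ) ^ (j - i) := by
      intro K hK
      rw [one_div, inv_pow, ← mul_assoc, ← div_eq_mul_inv, div_le_iff₀ (by positivity), mul_comm (_⁻¹),
        ← div_eq_mul_inv, le_div_iff₀ (by positivity)]
      nlinarith
    calc ∑ h ∈ II (2 * B), |ker (N j) (n + h) - ker (M j) (n + h) - (ker (N j) h - ker (M j) h)|
        ≤ ∑ h ∈ II (2 * B), (|ker (N j) (n + h) - ker (N j) h| + |ker (M j) (n + h) - ker (M j) h|) := by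
          refine sum_le_sum fun h _ => ?_
          have e : ker (N j) (n + h) - ker (M j) (n + h) - (ker (N j) h - ker (M j) h) =
            (ker (N j) (n + h) - ker (N j) h) - (ker (M j) (n + h) - ker (M j) h) := by ring
          rw [e]
          exact abs_sub _ _
      _ ≤ |(n : ℝ)| * (2 * (2 * (N j : ℝ) + 1)⁻¹) + |(n : ℝ)| * (2 * (2 * (M j : ℝ) + 1)⁻¹) := by
          rw [sum_add_distrib]
          exact add_le_add (ker_shift _ _ _) (ker_shift _ _ _)
      _ ≤ 2 * (1 / 2 : ℝ) ^ (j - i) := by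
          have := key (N j) h5
          have := key (M j) le_rfl
          linarith
  · have h3 : ∀ j : ℕ, ∑ i ∈ range j, 2 * (1 / 2 : ℝ) ^ (j - i) = 2 - 2 * (1 / 2 : ℝ) ^ j := by
      intro j
      induction j with
      | zero => norm_num
      | succ j ih =>
        rw [sum_range_succ]
        have e1 : j + 1 - j = 1 := by omega
        have e2 : ∑ i ∈ range j, 2 * (1 / 2 : ℝ) ^ (j + 1 - i) = (1 / 2) * ∑ i ∈ range j, 2 * (1 / 2 : ℝ) ^ (j - i) := by
          rw [mul_sum]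
          refine sum_congr rfl fun i hi => ?_
          rw [mem_range] at hi
          have e : j + 1 - i = (j - i) + 1 := by omega
          rw [e, pow_succ]
          ring
        rw [e1, e2, ih, pow_succ]
        ring
    rw [h3]
    have : (0 : ℝ) ≤ (1 / 2 : ℝ) ^ j := by positivity
    linarith

variable {G X : Type*} [Group G] [MulAction G X] [MeasurableSpace X] [MeasurableConstSMul G X] {μ : Measure X}
  [IsProbabilityMeasure μ] [SMulInvariantMeasure G X μ]

/-- **lacunary pairs of averages** -/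
theorem pairs_bd {c : ℕ} {L : List (ℤ → G)} (h : Cx c L) {Φ : ℤ → X → ℝ} (hΦ : IsP L Φ) {J : ℕ} {M N : ℕ → ℕ}
    (h1 : ∀ j < J, M j ≤ N j) (h2 : ∀ j, j + 1 < J → 2 * N j ≤ M (j + 1)) :
    ∑ j ∈ range J, ∫ x, (EA Φ (N j) x - EA Φ (M j) x) ^ 2 ∂μ ≤ 16 * (J : ℝ) ^ (1 - (1 / 4 : ℝ) ^ c) := by
  refine le_trans (le_of_eq ?_) (bd_of_cx (μ := μ) h J _ _ (lac_pairs h1 h2) Φ hΦ)
  have hNB : ∀ j < J, N j ≤ ∑ j ∈ range J, N j := fun j hj =>
    single_le_sum (f := N) (fun _ _ => Nat.zero_le _) (mem_range.2 hj)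
  refine sum_congr rfl fun j hj => ?_
  rw [mem_range] at hj
  refine integral_congr_ae (Filter.Eventually.of_forall fun x => ?_)
  show (EA Φ (N j) x - EA Φ (M j) x) ^ 2 = AV _ _ Φ x ^ 2
  rw [AV]
  simp only [if_pos hj]
  have e : ∀ n : ℤ, (ker (N j) n - ker (M j) n) * Φ n x = ker (N j) n * Φ n x - ker (M j) n * Φ n x :=
    fun n => sub_mul _ _ _
  simp only [e]
  rw [sum_sub_distrib, sum_ker_mul (hNB j hj) (fun n => Φ n x), sum_ker_mul ((h1 j hj).trans (hNB j hj)) (fun n => Φ n x)]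
  rfl

end Pool.JMP
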