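import Pool.Agent.JMP.Intg

set_option autoImplicit false
set_option linter.unusedSectionVars false

/-!
# JMP: the grid of a finite set of times and the mean number of fluctuations
-/

namespace Pool.JMP

open MeasureTheory Finset
open scoped ENNReal

lemma idx_block {R : ℕ} (hR : 0 < R) {n : ℕ} (hn : 1 ≤ n) :
    idx R n ∈ Icc (idx R (2 ^ Nat.log 2 n)) (idx R (2 ^ Nat.log 2 n) + R) := by
  have h1 : 2 ^ Nat.log 2 n ≤ n := Nat.pow_log_le_self 2 (by omega)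
  have h2 : n < 2 ^ (Nat.log 2 n + 1) := Nat.lt_pow_succ_log_self (by norm_num) n
  have h3 : 1 ≤ 2 ^ Nat.log 2 n := Nat.one_le_two_pow
  rw [mem_Icc]
  refine ⟨idx_mono R h3 h1, ?_⟩
  by_contra h
  rw [not_le] at h
  have h4 := two_grid hR (r := idx R (2 ^ Nat.log 2 n) + 1) (s := idx R n) (by omega)
  have h5 := lt_grid_idx R (2 ^ Nat.log 2 n)
  have h6 := grid_idx_le R hn
  rw [pow_succ] at h2
  omega

lemma card_idx {R : ℕ} (hR : 0 < R) {F : Finset ℕ} (hF : ∀ n ∈ F, 1 ≤ n) :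
    (F.image (idx R)).card ≤ (R + 1) * scales F := by
  have h1 : F.image (idx R) ⊆ (F.image (Nat.log 2)).biUnion fun b => Icc (idx R (2 ^ b)) (idx R (2 ^ b) + R) := by
    intro r hr
    rw [mem_image] at hr
    obtain ⟨n, hn, rfl⟩ := hr
    rw [mem_biUnion]
    exact ⟨Nat.log 2 n, mem_image_of_mem _ hn, idx_block hR (hF n hn)⟩
  refine (card_le_card h1).trans ((card_biUnion_le_card_mul _ _ (R + 1) fun b _ => ?_).trans (le_of_eq ?_))
  · rw [Nat.card_Icc]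
    omega
  · rw [mul_comm]
    rfl

/-- the used indices, completed to an infinite set -/
def pF (R : ℕ) (F : Finset ℕ) (r : ℕ) : Prop := r ∈ F.image (idx R) ∨ ∀ i ∈ F.image (idx R), i < r

lemma pF_inf (R : ℕ) (F : Finset ℕ) : {r | pF R F r}.Infinite := by
  refine Set.infinite_of_not_bddAbove fun h => ?_
  obtain ⟨K, hK⟩ := h
  have h1 : K + 1 + (F.image (idx R)).sup id ∈ {r | pF R F r} := by
    refine Or.inr fun i hi => ?_
    have := Finset.le_sup (f := id) hi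
    simp only [id] at this
    omega
  have := hK h1
  omega

/-- the grid of `F` -/
noncomputable def gF (R : ℕ) (F : Finset ℕ) (r : ℕ) : ℕ := grid R (Nat.nth (pF R F) r)

lemma gF_gr {R : ℕ} (hR : 0 < R) (F : Finset ℕ) : Gr R (gF R F) := by
  have h1 : StrictMono (Nat.nth (pF R F)) := Nat.nth_strictMono (pF_inf R F)
  refine ⟨(grid_mono R).comp h1, fun r s hrs => two_grid hR ?_⟩
  have h2 : ∀ k, Nat.nth (pF R F) r + k ≤ Nat.nth (pF R F) (r + k) := by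
    intro k
    induction k with
    | zero => exact le_rfl
    | succ k ih =>
      have := h1 (Nat.lt_add_one (r + k))
      rw [← add_assoc, ← add_assoc]
      omega
  exact (h2 R).trans (h1.monotone hrs)

/-- index of a time -/
noncomputable def ixF (R : ℕ) (F : Finset ℕ) (n : ℕ) : ℕ := by
  classical
  exact Nat.count (pF R F) (idx R n)

lemma gF_ixF {R : ℕ} {F : Finset ℕ} {n : ℕ} (hn : n ∈ F) : gF R F (ixF R F n) = grid R (idx R n) := by
  classical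
  rw [gF, ixF]
  congr 1
  exact Nat.nth_count (Or.inl (mem_image_of_mem _ hn))

lemma ixF_mono {R : ℕ} {F : Finset ℕ} {m n : ℕ} (hm : 1 ≤ m) (h : m ≤ n) : ixF R F m ≤ ixF R F n := by
  classical
  rw [ixF, ixF]
  exact Nat.count_monotone _ (idx_mono R hm h)

lemma ixF_lt {R : ℕ} {F : Finset ℕ} {n : ℕ} (hn : n ∈ F) : ixF R F n < (F.image (idx R)).card := by
  classical
  rw [ixF, Nat.count_eq_card_filter_range]
  have hi : idx R n ∈ F.image (idx R) := mem_image_of_mem _ hn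
  have h1 : (range (idx R n)).filter (pF R F) ⊆ (F.image (idx R)).erase (idx R n) := by
    intro r hr
    rw [mem_filter, mem_range] at hr
    rw [mem_erase]
    refine ⟨hr.1.ne, ?_⟩
    rcases hr.2 with h | h
    · exact h
    · exact absurd (h _ hi) (by omega)
  refine (card_le_card h1).trans_lt ?_
  exact card_erase_lt_of_mem hi

section det

variable {X : Type*}

/-- the count of the fluctuations in `F` -/
lemma count_le' {Φ : ℤ → X → ℂ} {x : X} {K : ℝ} (hK : ∀ k, ‖Φ k x‖ ≤ K) {R : ℕ} (hR : 0 < R) {ε : ℝ}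
    (hRε : 8 * K ≤ ε * R) (hε : 0 < ε) {F : Finset ℕ} (hF : ∀ n ∈ F, 1 ≤ n) {Q L : ℕ} {M : ℕ → ℕ}
    (hQ : (F.image (idx R)).card ≤ 2 ^ Q) (hMF : ∀ i ≤ L, M i ∈ F) (hM : ∀ i < L, M i < M (i + 1))
    (hj : ∀ i < L, ε ≤ ‖EC Φ (M (i + 1)) x - EC Φ (M i) x‖) :
    (L : ℝ) * (ε / 2) ^ 2 ≤ 4 * Q * VQ (fun r => EC Φ (gF R F r) x) Q := by
  have hR' : (0 : ℝ) < R := by exact_mod_cast hR
  have h1 : ∀ i < L, ε / 2 ≤ ‖EC Φ (gF R F (ixF R F (M (i + 1)))) x - EC Φ (gF R F (ixF R F (M i))) x‖ := by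
    intro i hi
    rw [gF_ixF (hMF (i + 1) hi), gF_ixF (hMF i hi.le)]
    have h2 := hj i hi
    have h3 := EC_grid hK hR (hF _ (hMF (i + 1) hi))
    have h4 := EC_grid hK hR (hF _ (hMF i hi.le))
    have h5 : 2 * K / R ≤ ε / 4 := by
      rw [div_le_div_iff₀ hR' (by norm_num)]
      linarith
    have e : EC Φ (M (i + 1)) x - EC Φ (M i) x =
        (EC Φ (M (i + 1)) x - EC Φ (grid R (idx R (M (i + 1)))) x) +
        (EC Φ (grid R (idx R (M (i + 1)))) x - EC Φ (grid R (idx R (M i))) x) -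
        (EC Φ (M i) x - EC Φ (grid R (idx R (M i))) x) := by ring
    rw [e] at h2
    have h6 := norm_sub_le ((EC Φ (M (i + 1)) x - EC Φ (grid R (idx R (M (i + 1)))) x) +
        (EC Φ (grid R (idx R (M (i + 1)))) x - EC Φ (grid R (idx R (M i))) x))
        (EC Φ (M i) x - EC Φ (grid R (idx R (M i))) x)
    have h7 := norm_add_le (EC Φ (M (i + 1)) x - EC Φ (grid R (idx R (M (i + 1)))) x)
        (EC Φ (grid R (idx R (M (i + 1)))) x - EC Φ (grid R (idx R (M i))) x)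
    linarith
  have h8 := chain_le (fun r => EC Φ (gF R F r) x) (Q := Q) (L := L) (x := fun i => ixF R F (M i))
    (fun i hi => ixF_mono (hF _ (hMF i hi.le)) (hM i hi).le)
    ((ixF_lt (hMF L le_rfl)).trans_le hQ)
  refine le_trans ?_ h8
  calc (L : ℝ) * (ε / 2) ^ 2 = ∑ i ∈ range L, (ε / 2) ^ 2 := by
        rw [sum_const, card_range, nsmul_eq_mul]
    _ ≤ _ := sum_le_sum fun i hi => pow_le_pow_left₀ (by positivity) (h1 i (mem_range.1 hi)) 2

end det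

variable {X : Type*} [MeasurableSpace X] {μ : Measure X} [IsProbabilityMeasure μ]

lemma VQ_int {e B : ℝ} (he : 0 ≤ e) (hB : 0 ≤ B) {Φ : ℤ → X → ℂ} (hU : UB μ e B Φ) {R : ℕ} {g : ℕ → ℕ} (hg : Gr R g)
    (Q : ℕ) : Integrable (fun x => VQ (fun r => EC Φ (g r) x) Q) μ ∧
      ∫ x, VQ (fun r => EC Φ (g r) x) Q ∂μ ≤ Q * ((R + 1) * (B * ((2 : ℝ) ^ Q) ^ e)) := by
  have hterm : ∀ a b : ℕ, Integrable (fun x => ‖EC Φ a x - EC Φ b x‖ ^ 2) μ := fun a b => sq_int hU.meas hU.bd a b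
  have hI : Integrable (fun x => VQ (fun r => EC Φ (g r) x) Q) μ :=
    integrable_finsetSum _ fun q _ => integrable_finsetSum _ fun w _ => hterm _ _
  refine ⟨hI, ?_⟩
  have e1 : ∫ x, VQ (fun r => EC Φ (g r) x) Q ∂μ = ∑ q ∈ range Q, ∑ w ∈ range (2 ^ (Q - q)),
      ∫ x, ‖EC Φ (g ((w + 1) * 2 ^ q)) x - EC Φ (g (w * 2 ^ q)) x‖ ^ 2 ∂μ := by
    simp only [VQ]
    rw [integral_finsetSum _ fun q _ => integrable_finsetSum _ fun w _ => hterm _ _]
    exact sum_congr rfl fun q _ => integral_finsetSum _ fun w _ => hterm _ _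
  rw [e1]
  calc _ ≤ ∑ q ∈ range Q, ((R : ℝ) + 1) * (B * ((2 : ℝ) ^ Q) ^ e) := by
        refine sum_le_sum fun q _ => (hU.lev R g hg q _).trans ?_
        refine mul_le_mul_of_nonneg_left (mul_le_mul_of_nonneg_left ?_ hB) (by positivity)
        refine Real.rpow_le_rpow (by positivity) ?_ he
        push_cast
        exact pow_le_pow_right₀ (by norm_num) (Nat.sub_le _ _)
    _ = _ := by
        rw [sum_const, card_range, nsmul_eq_mul]

/-- first form of the mean bound -/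
lemma mean_jumps0 {e B : ℝ} (he : 0 ≤ e) (hB : 0 ≤ B) {Φ : ℤ → X → ℂ} (hU : UB μ e B Φ) (hK : ∀ n x, ‖Φ n x‖ ≤ 1)
    {R : ℕ} (hR : 0 < R) {ε : ℝ} (hRε : 8 ≤ ε * R) (hε : 0 < ε) {F : Finset ℕ} (hF : ∀ n ∈ F, 1 ≤ n)
    (hF0 : F.Nonempty) {Q : ℕ} (hQ : (F.image (idx R)).card ≤ 2 ^ Q) :
    ∫⁻ x, (jumps (fun n => EC Φ n x) ε F : ℝ≥0∞) ∂μ ≤
      ENNReal.ofReal (16 / ε ^ 2 * Q * (Q * ((R + 1) * (B * ((2 : ℝ) ^ Q) ^ e)))) := by
  have hg := gF_gr hR F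
  obtain ⟨hI, hle⟩ := VQ_int he hB hU hg Q
  have h1 : ∀ x, (jumps (fun n => EC Φ n x) ε F : ℝ) ≤ 16 / ε ^ 2 * Q * VQ (fun r => EC Φ (gF R F r) x) Q := by
    intro x
    obtain ⟨M, hM1, hM2, hM3⟩ := exists_chain (fun n => EC Φ n x) ε hF0
    have h2 := count_le' (Φ := Φ) (x := x) (K := 1) (fun n => hK n x) hR (by linarith) hε hF hQ hM1 hM2 hM3
    have e : ((jumps (fun n => EC Φ n x) ε F : ℕ) : ℝ) =
        (jumps (fun n => EC Φ n x) ε F : ℝ) * (ε / 2) ^ 2 * (4 / ε ^ 2) := by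
      field_simp
      ring
    rw [e]
    calc _ ≤ 4 * Q * VQ (fun r => EC Φ (gF R F r) x) Q * (4 / ε ^ 2) :=
          mul_le_mul_of_nonneg_right h2 (by positivity)
      _ = _ := by ring
  calc ∫⁻ x, (jumps (fun n => EC Φ n x) ε F : ℝ≥0∞) ∂μ
      ≤ ∫⁻ x, ENNReal.ofReal (16 / ε ^ 2 * Q * VQ (fun r => EC Φ (gF R F r) x) Q) ∂μ := by
        refine lintegral_mono fun x => ?_
        rw [← ENNReal.ofReal_natCast]
        exact ENNReal.ofReal_le_ofReal (h1 x)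
    _ = ENNReal.ofReal (∫ x, 16 / ε ^ 2 * Q * VQ (fun r => EC Φ (gF R F r) x) Q ∂μ) :=
        (ofReal_integral_eq_lintegral_ofReal (hI.const_mul _) (Filter.Eventually.of_forall fun x =>
          mul_nonneg (by positivity) (VQ_nonneg _ _))).symm
    _ ≤ _ := by
        refine ENNReal.ofReal_le_ofReal ?_
        rw [integral_const_mul]
        exact mul_le_mul_of_nonneg_left hle (by positivity)

/-- the mean bound -/
theorem mean_jumps {δ B : ℝ} (hδ : 0 < δ) (hδ1 : δ ≤ 1) (hB : 0 ≤ B) {Φ : ℤ → X → ℂ} (hU : UB μ (1 - δ) B Φ)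
    (hK : ∀ n x, ‖Φ n x‖ ≤ 1) {ε : ℝ} (hε : 0 < ε) (hε1 : ε ≤ 1) {F : Finset ℕ} (hF : ∀ n ∈ F, 1 ≤ n)
    (hF0 : F.Nonempty) :
    ∫⁻ x, (jumps (fun n => EC Φ n x) ε F : ℝ≥0∞) ∂μ ≤
      ENNReal.ofReal (3200 * B * (4 / (δ * Real.log 2)) ^ 2 / ε ^ 4 * (scales F : ℝ) ^ (1 - δ / 2)) := by
  set R := ⌈8 / ε⌉₊ with hRdef
  have hR1 : 8 / ε ≤ R := Nat.le_ceil _
  have hR2 : (R : ℝ) < 8 / ε + 1 := Nat.ceil_lt_add_one (by positivity)
  have hR' : (0 : ℝ) < R := lt_of_lt_of_le (by positivity) hR1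
  have hR : 0 < R := by exact_mod_cast hR'
  have hRε : 8 ≤ ε * R := by
    rw [div_le_iff₀ hε] at hR1
    linarith
  have hR3 : (R : ℝ) + 1 ≤ 10 / ε := by
    have : 2 ≤ 2 / ε := by
      rw [le_div_iff₀ hε]
      linarith
    have e : 10 / ε = 8 / ε + 2 / ε := by ring
    linarith
  have hs : 1 ≤ scales F := by
    rw [scales, Nat.succ_le_iff, card_pos]
    exact hF0.image _
  have hs' : (1 : ℝ) ≤ scales F := by exact_mod_cast hs
  set Q := Nat.log 2 ((R + 1) * scales F) + 1 with hQdef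
  have hQ1 : (F.image (idx R)).card ≤ 2 ^ Q :=
    (card_idx hR hF).trans (Nat.lt_pow_succ_log_self (by norm_num) _).le
  have hQ2 : (2 : ℝ) ^ Q ≤ 20 / ε * scales F := by
    have h1 : 2 ^ Nat.log 2 ((R + 1) * scales F) ≤ (R + 1) * scales F :=
      Nat.pow_log_le_self 2 (Nat.mul_pos (Nat.succ_pos R) hs).ne'
    have h2 : (2 : ℝ) ^ Nat.log 2 ((R + 1) * scales F) ≤ ((R : ℝ) + 1) * scales F := by exact_mod_cast h1
    rw [hQdef, pow_succ]
    have h3 : ((R : ℝ) + 1) * scales F ≤ 10 / ε * scales F := mul_le_mul_of_nonneg_right hR3 (by linarith)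
    calc (2 : ℝ) ^ Nat.log 2 ((R + 1) * scales F) * 2 ≤ 10 / ε * scales F * 2 := by linarith
      _ = _ := by ring
  have h0 := mean_jumps0 (by linarith) hB hU hK hR hRε hε hF hF0 hQ1
  refine h0.trans (ENNReal.ofReal_le_ofReal ?_)
  have hlog2 : 0 < Real.log 2 := Real.log_pos (by norm_num)
  -- `Q ^ 2` is absorbed
  have h4 : (Q : ℝ) ≤ 4 / (δ * Real.log 2) * ((2 : ℝ) ^ Q) ^ (δ / 4) := by
    have h5 : (Q : ℝ) * (δ / 4) * Real.log 2 ≤ ((2 : ℝ) ^ Q) ^ (δ / 4) := by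
      rw [← Real.rpow_natCast, ← Real.rpow_mul (by norm_num), Real.rpow_def_of_pos (by norm_num)]
      have := Real.add_one_le_exp (Real.log 2 * ((Q : ℝ) * (δ / 4)))
      linarith
    rw [div_mul_eq_mul_div, le_div_iff₀ (by positivity)]
    linarith
  have hP : (0 : ℝ) < (2 : ℝ) ^ Q := by positivity
  have h6 : (Q : ℝ) * Q * ((2 : ℝ) ^ Q) ^ (1 - δ) ≤
      (4 / (δ * Real.log 2)) ^ 2 * ((2 : ℝ) ^ Q) ^ (1 - δ / 2) := by
    have h7 : (Q : ℝ) * Q ≤ (4 / (δ * Real.log 2) * ((2 : ℝ) ^ Q) ^ (δ / 4)) *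
        (4 / (δ * Real.log 2) * ((2 : ℝ) ^ Q) ^ (δ / 4)) :=
      mul_le_mul h4 h4 (Nat.cast_nonneg _) (by positivity)
    have h8 : ((2 : ℝ) ^ Q) ^ (δ / 4) * ((2 : ℝ) ^ Q) ^ (δ / 4) * ((2 : ℝ) ^ Q) ^ (1 - δ) =
        ((2 : ℝ) ^ Q) ^ (1 - δ / 2) := by
      rw [← Real.rpow_add hP, ← Real.rpow_add hP]
      congr 1
      ring
    calc (Q : ℝ) * Q * ((2 : ℝ) ^ Q) ^ (1 - δ) ≤ (4 / (δ * Real.log 2) * ((2 : ℝ) ^ Q) ^ (δ / 4)) *
        (4 / (δ * Real.log 2) * ((2 : ℝ) ^ Q) ^ (δ / 4)) * ((2 : ℝ) ^ Q) ^ (1 - δ) :=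
          mul_le_mul_of_nonneg_right h7 (by positivity)
      _ = (4 / (δ * Real.log 2)) ^ 2 * (((2 : ℝ) ^ Q) ^ (δ / 4) * ((2 : ℝ) ^ Q) ^ (δ / 4) *
          ((2 : ℝ) ^ Q) ^ (1 - δ)) := by ring
      _ = _ := by rw [h8]
  have h9 : ((2 : ℝ) ^ Q) ^ (1 - δ / 2) ≤ 20 / ε * (scales F : ℝ) ^ (1 - δ / 2) := by
    have h10 : ((2 : ℝ) ^ Q) ^ (1 - δ / 2) ≤ (20 / ε * scales F) ^ (1 - δ / 2) :=
      Real.rpow_le_rpow hP.le hQ2 (by linarith)
    rw [Real.mul_rpow (by positivity) (by positivity)] at h10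
    refine h10.trans (mul_le_mul_of_nonneg_right ?_ (by positivity))
    have h11 : (1 : ℝ) ≤ 20 / ε := by
      rw [le_div_iff₀ hε]
      linarith
    calc (20 / ε) ^ (1 - δ / 2) ≤ (20 / ε) ^ (1 : ℝ) := Real.rpow_le_rpow_of_exponent_le h11 (by linarith)
      _ = 20 / ε := Real.rpow_one _
  calc 16 / ε ^ 2 * Q * (Q * ((R + 1) * (B * ((2 : ℝ) ^ Q) ^ (1 - δ))))
      = 16 / ε ^ 2 * B * ((R + 1) * (Q * Q * ((2 : ℝ) ^ Q) ^ (1 - δ))) := by ring
    _ ≤ 16 / ε ^ 2 * B * (10 / ε * ((4 / (δ * Real.log 2)) ^ 2 * (20 / ε * (scales F : ℝ) ^ (1 - δ / 2)))) := by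
        refine mul_le_mul_of_nonneg_left ?_ (by positivity)
        refine mul_le_mul hR3 (h6.trans (mul_le_mul_of_nonneg_left h9 (by positivity))) (by positivity) (by positivity)
    _ = _ := by
        field_simp
        ring

end Pool.JMP
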